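import Mathlib
/-! Pure commutative algebra endgame for MP_6995cd_al. -/
namespace Pool.Agent.Rep463.Rep463E
open Finset

/-- `cyc u L k g` is the coefficient of `t^k` in `∏_{i<k} g(u^{(L/k) i} t)`. -/
noncomputable def cyc {B : Type*} [CommRing B] (u : B) (L k : ℕ) (g : PowerSeries B) : B :=
  PowerSeries.coeff k (∏ i ∈ range k, PowerSeries.rescale (u ^ (L / k * i)) g)


section endgame_helpers
variable {B : Type*} [CommRing B]

/-- `w` is a generalised primitive `k`-th root of unity -/
def endgame_G (k : ℕ) (w : B) : Prop :=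
  w ^ k = 1 ∧ ∀ m, ¬ k ∣ m → ∀ x : B, (1 - w ^ m) * x = 0 → x = 0

noncomputable def endgame_P (w : B) (k : ℕ) (g : PowerSeries B) : PowerSeries B :=
  ∏ i ∈ range k, PowerSeries.rescale (w ^ i) g

noncomputable def endgame_c (w : B) (k : ℕ) (g : PowerSeries B) : B :=
  PowerSeries.coeff k (endgame_P w k g)

theorem endgame_P_rescale {k : ℕ} {w : B} (hw : w ^ k = 1) (g : PowerSeries B) :
    PowerSeries.rescale w (endgame_P w k g) = endgame_P w k g := by
  unfold endgame_P
  rw [map_prod]
  have h : ∀ i, PowerSeries.rescale w (PowerSeries.rescale (w ^ i) g) =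
      PowerSeries.rescale (w ^ (i + 1)) g := by
    intro i
    rw [PowerSeries.rescale_rescale, pow_succ]
  simp only [h]
  cases k with
  | zero => simp
  | succ k =>
    rw [prod_range_succ, prod_range_succ' (fun i => PowerSeries.rescale (w ^ i) g), hw, pow_zero]

theorem endgame_P_coeff {k : ℕ} {w : B} (h : endgame_G k w) (g : PowerSeries B) {m : ℕ}
    (hm : ¬ k ∣ m) : PowerSeries.coeff m (endgame_P w k g) = 0 := by
  apply h.2 m hm
  have h1 := congrArg (PowerSeries.coeff m) (endgame_P_rescale h.1 g)
  rw [PowerSeries.coeff_rescale] at h1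
  linear_combination (-1) * h1

theorem endgame_rescale_const (c : B) (g : PowerSeries B) :
    PowerSeries.constantCoeff (PowerSeries.rescale c g) = PowerSeries.constantCoeff g := by
  rw [← PowerSeries.coeff_zero_eq_constantCoeff_apply, PowerSeries.coeff_rescale]
  simp

theorem endgame_P_const {k : ℕ} {w : B} {g : PowerSeries B}
    (hg : PowerSeries.constantCoeff g = 1) :
    PowerSeries.constantCoeff (endgame_P w k g) = 1 := by
  unfold endgame_P
  rw [map_prod]
  apply Finset.prod_eq_one
  intro i _
  rw [endgame_rescale_const, hg]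

theorem endgame_sum {k : ℕ} (hk : 0 < k) (f : ℕ × ℕ → B)
    (hf : ∀ i j, 0 < i → 0 < j → i + j = k → f (i, j) = 0) :
    ∑ x ∈ antidiagonal k, f x = f (0, k) + f (k, 0) := by
  obtain ⟨k', rfl⟩ : ∃ k', k = k' + 1 := ⟨k - 1, by omega⟩
  rw [Finset.Nat.sum_antidiagonal_succ]
  congr 1
  rw [Finset.sum_eq_single (k', 0)]
  · intro x hx hne
    rw [Finset.HasAntidiagonal.mem_antidiagonal] at hx
    apply hf
    · omega
    · rcases Nat.eq_zero_or_pos x.2 with h0 | h0
      · exfalso
        apply hne
        ext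
        · simp; omega
        · simp [h0]
      · exact h0
    · omega
  · intro h
    exact absurd (by simp) h

theorem endgame_c_mul {k : ℕ} (hk : 0 < k) {w : B} (h : endgame_G k w) {g g' : PowerSeries B}
    (hg : PowerSeries.constantCoeff g = 1) (hg' : PowerSeries.constantCoeff g' = 1) :
    endgame_c w k (g * g') = endgame_c w k g + endgame_c w k g' := by
  have hmul : endgame_P w k (g * g') = endgame_P w k g * endgame_P w k g' := by
    unfold endgame_P
    simp only [map_mul]
    exact prod_mul_distrib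
  unfold endgame_c
  rw [hmul, PowerSeries.coeff_mul, endgame_sum hk]
  · simp only [PowerSeries.coeff_zero_eq_constantCoeff_apply, endgame_P_const hg,
      endgame_P_const hg']
    ring
  · intro i j hi hj hij
    have : ¬ k ∣ i := fun hd => by
      have := Nat.le_of_dvd hi hd
      omega
    simp only [endgame_P_coeff h g this, zero_mul]

theorem endgame_P_split (w : B) (l m : ℕ) (g : PowerSeries B) :
    endgame_P w (l * m) g =
      ∏ j ∈ range l, PowerSeries.rescale (w ^ j) (endgame_P (w ^ l) m g) := by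
  induction m with
  | zero => simp [endgame_P]
  | succ m ih =>
    have h1 : endgame_P w (l * (m + 1)) g =
        endgame_P w (l * m) g * ∏ j ∈ range l, PowerSeries.rescale (w ^ (l * m + j)) g := by
      unfold endgame_P
      rw [Nat.mul_succ, prod_range_add]
    have h2 : ∀ j, PowerSeries.rescale (w ^ j) (endgame_P (w ^ l) (m + 1) g) =
        PowerSeries.rescale (w ^ j) (endgame_P (w ^ l) m g) *
          PowerSeries.rescale (w ^ (l * m + j)) g := by
      intro j
      unfold endgame_P
      rw [prod_range_succ, map_mul, PowerSeries.rescale_rescale, ← pow_mul, pow_add]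
    rw [h1, ih]
    simp only [h2]
    rw [prod_mul_distrib]

theorem endgame_frob {R : Type*} [CommRing R] {l : ℕ} (hl : l.Prime) (h0 : (l : R) = 0)
    (F : PowerSeries R) (m : ℕ) :
    PowerSeries.coeff (l * m) (F ^ l) = (PowerSeries.coeff m F) ^ l := by
  rcases subsingleton_or_nontrivial R with hs | hn
  · exact Subsingleton.elim _ _
  · have : CharP R l := ringChar.of_eq (CharP.ringChar_of_prime_eq_zero hl h0)
    have : Fact l.Prime := ⟨hl⟩
    have hpos : 0 < l := hl.pos
    have e1 : PowerSeries.coeff (l * m) (F ^ l) =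
        (PowerSeries.trunc (l * m + 1) (F ^ l)).coeff (l * m) := by
      rw [PowerSeries.coeff_trunc, if_pos (Nat.lt_succ_self _)]
    have e2 : PowerSeries.coeff (l * m) ((PowerSeries.trunc (l * m + 1) F : PowerSeries R) ^ l) =
        (PowerSeries.trunc (l * m + 1)
          ((PowerSeries.trunc (l * m + 1) F : PowerSeries R) ^ l)).coeff (l * m) := by
      rw [PowerSeries.coeff_trunc, if_pos (Nat.lt_succ_self _)]
    rw [e1, ← PowerSeries.trunc_trunc_pow, ← e2, ← Polynomial.coe_pow, Polynomial.coeff_coe,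
      ← Polynomial.map_frobenius_expand l, Polynomial.coeff_map, Polynomial.coeff_expand_mul' hpos,
      frobenius_def, PowerSeries.coeff_trunc, if_pos]
    nlinarith

theorem endgame_G_l {l m : ℕ} (hl : 0 < l) {w : B} (h : endgame_G (l * m) w) :
    endgame_G m (w ^ l) := by
  refine ⟨by rw [← pow_mul]; exact h.1, fun s hs x hx => ?_⟩
  apply h.2 (l * s) _ x
  · rw [pow_mul]; exact hx
  · intro hd
    exact hs ((Nat.mul_dvd_mul_iff_left hl).mp hd)

theorem endgame_geom {l m : ℕ} (hl : l.Prime) (hm : 0 < m) {w : B} (h : endgame_G (l * m) w) :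
    ∑ i ∈ range l, (w ^ m) ^ i = 0 := by
  apply h.2 m
  · intro hd
    have := Nat.le_of_dvd hm hd
    nlinarith [hl.two_le]
  · rw [mul_neg_geom_sum, ← pow_mul, mul_comm m l, h.1, sub_self]

theorem endgame_cong {l m : ℕ} (hl : l.Prime) (hm : 0 < m) {w : B} (h : endgame_G (l * m) w)
    (g : PowerSeries B) :
    ∃ y, endgame_c w (l * m) g - endgame_c (w ^ l) m g ^ l = (1 - w ^ m) * y := by
  set I : Ideal B := Ideal.span {1 - w ^ m} with hI
  set π : B →+* B ⧸ I := Ideal.Quotient.mk I with hπ
  have hw1 : π (w ^ m) = 1 := by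
    have : π (1 - w ^ m) = 0 := Ideal.Quotient.eq_zero_iff_mem.mpr (Ideal.mem_span_singleton_self _)
    rw [map_sub, map_one, sub_eq_zero] at this
    exact this.symm
  have hl0 : ((l : ℕ) : B ⧸ I) = 0 := by
    have h1 := congrArg π (endgame_geom hl hm h)
    rw [map_sum, map_zero] at h1
    simp only [map_pow π (w ^ m), hw1, one_pow] at h1
    simpa using h1
  have hG := endgame_G_l hl.pos h
  have hres : ∀ j, PowerSeries.map π (PowerSeries.rescale (w ^ j) (endgame_P (w ^ l) m g)) =
      PowerSeries.map π (endgame_P (w ^ l) m g) := by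
    intro j
    ext s
    rw [PowerSeries.coeff_map, PowerSeries.coeff_map, PowerSeries.coeff_rescale]
    by_cases hs : m ∣ s
    · obtain ⟨t, rfl⟩ := hs
      have : (w ^ j) ^ (m * t) = (w ^ m) ^ (j * t) := by
        rw [← pow_mul, ← pow_mul]
        congr 1
        ring
      rw [this, map_mul, map_pow π (w ^ m), hw1, one_pow, one_mul]
    · rw [endgame_P_coeff hG g hs]
      simp
  have hP : PowerSeries.map π (endgame_P w (l * m) g) =
      (PowerSeries.map π (endgame_P (w ^ l) m g)) ^ l := by
    rw [endgame_P_split, map_prod]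
    simp only [hres]
    rw [prod_const, card_range]
  have hfin : π (endgame_c w (l * m) g) = π (endgame_c (w ^ l) m g ^ l) := by
    unfold endgame_c
    rw [map_pow, ← PowerSeries.coeff_map, hP, endgame_frob hl hl0, PowerSeries.coeff_map]
  have := (Ideal.Quotient.mk_eq_mk_iff_sub_mem _ _).mp hfin
  rw [hI, Ideal.mem_span_singleton] at this
  exact this

theorem endgame_pow_dvd {l : ℕ} (hl : l.Prime) {v : B} (hv : v ^ l = 1) :
    ∃ z, (1 - v) ^ l = l * z := by
  obtain ⟨r, hr⟩ := exists_add_pow_prime_eq hl 1 (-v)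
  rcases hl.eq_two_or_odd' with rfl | hodd
  · refine ⟨1 - v * r, ?_⟩
    rw [sub_eq_add_neg, hr, neg_sq, hv]
    push_cast
    ring
  · refine ⟨- (v * r), ?_⟩
    rw [sub_eq_add_neg, hr, hodd.neg_pow, hv]
    ring

theorem endgame_idem {l : ℕ} (hl : l.Prime)
    (hsep : ∀ x : B, (∀ j : ℕ, ∃ y, x = (l : B) ^ j * y) → x = 0)
    {v : B} (hv : v ^ l = 1) {f e : B} (hf : f * f = f) (he : e * e = e)
    (h : ∃ y, f - e = (1 - v) * y) : f = e := by
  obtain ⟨y, hy⟩ := h
  obtain ⟨z, hz⟩ := endgame_pow_dvd hl hv
  have hd3 : (f - e) ^ 3 = f - e := by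
    linear_combination (f + 1 - 3 * e) * hf + (3 * f - e - 1) * he
  have hdN : ∀ N, (f - e) ^ (2 * N + 1) = f - e := by
    intro N
    induction N with
    | zero => simp
    | succ N ih =>
      have : (f - e) ^ (2 * (N + 1) + 1) = (f - e) ^ (2 * N + 1) * (f - e) ^ 2 := by
        rw [← pow_add]; congr 1
      rw [this, ih]
      linear_combination hd3
  have hd : f - e = 0 := by
    apply hsep
    intro j
    refine ⟨(z * y ^ l) ^ j * (f - e) ^ (l * j + 1), ?_⟩
    have h1 : (f - e) ^ l = l * (z * y ^ l) := by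
      rw [hy, mul_pow, hz]; ring
    have h2 : (l : B) ^ j * ((z * y ^ l) ^ j * (f - e) ^ (l * j + 1)) =
        (l * (z * y ^ l)) ^ j * (f - e) ^ (l * j + 1) := by
      rw [mul_pow (l : B)]; ring
    rw [h2, ← h1, ← pow_mul, ← pow_add]
    have h3 : l * j + (l * j + 1) = 2 * (l * j) + 1 := by ring
    rw [h3, hdN]
  exact sub_eq_zero.mp hd

theorem endgame_prod_lin (c : ℕ → B) (s : ℕ) :
    (∀ j, s < j → PowerSeries.coeff j
      (∏ i ∈ range s, (1 + PowerSeries.C (c i) * PowerSeries.X : PowerSeries B)) = 0) ∧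
    PowerSeries.coeff s
      (∏ i ∈ range s, (1 + PowerSeries.C (c i) * PowerSeries.X : PowerSeries B)) =
        ∏ i ∈ range s, c i := by
  induction s with
  | zero =>
    refine ⟨fun j hj => ?_, ?_⟩
    · rw [prod_range_zero, PowerSeries.coeff_one, if_neg (by omega)]
    · simp
  | succ s ih =>
    set Q := ∏ i ∈ range s, (1 + PowerSeries.C (c i) * PowerSeries.X : PowerSeries B) with hQ
    have h1 : ∀ j, PowerSeries.coeff (j + 1)
        (∏ i ∈ range (s + 1), (1 + PowerSeries.C (c i) * PowerSeries.X : PowerSeries B)) =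
        PowerSeries.coeff (j + 1) Q + c s * PowerSeries.coeff j Q := by
      intro j
      rw [prod_range_succ, ← hQ]
      have : Q * (1 + PowerSeries.C (c s) * PowerSeries.X) =
          Q + (PowerSeries.C (c s) * Q) * PowerSeries.X := by ring
      rw [this, map_add, PowerSeries.coeff_succ_mul_X, PowerSeries.coeff_C_mul]
    refine ⟨fun j hj => ?_, ?_⟩
    · obtain ⟨j', rfl⟩ : ∃ j', j = j' + 1 := ⟨j - 1, by omega⟩
      rw [h1, ih.1 _ (by omega), ih.1 _ (by omega)]
      simp
    · rw [h1, ih.1 _ (by omega), ih.2, prod_range_succ]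
      ring

theorem endgame_pow_T {k : ℕ} (hk : 0 < k) {w : B} (h : endgame_G k w) :
    w ^ (∑ i ∈ range k, i) = (-1) ^ (k - 1) := by
  have hT := Finset.sum_range_id_mul_two k
  rcases Nat.even_or_odd' k with ⟨s, hs | hs⟩
  · have hs0 : 0 < s := by omega
    have hws : w ^ s = -1 := by
      have : (1 - w ^ s) * (1 + w ^ s) = 0 := by
        have h1 : w ^ s * w ^ s = 1 := by
          rw [← pow_add, ← two_mul, ← hs]; exact h.1
        linear_combination (-1) * h1
      have h2 := h.2 s (fun hd => by have := Nat.le_of_dvd hs0 hd; omega) _ this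
      linear_combination h2
    have hT2 : ∑ i ∈ range k, i = s * (k - 1) := by
      have : (∑ i ∈ range k, i) * 2 = (s * (k - 1)) * 2 := by
        rw [hT]; nth_rewrite 1 [hs]; ring
      omega
    rw [hT2, pow_mul, hws]
  · have hT2 : ∑ i ∈ range k, i = k * s := by
      have : (∑ i ∈ range k, i) * 2 = (k * s) * 2 := by
        rw [hT]
        have : k - 1 = s * 2 := by omega
        rw [this]; ring
      omega
    have hk1 : k - 1 = 2 * s := by omega
    rw [hT2, pow_mul, h.1, one_pow, hk1, pow_mul]
    simp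

theorem endgame_c_lin {k : ℕ} (hk : 0 < k) {w : B} (h : endgame_G k w) {e : B}
    (he : e * e = e) :
    endgame_c w k (1 + PowerSeries.C e * PowerSeries.X) = (-1) ^ (k - 1) * e := by
  have hres : ∀ i, PowerSeries.rescale (w ^ i) (1 + PowerSeries.C e * PowerSeries.X) =
      1 + PowerSeries.C (e * w ^ i) * PowerSeries.X := by
    intro i
    rw [map_add, map_one, map_mul, PowerSeries.rescale_X, map_mul]
    have hC : PowerSeries.rescale (w ^ i) (PowerSeries.C e) = PowerSeries.C e := by
      ext j
      rw [PowerSeries.coeff_rescale, PowerSeries.coeff_C]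
      split_ifs with hj
      · subst hj; simp
      · simp
    rw [hC]
    ring
  unfold endgame_c endgame_P
  simp only [hres]
  rw [(endgame_prod_lin (fun i => e * w ^ i) k).2, prod_mul_distrib, prod_const, card_range,
    prod_pow_eq_pow_sum, endgame_pow_T hk h]
  have hek : e ^ k = e := by
    obtain ⟨k', rfl⟩ : ∃ k', k = k' + 1 := ⟨k - 1, by omega⟩
    exact IsIdempotentElem.pow_succ_eq k' he
  rw [hek]; ring

theorem endgame_vanish {p k : ℕ} (hk : 0 < k) (hpk : ¬ p ∣ k) {w : B} (hw : w ^ k = 1)
    {q : PowerSeries B} (hq0 : PowerSeries.constantCoeff q = 1)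
    (hq : ∀ m, 0 < m → m < k → ¬ p ∣ m → PowerSeries.coeff m q = 0) (s : ℕ) :
    (∀ m, 0 < m → m < k → ¬ p ∣ m → PowerSeries.coeff m (endgame_P w s q) = 0) ∧
      PowerSeries.coeff k (endgame_P w s q) = s * PowerSeries.coeff k q := by
  induction s with
  | zero =>
    unfold endgame_P
    refine ⟨fun m hm _ _ => ?_, ?_⟩
    · rw [prod_range_zero, PowerSeries.coeff_one, if_neg (by omega)]
    · rw [prod_range_zero, PowerSeries.coeff_one, if_neg (by omega)]
      simp
  | succ s ih =>
    have hc0 : PowerSeries.coeff 0 (endgame_P w s q) = 1 := by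
      rw [PowerSeries.coeff_zero_eq_constantCoeff_apply, endgame_P_const hq0]
    have hq0' : PowerSeries.coeff 0 q = 1 := by
      rw [PowerSeries.coeff_zero_eq_constantCoeff_apply, hq0]
    have hstep : endgame_P w (s + 1) q = endgame_P w s q * PowerSeries.rescale (w ^ s) q := by
      unfold endgame_P
      rw [prod_range_succ]
    have hmain : ∀ m, 0 < m → m ≤ k → ¬ p ∣ m →
        PowerSeries.coeff m (endgame_P w (s + 1) q) =
          (w ^ s) ^ m * PowerSeries.coeff m q + PowerSeries.coeff m (endgame_P w s q) := by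
      intro m hm hmk hpm
      rw [hstep, PowerSeries.coeff_mul, endgame_sum hm]
      · simp only [PowerSeries.coeff_rescale, hc0, hq0']
        ring
      · intro i j hi hj hij
        simp only [PowerSeries.coeff_rescale]
        by_cases hpi : p ∣ i
        · have hpj : ¬ p ∣ j := fun hd => hpm (hij ▸ dvd_add hpi hd)
          rw [hq j hj (by omega) hpj]
          ring
        · rw [ih.1 i hi (by omega) hpi]
          ring
    refine ⟨fun m hm hmk hpm => ?_, ?_⟩
    · rw [hmain m hm hmk.le hpm, hq m hm hmk hpm, ih.1 m hm hmk hpm]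
      ring
    · rw [hmain k hk le_rfl hpk, ih.2, ← pow_mul, mul_comm s k, pow_mul, hw, one_pow]
      push_cast
      ring

noncomputable def endgame_pr (p r : ℕ) (f : PowerSeries B) : PowerSeries B :=
  PowerSeries.mk fun i => if i % p = r % p then PowerSeries.coeff i f else 0

theorem endgame_pr_mul (p r : ℕ) (f q : PowerSeries B)
    (hq : ∀ i, ¬ p ∣ i → PowerSeries.coeff i q = 0) :
    endgame_pr p r (f * q) = endgame_pr p r f * q := by
  ext i
  unfold endgame_pr
  rw [PowerSeries.coeff_mk, PowerSeries.coeff_mul, PowerSeries.coeff_mul]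
  simp only [PowerSeries.coeff_mk]
  split_ifs with hi
  · apply Finset.sum_congr rfl
    rintro ⟨s, t⟩ hst
    rw [Finset.HasAntidiagonal.mem_antidiagonal] at hst
    simp only at hst ⊢
    by_cases ht : p ∣ t
    · obtain ⟨t', rfl⟩ := ht
      rw [if_pos]
      rw [← hi, ← hst, Nat.add_mul_mod_self_left]
    · rw [hq t ht]; simp
  · symm
    apply Finset.sum_eq_zero
    rintro ⟨s, t⟩ hst
    rw [Finset.HasAntidiagonal.mem_antidiagonal] at hst
    simp only at hst ⊢
    by_cases ht : p ∣ t
    · obtain ⟨t', rfl⟩ := ht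
      rw [if_neg, zero_mul]
      intro h
      apply hi
      rw [← hst, Nat.add_mul_mod_self_left, h]
    · rw [hq t ht]; simp

/-- the final comparison of coefficients -/
theorem endgame_final (p n : ℕ) (hp : p.Prime) (a b q : PowerSeries B) (e : B)
    (hab : a = b * (1 + PowerSeries.C e * PowerSeries.X) * q)
    (hq : ∀ i, i ≤ 2 * n + 1 → ¬ p ∣ i → PowerSeries.coeff i q = 0)
    (an : ∀ i, n < i → PowerSeries.coeff i a = 0) (bn : ∀ i, n < i → PowerSeries.coeff i b = 0) :
    PowerSeries.coeff n a * (e * PowerSeries.coeff n b) = 0 := by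
  set b' : PowerSeries B := b * (1 + PowerSeries.C e * PowerSeries.X) with hb'
  have hb'c : ∀ i, PowerSeries.coeff (i + 1) b' =
      PowerSeries.coeff (i + 1) b + e * PowerSeries.coeff i b := by
    intro i
    have : b' = b + (PowerSeries.C e * b) * PowerSeries.X := by rw [hb']; ring
    rw [this, map_add, PowerSeries.coeff_succ_mul_X, PowerSeries.coeff_C_mul]
  have hb'0 : ∀ i, n + 1 < i → PowerSeries.coeff i b' = 0 := by
    intro i hi
    obtain ⟨j, rfl⟩ : ∃ j, i = j + 1 := ⟨i - 1, by omega⟩
    rw [hb'c, bn _ (by omega), bn _ (by omega)]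
    simp
  have hb'n : PowerSeries.coeff (n + 1) b' = e * PowerSeries.coeff n b := by
    rw [hb'c, bn _ (by omega), zero_add]
  set q' : PowerSeries B := PowerSeries.mk fun i => if p ∣ i then PowerSeries.coeff i q else 0
    with hq'
  have hq'0 : ∀ i, ¬ p ∣ i → PowerSeries.coeff i q' = 0 := by
    intro i hi
    rw [hq', PowerSeries.coeff_mk, if_neg hi]
  have hq'q : ∀ i, i ≤ 2 * n + 1 → PowerSeries.coeff i q' = PowerSeries.coeff i q := by
    intro i hi
    rw [hq', PowerSeries.coeff_mk]
    split_ifs with h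
    · rfl
    · exact (hq i hi h).symm
  set a' : PowerSeries B := b' * q' with ha'
  have ha'a : ∀ i, i ≤ 2 * n + 1 → PowerSeries.coeff i a' = PowerSeries.coeff i a := by
    intro i hi
    rw [ha', hab, PowerSeries.coeff_mul, PowerSeries.coeff_mul]
    apply Finset.sum_congr rfl
    rintro ⟨s, t⟩ hst
    rw [Finset.HasAntidiagonal.mem_antidiagonal] at hst
    simp only at hst ⊢
    rw [hq'q t (by omega)]
  have hkey : endgame_pr p n a' * endgame_pr p (n + 1) b' =
      endgame_pr p n b' * endgame_pr p (n + 1) a' := by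
    rw [ha', endgame_pr_mul p n b' q' hq'0, endgame_pr_mul p (n + 1) b' q' hq'0]
    ring
  have hk2 := congrArg (PowerSeries.coeff (2 * n + 1)) hkey
  rw [PowerSeries.coeff_mul, PowerSeries.coeff_mul] at hk2
  have hprc : ∀ r f i, PowerSeries.coeff i (endgame_pr p r f : PowerSeries B) =
      if i % p = r % p then PowerSeries.coeff i f else 0 := by
    intro r f i
    unfold endgame_pr
    rw [PowerSeries.coeff_mk]
  simp only [hprc] at hk2
  have hR : ∑ x ∈ antidiagonal (2 * n + 1),
      (if x.1 % p = n % p then PowerSeries.coeff x.1 b' else 0) *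
        (if x.2 % p = (n + 1) % p then PowerSeries.coeff x.2 a' else 0) = 0 := by
    apply Finset.sum_eq_zero
    rintro ⟨s, t⟩ hst
    rw [Finset.HasAntidiagonal.mem_antidiagonal] at hst
    simp only at hst ⊢
    by_cases ht : t % p = (n + 1) % p
    · rcases lt_or_ge n t with h | h
      · rw [ha'a t (by omega), an t h]; simp
      · have htn : t ≠ n := by
          rintro rfl
          have h1 : t ≡ t + 1 [MOD p] := ht
          have h2 : (t + 0) ≡ t + 1 [MOD p] := by simpa using h1
          have h3 := Nat.ModEq.add_left_cancel' t h2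
          have h4 : p ∣ 1 := (Nat.modEq_zero_iff_dvd).mp h3.symm
          exact hp.one_lt.ne' (Nat.dvd_one.mp h4)
        rw [hb'0 s (by omega)]; simp
    · rw [if_neg ht, mul_zero]
  have hL : ∑ x ∈ antidiagonal (2 * n + 1),
      (if x.1 % p = n % p then PowerSeries.coeff x.1 a' else 0) *
        (if x.2 % p = (n + 1) % p then PowerSeries.coeff x.2 b' else 0) =
      PowerSeries.coeff n a * (e * PowerSeries.coeff n b) := by
    rw [Finset.sum_eq_single (n, n + 1)]
    · simp only [if_true]
      rw [ha'a n (by omega), hb'n]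
    · rintro ⟨s, t⟩ hst hne
      rw [Finset.HasAntidiagonal.mem_antidiagonal] at hst
      simp only at hst ⊢
      rcases lt_or_ge n s with h | h
      · rw [ha'a s (by omega), an s h]; simp
      · have : n + 1 < t := by
          rcases lt_or_ge (n + 1) t with h1 | h1
          · exact h1
          · exfalso
            apply hne
            ext
            · simp; omega
            · simp; omega
        rw [hb'0 t this]; simp
    · intro h
      exfalso
      apply h
      rw [Finset.HasAntidiagonal.mem_antidiagonal]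
      simp only
      omega
  rw [hL, hR] at hk2
  exact hk2

theorem endgame_exists_quot (a b : PowerSeries B) (a0 : PowerSeries.constantCoeff a = 1)
    (b0 : PowerSeries.constantCoeff b = 1) :
    ∃ q : PowerSeries B, a = b * q ∧ PowerSeries.constantCoeff q = 1 := by
  refine ⟨PowerSeries.invOfUnit b 1 * a, ?_, ?_⟩
  · rw [← mul_assoc, PowerSeries.mul_invOfUnit b 1 (by rw [b0]; simp), one_mul]
  · rw [map_mul, a0, PowerSeries.constantCoeff_invOfUnit]
    simp

end endgame_helpers

theorem endgame {B : Type*} [CommRing B] (p n L : ℕ) (hp : p.Prime) (u : B)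
    (huL : u ^ L = 1) (hL : 0 < L)
    (hu : ∀ a : ℕ, ¬ L ∣ a → ∀ x : B, (1 - u ^ a) * x = 0 → x = 0)
    (htf : ∀ m : ℕ, m ≠ 0 → ∀ x : B, (m : B) * x = 0 → x = 0)
    (hsep : ∀ l : ℕ, l.Prime → ∀ x : B, (∀ j : ℕ, ∃ y, x = (l : B) ^ j * y) → x = 0)
    (hdvd : ∀ k, 1 ≤ k → k ≤ 2 * n + 1 → ¬ p ∣ k → k ∣ L)
    (a b : PowerSeries B) (a0 : PowerSeries.constantCoeff a = 1)
    (b0 : PowerSeries.constantCoeff b = 1)
    (an : ∀ i, n < i → PowerSeries.coeff i a = 0) (bn : ∀ i, n < i → PowerSeries.coeff i b = 0)
    (ua : IsUnit (PowerSeries.coeff n a)) (ub : IsUnit (PowerSeries.coeff n b))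
    (he : (PowerSeries.coeff 1 a - PowerSeries.coeff 1 b) *
      (PowerSeries.coeff 1 a - PowerSeries.coeff 1 b) =
      PowerSeries.coeff 1 a - PowerSeries.coeff 1 b)
    (hf : ∀ k, 1 ≤ k → k ≤ 2 * n + 1 → ¬ p ∣ k →
      (cyc u L k a - cyc u L k b) * (cyc u L k a - cyc u L k b) =
        (-1) ^ (k - 1) * (cyc u L k a - cyc u L k b)) :
    PowerSeries.coeff 1 a = PowerSeries.coeff 1 b := by
  set e : B := PowerSeries.coeff 1 a - PowerSeries.coeff 1 b with hedef
  -- the root of unity
  have hG : ∀ k, 0 < k → k ∣ L → endgame_G k (u ^ (L / k)) := by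
    intro k hk hkL
    refine ⟨by rw [← pow_mul, Nat.div_mul_cancel hkL, huL], fun m hm x hx => ?_⟩
    rw [← pow_mul] at hx
    apply hu _ _ x hx
    intro hd
    apply hm
    obtain ⟨c, rfl⟩ := hkL
    rw [Nat.mul_div_cancel_left _ hk, mul_comm k c] at hd
    exact (Nat.mul_dvd_mul_iff_left (by
      rcases Nat.eq_zero_or_pos c with h | h
      · subst h; simp at hL
      · exact h)).mp hd
  have hcyc : ∀ k g, cyc u L k g = endgame_c (u ^ (L / k)) k g := by
    intro k g
    unfold cyc endgame_c endgame_P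
    simp only [pow_mul]
  obtain ⟨q0, hq0, hq00⟩ := endgame_exists_quot a b a0 b0
  -- the idempotents `f k`
  set f : ℕ → B := fun k => (-1) ^ (k - 1) * endgame_c (u ^ (L / k)) k q0 with hfdef
  have hdiff : ∀ k, 1 ≤ k → k ∣ L → cyc u L k a - cyc u L k b = endgame_c (u ^ (L / k)) k q0 := by
    intro k hk hkL
    rw [hcyc, hcyc, hq0, endgame_c_mul hk (hG k hk hkL) b0 hq00]
    ring
  have hsq : ∀ k : ℕ, ((-1 : B) ^ k) * (-1) ^ k = 1 := by
    intro k
    rw [← mul_pow]; simp
  have hfid : ∀ k, 1 ≤ k → k ≤ 2 * n + 1 → ¬ p ∣ k → f k * f k = f k := by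
    intro k h1 h2 h3
    have h4 := hf k h1 h2 h3
    rw [hdiff k h1 (hdvd k h1 h2 h3)] at h4
    simp only [hfdef]
    have h5 := hsq (k - 1)
    linear_combination (endgame_c (u ^ (L / k)) k q0) * (endgame_c (u ^ (L / k)) k q0) * h5 + h4
  have hfe : ∀ k, 1 ≤ k → k ≤ 2 * n + 1 → ¬ p ∣ k → f k = e := by
    intro k
    induction k using Nat.strong_induction_on with
    | _ k ih =>
      intro h1 h2 h3
      rcases eq_or_lt_of_le h1 with hk1 | hk1
      · -- k = 1
        subst hk1
        have h4 := hdiff 1 le_rfl (one_dvd _)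
        simp only [hfdef]
        rw [← h4, hcyc, hcyc]
        unfold endgame_c endgame_P
        simp [hedef]
      · obtain ⟨l, hl, m, rfl⟩ := Nat.exists_prime_and_dvd (show k ≠ 1 by omega)
        have hm : 0 < m := by
          rcases Nat.eq_zero_or_pos m with h | h
          · subst h; simp at hk1
          · exact h
        have hlm : m < l * m := by nlinarith [hl.two_le]
        have hpm : ¬ p ∣ m := fun h => h3 (h.mul_left l)
        have hkL := hdvd _ h1 h2 h3
        have hmL : m ∣ L := (Dvd.intro_left l rfl).trans hkL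
        have hfm := ih m hlm hm (by omega) hpm
        have hGk := hG _ (by omega) hkL
        obtain ⟨y, hy⟩ := endgame_cong hl hm hGk q0
        have hw : (u ^ (L / (l * m))) ^ l = u ^ (L / m) := by
          obtain ⟨c, rfl⟩ := hkL
          rw [Nat.mul_div_cancel_left _ (by omega), ← pow_mul]
          congr 1
          rw [mul_assoc, mul_left_comm, Nat.mul_div_cancel_left _ hm, mul_comm]
        rw [hw] at hy
        set v := (u ^ (L / (l * m))) ^ m with hv
        have hvl : v ^ l = 1 := by
          rw [hv, ← pow_mul, mul_comm m l]; exact hGk.1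
        -- the sign
        have hgeom := endgame_geom hl hm hGk
        rw [← hv] at hgeom
        have hsign : ∃ z, (-1 : B) ^ (l - 1) - 1 = (1 - v) * z := by
          rcases hl.eq_two_or_odd' with rfl | hodd
          · refine ⟨-1, ?_⟩
            have h5 : (1 : B) + v = 0 := by
              have := hgeom
              simp [Finset.sum_range_succ] at this
              exact this
            norm_num
            linear_combination (-1) * h5
          · refine ⟨0, ?_⟩
            have : Even (l - 1) := by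
              obtain ⟨t, ht⟩ := hodd
              exact ⟨t, by omega⟩
            rw [this.neg_one_pow]; ring
        obtain ⟨z, hz⟩ := hsign
        have hcl : f m ^ l = (-1) ^ ((m - 1) * l) * (endgame_c (u ^ (L / m)) m q0) ^ l := by
          simp only [hfdef]
          rw [mul_pow, ← pow_mul]
        have hel : e ^ l = e := by
          obtain ⟨l', rfl⟩ : ∃ l', l = l' + 1 := ⟨l - 1, by have := hl.pos; omega⟩
          exact IsIdempotentElem.pow_succ_eq l' he
        have hexp : l * m - 1 = (m - 1) * l + (l - 1) := by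
          obtain ⟨m', rfl⟩ : ∃ m', m = m' + 1 := ⟨m - 1, by omega⟩
          obtain ⟨l', rfl⟩ : ∃ l', l = l' + 1 := ⟨l - 1, by have := hl.pos; omega⟩
          simp only [Nat.add_sub_cancel]
          ring_nf
          omega
        apply endgame_idem hl (hsep l hl) hvl (hfid _ h1 h2 h3) he
        rw [hfm, hel] at hcl
        refine ⟨(-1) ^ (l * m - 1) * y + (-1) ^ ((m - 1) * l) *
          (endgame_c (u ^ (L / m)) m q0) ^ l * z, ?_⟩
        have hfk : f (l * m) = (-1) ^ (l * m - 1) * endgame_c (u ^ (L / (l * m))) (l * m) q0 := rfl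
        rw [hfk]
        have hexp2 : (-1 : B) ^ (l * m - 1) = (-1) ^ ((m - 1) * l) * (-1) ^ (l - 1) := by
          rw [hexp, pow_add]
        rw [hexp2]
        linear_combination (-1) ^ ((m - 1) * l) * (-1) ^ (l - 1) * hy - hcl +
          (-1) ^ ((m - 1) * l) * (endgame_c (u ^ (L / m)) m q0) ^ l * hz
  -- the quotient `q`
  have hb1 : PowerSeries.constantCoeff (1 + PowerSeries.C e * PowerSeries.X : PowerSeries B) = 1 := by
    simp
  have hbb : PowerSeries.constantCoeff
      (b * (1 + PowerSeries.C e * PowerSeries.X) : PowerSeries B) = 1 := by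
    rw [map_mul, b0, hb1, one_mul]
  obtain ⟨q, hq, hqc⟩ := endgame_exists_quot a (b * (1 + PowerSeries.C e * PowerSeries.X)) a0 hbb
  have hcq : ∀ k, 1 ≤ k → k ≤ 2 * n + 1 → ¬ p ∣ k → endgame_c (u ^ (L / k)) k q = 0 := by
    intro k h1 h2 h3
    have hkL := hdvd k h1 h2 h3
    have hGk := hG k h1 hkL
    have e1 : endgame_c (u ^ (L / k)) k a = endgame_c (u ^ (L / k)) k b +
        (-1) ^ (k - 1) * e + endgame_c (u ^ (L / k)) k q := by
      conv_lhs => rw [hq]
      rw [endgame_c_mul h1 hGk hbb hqc, endgame_c_mul h1 hGk b0 hb1, endgame_c_lin h1 hGk he]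
    have e2 := hdiff k h1 hkL
    rw [hcyc, hcyc] at e2
    have e3 := hfe k h1 h2 h3
    simp only [hfdef] at e3
    have h5 := hsq (k - 1)
    rw [← e3] at e1
    linear_combination (-1) * e1 + e2 - endgame_c (u ^ (L / k)) k q0 * h5
  have hqv : ∀ k, 0 < k → k ≤ 2 * n + 1 → ¬ p ∣ k → PowerSeries.coeff k q = 0 := by
    intro k
    induction k using Nat.strong_induction_on with
    | _ k ih =>
      intro h1 h2 h3
      have hGk := hG k h1 (hdvd k h1 h2 h3)
      have h4 := (endgame_vanish h1 h3 hGk.1 hqc
        (fun m hm hmk hpm => ih m hmk hm (by omega) hpm) k).2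
      have h5 := hcq k h1 h2 h3
      unfold endgame_c at h5
      rw [h5] at h4
      exact htf k (by omega) _ h4.symm
  have hfin := endgame_final p n hp a b q e hq (fun i hi hpi => by
    rcases Nat.eq_zero_or_pos i with h | h
    · subst h; exact absurd (dvd_zero p) hpi
    · exact hqv i h hi hpi) an bn
  have he0 : e = 0 := by
    have h1 := (ua.mul_right_eq_zero).mp hfin
    exact (ub.mul_left_eq_zero).mp h1
  exact sub_eq_zero.mp he0

end Pool.Agent.Rep463.Rep463E
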