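import Mathlib
/-! Discrete Fourier transform: the rotation of `X^k` is conjugate to a diagonal operator. -/
namespace Pool.Agent.Rep463.Rep463F1

/-- the cyclic rotation of `Fin k → X`: `(rot x) i = x (i - 1)` (`finRotate k i = i + 1`) -/
def rot (R : Type*) [CommRing R] (X : Type*) [AddCommGroup X] [Module R X] (k : ℕ) :
    (Fin k → X) →ₗ[R] (Fin k → X) :=
  LinearMap.funLeft R X (finRotate k).symm

/-- `f` applied in every coordinate -/
def pw {R : Type*} [CommRing R] {X : Type*} [AddCommGroup X] [Module R X] (k : ℕ)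
    (f : X →ₗ[R] X) : (Fin k → X) →ₗ[R] (Fin k → X) :=
  LinearMap.pi (fun i => f ∘ₗ LinearMap.proj i)

/-- a matrix acting on columns of elements of `X` -/
def act {R : Type*} [CommRing R] {X : Type*} [AddCommGroup X] [Module R X] {k : ℕ}
    (A : Matrix (Fin k) (Fin k) R) : (Fin k → X) →ₗ[R] (Fin k → X) where
  toFun x := fun i => ∑ j, A i j • x j
  map_add' x y := by
    funext i
    simp [smul_add, Finset.sum_add_distrib]
  map_smul' c x := by
    funext i
    simp only [Pi.smul_apply, RingHom.id_apply, Finset.smul_sum]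
    exact Finset.sum_congr rfl fun j _ => smul_comm _ _ _

theorem act_apply {R : Type*} [CommRing R] {X : Type*} [AddCommGroup X] [Module R X] {k : ℕ}
    (A : Matrix (Fin k) (Fin k) R) (x : Fin k → X) (i : Fin k) :
    act A x i = ∑ j, A i j • x j := rfl

theorem act_mul {R : Type*} [CommRing R] {X : Type*} [AddCommGroup X] [Module R X] {k : ℕ}
    (A B : Matrix (Fin k) (Fin k) R) (x : Fin k → X) :
    act (A * B) x = act A (act B x) := by
  funext i
  simp only [act_apply, Matrix.mul_apply, Finset.sum_smul, Finset.smul_sum, mul_smul]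
  rw [Finset.sum_comm]

theorem act_one {R : Type*} [CommRing R] {X : Type*} [AddCommGroup X] [Module R X] {k : ℕ}
    (x : Fin k → X) :
    act (1 : Matrix (Fin k) (Fin k) R) x = x := by
  funext i
  simp [act_apply, Matrix.one_apply]

theorem exists_dft {R : Type*} [CommRing R] {X : Type*} [AddCommGroup X] [Module R X] (k : ℕ)
    (hk : 0 < k) (w : R) (hw : w ^ k = 1) (hu : ∀ a : ℕ, ¬ k ∣ a → IsUnit (1 - w ^ a)) :
    ∃ e : (Fin k → X) ≃ₗ[R] (Fin k → X),
      (∀ (f : X →ₗ[R] X) (x : Fin k → X), e (pw k f x) = pw k f (e x)) ∧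
      (∀ (x : Fin k → X) (i : Fin k), e (rot R X k x) i = w ^ (i : ℕ) • e x i) := by
  obtain ⟨k, rfl⟩ : ∃ k', k = k' + 1 := ⟨k - 1, by omega⟩
  have hwu : IsUnit w := IsUnit.of_pow_eq_one hw (by omega)
  let F : Matrix (Fin (k+1)) (Fin (k+1)) R := Matrix.vandermonde (fun i => w ^ (i : ℕ))
  have hF : ∀ i j, F i j = w ^ ((i : ℕ) * (j : ℕ)) := by
    intro i j
    simp [F, Matrix.vandermonde_apply, ← pow_mul]
  have hdet : IsUnit F.det := by
    rw [Matrix.det_vandermonde]
    apply IsUnit.prod_iff.2
    intro i _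
    apply IsUnit.prod_iff.2
    intro j hj
    have hij : i < j := by simpa using hj
    have hij' : (i : ℕ) < j := hij
    have h1 : w ^ (j : ℕ) - w ^ (i : ℕ) = - (w ^ (i : ℕ) * (1 - w ^ ((j : ℕ) - i))) := by
      have : w ^ (j : ℕ) = w ^ (i : ℕ) * w ^ ((j : ℕ) - i) := by
        rw [← pow_add]; congr 1; omega
      rw [this]; ring
    rw [h1]
    refine ((hwu.pow _).mul (hu _ ?_)).neg
    intro hd
    have := Nat.le_of_dvd (by omega) hd
    have := j.2
    omega
  have hFi : F * F⁻¹ = 1 := Matrix.mul_nonsing_inv _ hdet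
  have hiF : F⁻¹ * F = 1 := Matrix.nonsing_inv_mul _ hdet
  refine ⟨{ act F with
      invFun := act F⁻¹
      left_inv := fun x => by
        show act F⁻¹ (act F x) = x
        rw [← act_mul, hiF, act_one]
      right_inv := fun x => by
        show act F (act F⁻¹ x) = x
        rw [← act_mul, hFi, act_one] }, ?_, ?_⟩
  · intro f x
    show act F (pw (k+1) f x) = pw (k+1) f (act F x)
    funext i
    simp [act_apply, pw, map_sum]
  · intro x i
    show act F (rot R X (k+1) x) i = w ^ (i : ℕ) • act F x i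
    rw [act_apply, act_apply, Finset.smul_sum]
    rw [← Equiv.sum_comp (finRotate (k+1))]
    refine Finset.sum_congr rfl fun j _ => ?_
    have h2 : rot R X (k+1) x (finRotate (k+1) j) = x j := by
      simp [rot, LinearMap.funLeft_apply]
    rw [h2, hF, hF, smul_smul]
    congr 1
    rw [← pow_add]
    by_cases hj : j = Fin.last k
    · subst hj
      rw [finRotate_last]
      have : (i : ℕ) + (i : ℕ) * ((Fin.last k : Fin (k+1)) : ℕ) = (k+1) * i := by
        simp; ring
      rw [this, pow_mul w (k+1), hw]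
      simp
    · have : ((finRotate (k+1) j : Fin (k+1)) : ℕ) = (j : ℕ) + 1 := by
        rw [coe_finRotate_of_ne_last hj]
      rw [this]
      congr 1
      ring

end Pool.Agent.Rep463.Rep463F1
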