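import Mathlib
/-! Exterior powers of a product, naturally in endomorphisms. -/
namespace Pool.Agent.Rep463.Rep463P
open scoped TensorProduct

section clifford
variable {R : Type*} [CommRing R] {X Y : Type*} [AddCommGroup X] [Module R X]
    [AddCommGroup Y] [Module R Y]

open CliffordAlgebra in
theorem cl_bij (Q₁ : QuadraticForm R X) (Q₂ : QuadraticForm R Y) (Q : QuadraticForm R (X × Y))
    (hQ : Q = Q₁.prod Q₂)
    (f₁ : CliffordAlgebra Q₁ →ₐ[R] CliffordAlgebra Q) (f₂ : CliffordAlgebra Q₂ →ₐ[R] CliffordAlgebra Q)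
    (h₁ : ∀ x, f₁ (ι Q₁ x) = ι Q (x, 0)) (h₂ : ∀ y, f₂ (ι Q₂ y) = ι Q (0, y)) :
    Function.Bijective (LinearMap.mul' R (CliffordAlgebra Q) ∘ₗ
      TensorProduct.map f₁.toLinearMap f₂.toLinearMap) := by
  subst hQ
  have e₁ : f₁ = CliffordAlgebra.map (QuadraticMap.Isometry.inl Q₁ Q₂) := by
    ext x
    simp [h₁]
  have e₂ : f₂ = CliffordAlgebra.map (QuadraticMap.Isometry.inr Q₁ Q₂) := by
    ext x
    simp [h₂]
  subst e₁ e₂
  exact (prodEquiv Q₁ Q₂).symm.bijective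

end clifford

variable {R : Type*} [CommRing R] {X Y : Type*} [AddCommGroup X] [Module R X]
    [AddCommGroup Y] [Module R Y]

variable (R X Y) in
/-- the product map -/
noncomputable def Psi : ExteriorAlgebra R X ⊗[R] ExteriorAlgebra R Y →ₗ[R]
    ExteriorAlgebra R (X × Y) :=
  LinearMap.mul' R _ ∘ₗ TensorProduct.map
    (ExteriorAlgebra.map (LinearMap.inl R X Y)).toLinearMap
    (ExteriorAlgebra.map (LinearMap.inr R X Y)).toLinearMap

theorem Psi_tmul (x : ExteriorAlgebra R X) (y : ExteriorAlgebra R Y) :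
    Psi R X Y (x ⊗ₜ y) = ExteriorAlgebra.map (LinearMap.inl R X Y) x *
      ExteriorAlgebra.map (LinearMap.inr R X Y) y := rfl

theorem Psi_bij : Function.Bijective (Psi R X Y) := by
  refine cl_bij (0 : QuadraticForm R X) (0 : QuadraticForm R Y) 0 ?_ 
    (ExteriorAlgebra.map (LinearMap.inl R X Y)) (ExteriorAlgebra.map (LinearMap.inr R X Y)) ?_ ?_
  · ext x
    simp
  · intro x
    exact ExteriorAlgebra.map_apply_ι _ _
  · intro x
    exact ExteriorAlgebra.map_apply_ι _ _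

theorem coe_map {M N : Type*} [AddCommGroup M] [Module R M] [AddCommGroup N] [Module R N]
    (n : ℕ) (f : M →ₗ[R] N) (x : ⋀[R]^n M) :
    ((exteriorPower.map n f x : ⋀[R]^n N) : ExteriorAlgebra R N) =
      ExteriorAlgebra.map f (x : ExteriorAlgebra R M) := by
  have h : (⋀[R]^n N).subtype ∘ₗ exteriorPower.map n f =
      (ExteriorAlgebra.map f).toLinearMap ∘ₗ (⋀[R]^n M).subtype := by
    apply exteriorPower.linearMap_ext
    ext m
    simp [ExteriorAlgebra.map_apply_ιMulti]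
  exact congrArg (fun g => g x) h

theorem map_mem {M N : Type*} [AddCommGroup M] [Module R M] [AddCommGroup N] [Module R N]
    (n : ℕ) (f : M →ₗ[R] N) (x : ExteriorAlgebra R M) (hx : x ∈ ⋀[R]^n M) :
    ExteriorAlgebra.map f x ∈ ⋀[R]^n N := by
  rw [← coe_map n f ⟨x, hx⟩]
  exact Submodule.coe_mem _

variable (R X Y) in
/-- the components -/
noncomputable def phi (i j : ℕ) : ((⋀[R]^i X) ⊗[R] (⋀[R]^j Y)) →ₗ[R] ExteriorAlgebra R (X × Y) :=
  Psi R X Y ∘ₗ TensorProduct.map (⋀[R]^i X).subtype (⋀[R]^j Y).subtype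

theorem phi_tmul (i j : ℕ) (x : ⋀[R]^i X) (y : ⋀[R]^j Y) :
    phi R X Y i j (x ⊗ₜ y) = ExteriorAlgebra.map (LinearMap.inl R X Y) (x : ExteriorAlgebra R X) *
      ExteriorAlgebra.map (LinearMap.inr R X Y) (y : ExteriorAlgebra R Y) := rfl

theorem phi_mem (i j : ℕ) (z : (⋀[R]^i X) ⊗[R] (⋀[R]^j Y)) :
    phi R X Y i j z ∈ ⋀[R]^(i + j) (X × Y) := by
  induction z using TensorProduct.induction_on with
  | zero => rw [map_zero]; exact Submodule.zero_mem _
  | tmul x y =>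
    rw [phi_tmul]
    exact SetLike.mul_mem_graded (map_mem i _ _ x.2) (map_mem j _ _ y.2)
  | add a b ha hb => rw [map_add]; exact Submodule.add_mem _ ha hb

theorem phi_nat (i j : ℕ) (f : X →ₗ[R] X) (g : Y →ₗ[R] Y) (z : (⋀[R]^i X) ⊗[R] (⋀[R]^j Y)) :
    phi R X Y i j (TensorProduct.map (exteriorPower.map i f) (exteriorPower.map j g) z) =
      ExteriorAlgebra.map (f.prodMap g) (phi R X Y i j z) := by
  induction z using TensorProduct.induction_on with
  | zero => simp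
  | tmul x y =>
    rw [TensorProduct.map_tmul, phi_tmul, phi_tmul, coe_map, coe_map, map_mul]
    rw [← AlgHom.comp_apply, ← AlgHom.comp_apply, ← AlgHom.comp_apply, ← AlgHom.comp_apply,
      ExteriorAlgebra.map_comp_map, ExteriorAlgebra.map_comp_map, ExteriorAlgebra.map_comp_map,
      ExteriorAlgebra.map_comp_map]
    congr 3
    · ext x <;> simp
    · ext x <;> simp
  | add a b ha hb => simp only [map_add, ha, hb]

open DirectSum in
variable (R X Y) in
/-- decomposition of the tensor product -/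
noncomputable def dec : (⨁ ij : ℕ × ℕ, (⋀[R]^ij.1 X) ⊗[R] (⋀[R]^ij.2 Y)) ≃ₗ[R]
    ExteriorAlgebra R X ⊗[R] ExteriorAlgebra R Y :=
  (TensorProduct.directSum R R (fun i : ℕ => ⋀[R]^i X) (fun j : ℕ => ⋀[R]^j Y)).symm ≪≫ₗ
    TensorProduct.congr (DirectSum.decomposeLinearEquiv (fun i : ℕ => ⋀[R]^i X)).symm
      (DirectSum.decomposeLinearEquiv (fun i : ℕ => ⋀[R]^i Y)).symm

open DirectSum in
theorem dec_lof (i j : ℕ) (z : (⋀[R]^i X) ⊗[R] (⋀[R]^j Y)) :
    Psi R X Y (dec R X Y (DirectSum.lof R (ℕ × ℕ)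
      (fun ij : ℕ × ℕ => (⋀[R]^ij.1 X) ⊗[R] (⋀[R]^ij.2 Y)) (i, j) z)) = phi R X Y i j z := by
  induction z using TensorProduct.induction_on with
  | zero => simp
  | tmul x y =>
    rw [dec, LinearEquiv.trans_apply]
    have h := TensorProduct.directSum_symm_lof_tmul R R (M₁ := fun i : ℕ => ⋀[R]^i X)
      (M₂ := fun j : ℕ => ⋀[R]^j Y) i x j y
    rw [h, TensorProduct.congr_tmul, DirectSum.lof_eq_of, DirectSum.lof_eq_of]
    have e1 : (DirectSum.decomposeLinearEquiv (fun i : ℕ => ⋀[R]^i X)).symm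
        (DirectSum.of (fun i : ℕ => ⋀[R]^i X) i x) = (x : ExteriorAlgebra R X) :=
      DirectSum.decompose_symm_of (fun i : ℕ => ⋀[R]^i X) x
    have e2 : (DirectSum.decomposeLinearEquiv (fun i : ℕ => ⋀[R]^i Y)).symm
        (DirectSum.of (fun i : ℕ => ⋀[R]^i Y) j y) = (y : ExteriorAlgebra R Y) :=
      DirectSum.decompose_symm_of (fun i : ℕ => ⋀[R]^i Y) y
    rw [e1, e2]
    rfl
  | add a b ha hb => simp only [map_add, ha, hb]

variable (R X Y) in
/-- the sum of the components -/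
noncomputable def Phi (m : ℕ) :
    ((ij : Finset.HasAntidiagonal.antidiagonal m) → ((⋀[R]^ij.1.1 X) ⊗[R] (⋀[R]^ij.1.2 Y))) →ₗ[R]
      ⋀[R]^m (X × Y) :=
  LinearMap.codRestrict _
    (∑ ij : Finset.HasAntidiagonal.antidiagonal m, phi R X Y ij.1.1 ij.1.2 ∘ₗ LinearMap.proj ij) (by
      intro w
      rw [LinearMap.sum_apply]
      apply Submodule.sum_mem
      intro ij _
      have h := phi_mem ij.1.1 ij.1.2 (w ij)
      rw [Finset.HasAntidiagonal.mem_antidiagonal.1 ij.2] at h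
      exact h)

theorem Phi_coe (m : ℕ)
    (w : (ij : Finset.HasAntidiagonal.antidiagonal m) → ((⋀[R]^ij.1.1 X) ⊗[R] (⋀[R]^ij.1.2 Y))) :
    ((Phi R X Y m w : ⋀[R]^m (X × Y)) : ExteriorAlgebra R (X × Y)) =
      ∑ ij : Finset.HasAntidiagonal.antidiagonal m, phi R X Y ij.1.1 ij.1.2 (w ij) := by
  simp [Phi]


theorem Phi_inj (m : ℕ) : Function.Injective (Phi R X Y m) := by
  classical
  intro w w' hw
  have h1 := congrArg (fun z : ⋀[R]^m (X × Y) => (z : ExteriorAlgebra R (X × Y))) hw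
  simp only [Phi_coe] at h1
  have h2 : ∀ w : (ij : Finset.HasAntidiagonal.antidiagonal m) →
      ((⋀[R]^ij.1.1 X) ⊗[R] (⋀[R]^ij.1.2 Y)),
      Psi R X Y (dec R X Y (∑ ij : Finset.HasAntidiagonal.antidiagonal m,
      DirectSum.lof R (ℕ × ℕ) (fun ij : ℕ × ℕ => (⋀[R]^ij.1 X) ⊗[R] (⋀[R]^ij.2 Y)) ij.1 (w ij)))
      = ∑ ij : Finset.HasAntidiagonal.antidiagonal m, phi R X Y ij.1.1 ij.1.2 (w ij) := by
    intro w
    rw [map_sum, map_sum]
    exact Finset.sum_congr rfl (fun ij _ => dec_lof ij.1.1 ij.1.2 (w ij))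
  have h3 := Psi_bij.1 (((h2 w).trans h1).trans (h2 w').symm)
  have h4 := (dec R X Y).injective h3
  have h6 : ∀ (w : (ij : Finset.HasAntidiagonal.antidiagonal m) →
      ((⋀[R]^ij.1.1 X) ⊗[R] (⋀[R]^ij.1.2 Y))) (ij : Finset.HasAntidiagonal.antidiagonal m),
      DirectSum.component R (ℕ × ℕ) (fun ij : ℕ × ℕ => (⋀[R]^ij.1 X) ⊗[R] (⋀[R]^ij.2 Y)) ij.1
      (∑ ij : Finset.HasAntidiagonal.antidiagonal m,
      DirectSum.lof R (ℕ × ℕ) (fun ij : ℕ × ℕ => (⋀[R]^ij.1 X) ⊗[R] (⋀[R]^ij.2 Y)) ij.1 (w ij))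
      = w ij := by
    intro w ij
    rw [map_sum, Finset.sum_eq_single ij]
    · rw [DirectSum.component.lof_self]
    · intro ij' _ hne
      rw [DirectSum.component.of, dif_neg]
      intro hh
      exact hne (Subtype.ext hh)
    · intro hh
      exact absurd (Finset.mem_univ _) hh
  funext ij
  rw [← h6 w ij, ← h6 w' ij, h4]

theorem Phi_surj (m : ℕ) : Function.Surjective (Phi R X Y m) := by
  classical
  intro y
  obtain ⟨t, ht⟩ := Psi_bij.2 (y : ExteriorAlgebra R (X × Y))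
  obtain ⟨w, rfl⟩ := (dec R X Y).surjective t
  refine ⟨fun ij => w ij.1, ?_⟩
  apply Subtype.ext
  rw [Phi_coe]
  -- decomposition of `w`
  have h1 : w = ∑ ij ∈ DFinsupp.support w,
      DirectSum.lof R (ℕ × ℕ) (fun ij : ℕ × ℕ => (⋀[R]^ij.1 X) ⊗[R] (⋀[R]^ij.2 Y)) ij (w ij) :=
    (DirectSum.sum_support_of w).symm
  have h2 : (y : ExteriorAlgebra R (X × Y)) =
      ∑ ij ∈ DFinsupp.support w, phi R X Y ij.1 ij.2 (w ij) := by
    rw [← ht]
    conv_lhs => rw [h1]
    rw [map_sum, map_sum]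
    exact Finset.sum_congr rfl (fun ij _ => dec_lof ij.1 ij.2 (w ij))
  have h3 : (y : ExteriorAlgebra R (X × Y)) =
      ∑ ij ∈ DFinsupp.support w, if ij.1 + ij.2 = m then phi R X Y ij.1 ij.2 (w ij) else 0 := by
    have h4 := DirectSum.decompose_of_mem_same (fun i : ℕ => ⋀[R]^i (X × Y)) y.2
    rw [← h4]
    conv_lhs => rw [h2]
    rw [DirectSum.decompose_sum, DFinsupp.finsetSum_apply, AddSubmonoidClass.coe_finsetSum]
    apply Finset.sum_congr rfl
    intro ij _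
    have hm := phi_mem ij.1 ij.2 (w ij)
    split_ifs with h
    · rw [h] at hm
      exact DirectSum.decompose_of_mem_same (fun i : ℕ => ⋀[R]^i (X × Y)) hm
    · exact DirectSum.decompose_of_mem_ne (fun i : ℕ => ⋀[R]^i (X × Y)) hm h
  rw [h3, ← Finset.sum_filter]
  have h5 : ∑ ij : Finset.HasAntidiagonal.antidiagonal m, phi R X Y ij.1.1 ij.1.2 (w ij.1) =
      ∑ ij ∈ Finset.HasAntidiagonal.antidiagonal m, phi R X Y ij.1 ij.2 (w ij) :=
    Finset.sum_coe_sort (Finset.HasAntidiagonal.antidiagonal m)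
      (fun ij : ℕ × ℕ => phi R X Y ij.1 ij.2 (w ij))
  rw [h5]
  symm
  apply Finset.sum_subset
  · intro ij hij
    rw [Finset.mem_filter] at hij
    exact Finset.HasAntidiagonal.mem_antidiagonal.2 hij.2
  · intro ij h6 h7
    rw [Finset.mem_filter, not_and] at h7
    have h8 : w ij = 0 := by
      by_contra hne
      exact h7 (DFinsupp.mem_support_iff.2 hne) (Finset.HasAntidiagonal.mem_antidiagonal.1 h6)
    rw [h8, map_zero]

theorem exteriorPower_prod {R : Type*} [CommRing R] {X Y : Type*} [AddCommGroup X] [Module R X]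
    [AddCommGroup Y] [Module R Y] (m : ℕ) :
    ∃ e : (⋀[R]^m (X × Y)) ≃ₗ[R]
        ((ij : Finset.HasAntidiagonal.antidiagonal m) → ((⋀[R]^ij.1.1 X) ⊗[R] (⋀[R]^ij.1.2 Y))),
      ∀ (f : X →ₗ[R] X) (g : Y →ₗ[R] Y) (z : ⋀[R]^m (X × Y)) (ij : Finset.HasAntidiagonal.antidiagonal m),
        e (exteriorPower.map m (f.prodMap g) z) ij =
          TensorProduct.map (exteriorPower.map ij.1.1 f) (exteriorPower.map ij.1.2 g) (e z ij) := by
  refine ⟨(LinearEquiv.ofBijective (Phi R X Y m) ⟨Phi_inj m, Phi_surj m⟩).symm, ?_⟩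
  intro f g z ij
  set e := (LinearEquiv.ofBijective (Phi R X Y m) ⟨Phi_inj m, Phi_surj m⟩) with he
  have h1 : e.symm (exteriorPower.map m (f.prodMap g) z) =
      fun ij => TensorProduct.map (exteriorPower.map ij.1.1 f) (exteriorPower.map ij.1.2 g)
        (e.symm z ij) := by
    rw [LinearEquiv.symm_apply_eq]
    apply Subtype.ext
    rw [coe_map]
    have h2 : (z : ExteriorAlgebra R (X × Y)) =
        ((Phi R X Y m (e.symm z) : ⋀[R]^m (X × Y)) : ExteriorAlgebra R (X × Y)) := by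
      congr 1
      exact (e.apply_symm_apply z).symm
    rw [h2, Phi_coe, map_sum]
    have h3 : ∀ w, ((e w : ⋀[R]^m (X × Y)) : ExteriorAlgebra R (X × Y)) =
      ∑ ij : Finset.HasAntidiagonal.antidiagonal m, phi R X Y ij.1.1 ij.1.2 (w ij) := fun w =>
      Phi_coe m w
    rw [h3]
    apply Finset.sum_congr rfl
    intro ij _
    exact (phi_nat ij.1.1 ij.1.2 f g _).symm
  exact congrFun h1 ij

end Pool.Agent.Rep463.Rep463P
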