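import Mathlib

/-!
# The Grothendieck ring of a commutative semiring

`K0 N` is Mathlib's Grothendieck group of the additive monoid of a commutative semiring `N`,
with the multiplication induced by that of `N`.
-/

namespace Pool.Agent.Rep463

open Algebra

universe u v w

/-- The Grothendieck ring of the commutative semiring `N`: as an additive group it is Mathlib's
`Algebra.GrothendieckAddGroup N`. -/
def K0 (N : Type u) [CommSemiring N] : Type u := GrothendieckAddGroup N

namespace K0

variable {N : Type u} [CommSemiring N]

noncomputable instance : AddCommGroup (K0 N) :=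
  inferInstanceAs (AddCommGroup (GrothendieckAddGroup N))

/-- The class of an element of `N` in `K0 N`. -/
noncomputable def of : N →+ K0 N := GrothendieckAddGroup.of

theorem of_eq_of_iff {a b : N} : (of a : K0 N) = of b ↔ ∃ c, a + c = b + c := by
  show (GrothendieckAddGroup.of a : GrothendieckAddGroup N) = GrothendieckAddGroup.of b ↔ _
  simp only [GrothendieckAddGroup.of]
  have := (AddLocalization.addMonoidOf (⊤ : AddSubmonoid N)).eq_iff_exists (x := a) (y := b)
  refine this.trans ?_
  constructor
  · rintro ⟨c, hc⟩
    exact ⟨c, by rw [add_comm a, add_comm b]; exact hc⟩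
  · rintro ⟨c, hc⟩
    exact ⟨⟨c, trivial⟩, by simpa [add_comm] using hc⟩

theorem exists_of_sub (x : K0 N) : ∃ a b : N, x = of a - of b := by
  obtain ⟨⟨a, b⟩, h⟩ := (AddLocalization.addMonoidOf (⊤ : AddSubmonoid N)).surj x
  refine ⟨a, b, ?_⟩
  rw [eq_sub_iff_add_eq]
  exact h

/-- Lift of an additive map to an abelian group. -/
noncomputable def lift {G : Type w} [AddCommGroup G] (f : N →+ G) : K0 N →+ G :=
  GrothendieckAddGroup.lift f

@[simp] theorem lift_of {G : Type w} [AddCommGroup G] (f : N →+ G) (a : N) :
    lift f (of a) = f a := by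
  have := (GrothendieckAddGroup.lift (M := N) (G := G)).symm_apply_apply f
  exact DFunLike.congr_fun this a

theorem hom_ext {G : Type w} [AddCommGroup G] {f g : K0 N →+ G} (h : ∀ a, f (of a) = g (of a)) :
    f = g := by
  ext x
  obtain ⟨a, b, rfl⟩ := exists_of_sub x
  simp [h]

/-- The multiplication of `K0 N` as a biadditive map. -/
noncomputable def mulHom : K0 N →+ K0 N →+ K0 N :=
  lift ((AddMonoidHom.mk' (fun f : N →+ K0 N => lift f) (by
    intro f g; apply hom_ext; intro a; simp)).comp
      ((AddMonoidHom.compHom (of (N := N))).comp (AddMonoidHom.mul (R := N))))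

noncomputable instance : Mul (K0 N) := ⟨fun x y => mulHom x y⟩
noncomputable instance : One (K0 N) := ⟨of 1⟩

theorem mul_def (x y : K0 N) : x * y = mulHom x y := rfl

theorem of_mul (a b : N) : (of (a * b) : K0 N) = of a * of b := by
  rw [mul_def]; simp [mulHom]

theorem of_one : (of 1 : K0 N) = 1 := rfl

noncomputable instance instCommRing : CommRing (K0 N) where
  __ := (inferInstance : AddCommGroup (K0 N))
  mul := (· * ·)
  one := 1
  left_distrib a b c := by rw [mul_def, mul_def, mul_def, map_add]
  right_distrib a b c := by rw [mul_def, mul_def, mul_def, map_add]; rfl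
  zero_mul a := by rw [mul_def, map_zero]; rfl
  mul_zero a := by rw [mul_def, map_zero]
  mul_comm a b := by
    obtain ⟨a1, a2, rfl⟩ := exists_of_sub a
    obtain ⟨b1, b2, rfl⟩ := exists_of_sub b
    simp only [mul_def, map_sub, AddMonoidHom.sub_apply]
    simp only [← mul_def, ← of_mul]
    simp only [mul_comm]
    abel
  mul_assoc a b c := by
    obtain ⟨a1, a2, rfl⟩ := exists_of_sub a
    obtain ⟨b1, b2, rfl⟩ := exists_of_sub b
    obtain ⟨c1, c2, rfl⟩ := exists_of_sub c
    simp only [mul_def, map_sub, AddMonoidHom.sub_apply]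
    simp only [← mul_def, ← of_mul, mul_assoc]
  one_mul a := by
    obtain ⟨a1, a2, rfl⟩ := exists_of_sub a
    show mulHom (of 1) _ = _
    simp only [map_sub]
    simp only [← mul_def, ← of_mul, one_mul]
  mul_one a := by
    obtain ⟨a1, a2, rfl⟩ := exists_of_sub a
    show mulHom _ (of 1) = _
    simp only [map_sub, AddMonoidHom.sub_apply]
    simp only [← mul_def, ← of_mul, mul_one]
  zsmul := (inferInstance : AddCommGroup (K0 N)).zsmul
  zsmul_zero' := (inferInstance : AddCommGroup (K0 N)).zsmul_zero'
  zsmul_succ' := (inferInstance : AddCommGroup (K0 N)).zsmul_succ'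
  zsmul_neg' := (inferInstance : AddCommGroup (K0 N)).zsmul_neg'
  nsmul := (inferInstance : AddCommGroup (K0 N)).nsmul
  nsmul_zero := (inferInstance : AddCommGroup (K0 N)).nsmul_zero
  nsmul_succ := (inferInstance : AddCommGroup (K0 N)).nsmul_succ

/-- `of` as a semiring homomorphism. -/
noncomputable def ofHom : N →+* K0 N where
  toFun := of
  map_zero' := map_zero _
  map_add' := map_add _
  map_one' := rfl
  map_mul' := of_mul

@[simp] theorem ofHom_apply (a : N) : ofHom a = of a := rfl

/-- Functoriality of `K0` for semiring homomorphisms. -/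
noncomputable def map {N' : Type v} [CommSemiring N'] (f : N →+* N') : K0 N →+* K0 N' where
  toFun := lift ((of (N := N')).comp f.toAddMonoidHom)
  map_zero' := map_zero _
  map_add' := map_add _
  map_one' := by
    rw [← of_one, lift_of]; simp [of_one]
  map_mul' x y := by
    obtain ⟨a1, a2, rfl⟩ := exists_of_sub x
    obtain ⟨b1, b2, rfl⟩ := exists_of_sub y
    simp only [sub_mul, mul_sub, ← of_mul, map_sub, lift_of, AddMonoidHom.comp_apply,
      RingHom.toAddMonoidHom_eq_coe, AddMonoidHom.coe_coe, map_mul]

@[simp] theorem map_of {N' : Type v} [CommSemiring N'] (f : N →+* N') (a : N) :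
    map f (of a) = of (f a) := by
  show lift _ (of a) = _
  rw [lift_of]; rfl

end K0

end Pool.Agent.Rep463
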