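import Mathlib
import Pool.Agent.Rep463.K0

/-!
# Modules with a family of operators

For a commutative ring `S` and a type `Γ`, an `OpMod S Γ` is an `S`-module `V` together with a
family `op : Γ → End_S(V)`.  Isomorphism classes form a commutative semiring `OpClass S Γ` under
direct sum and tensor product (with operators acting diagonally).
-/

namespace Pool.Agent.Rep463

open scoped TensorProduct

universe u v

/-- An `S`-module with a family of `S`-linear endomorphisms indexed by `Γ`. -/
structure OpMod (S : Type u) [CommRing S] (Γ : Type v) where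
  /-- the underlying module -/
  carrier : Type u
  [acg : AddCommGroup carrier]
  [mod : Module S carrier]
  /-- the operators -/
  op : Γ → carrier →ₗ[S] carrier

namespace OpMod

variable {S : Type u} [CommRing S] {Γ : Type v}

instance : CoeSort (OpMod S Γ) (Type u) := ⟨carrier⟩

instance (X : OpMod S Γ) : AddCommGroup X := X.acg
instance (X : OpMod S Γ) : Module S X := X.mod

/-- Two modules with operators are isomorphic if there is a linear equivalence commuting with the
operators. -/
def Iso (X Y : OpMod S Γ) : Prop :=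
  ∃ e : X ≃ₗ[S] Y, ∀ (g : Γ) (x : X), e (X.op g x) = Y.op g (e x)

theorem Iso.refl (X : OpMod S Γ) : Iso X X := ⟨LinearEquiv.refl S X, fun _ _ => rfl⟩

theorem Iso.symm {X Y : OpMod S Γ} : Iso X Y → Iso Y X := by
  rintro ⟨e, he⟩
  refine ⟨e.symm, fun g y => ?_⟩
  apply e.injective
  rw [he, e.apply_symm_apply, e.apply_symm_apply]

theorem Iso.trans {X Y Z : OpMod S Γ} : Iso X Y → Iso Y Z → Iso X Z := by
  rintro ⟨e, he⟩ ⟨f, hf⟩
  refine ⟨e.trans f, fun g x => ?_⟩
  simp [he, hf]

variable (S Γ) in
/-- The isomorphism relation as a setoid. -/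
instance setoid : Setoid (OpMod S Γ) := ⟨Iso, Iso.refl, Iso.symm, Iso.trans⟩

/-- Direct sum. -/
@[reducible] def sum (X Y : OpMod S Γ) : OpMod S Γ where
  carrier := X × Y
  op g := (X.op g).prodMap (Y.op g)

/-- Tensor product over `S`, operators acting diagonally. -/
@[reducible] noncomputable def tensor (X Y : OpMod S Γ) : OpMod S Γ where
  carrier := X ⊗[S] Y
  op g := TensorProduct.map (X.op g) (Y.op g)

variable (S Γ) in
/-- The zero module. -/
@[reducible] def zero : OpMod S Γ where
  carrier := PUnit.{u+1}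
  op _ := 0

variable (S Γ) in
/-- The trivial module `S`, all operators being the identity. -/
@[reducible] def unit : OpMod S Γ where
  carrier := S
  op _ := LinearMap.id

theorem sum_congr {X X' Y Y' : OpMod S Γ} : Iso X X' → Iso Y Y' → Iso (X.sum Y) (X'.sum Y') := by
  rintro ⟨e, he⟩ ⟨f, hf⟩
  exact ⟨e.prodCongr f, fun g x => Prod.ext (he g x.1) (hf g x.2)⟩

theorem tensor_congr {X X' Y Y' : OpMod S Γ} :
    Iso X X' → Iso Y Y' → Iso (X.tensor Y) (X'.tensor Y') := by
  rintro ⟨e, he⟩ ⟨f, hf⟩
  refine ⟨TensorProduct.congr e f, fun g x => ?_⟩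
  have : (TensorProduct.congr e f).toLinearMap ∘ₗ TensorProduct.map (X.op g) (Y.op g) =
      TensorProduct.map (X'.op g) (Y'.op g) ∘ₗ (TensorProduct.congr e f).toLinearMap := by
    apply TensorProduct.ext'
    intro a b
    simp [he, hf]
  exact DFunLike.congr_fun this x

theorem sum_comm (X Y : OpMod S Γ) : Iso (X.sum Y) (Y.sum X) :=
  ⟨LinearEquiv.prodComm S X Y, fun _ _ => rfl⟩

theorem sum_assoc (X Y Z : OpMod S Γ) : Iso ((X.sum Y).sum Z) (X.sum (Y.sum Z)) :=
  ⟨LinearEquiv.prodAssoc S X Y Z, fun _ _ => rfl⟩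

theorem zero_sum (X : OpMod S Γ) : Iso ((zero S Γ).sum X) X :=
  ⟨{ toFun := fun x => x.2
     invFun := fun x => (PUnit.unit, x)
     map_add' := fun _ _ => rfl
     map_smul' := fun _ _ => rfl
     left_inv := fun _ => rfl
     right_inv := fun _ => rfl }, fun _ _ => rfl⟩

theorem tensor_comm (X Y : OpMod S Γ) : Iso (X.tensor Y) (Y.tensor X) := by
  refine ⟨TensorProduct.comm S X Y, fun g x => ?_⟩
  have : (TensorProduct.comm S X Y).toLinearMap ∘ₗ TensorProduct.map (X.op g) (Y.op g) =
      TensorProduct.map (Y.op g) (X.op g) ∘ₗ (TensorProduct.comm S X Y).toLinearMap := by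
    apply TensorProduct.ext'
    intro a b
    simp
  exact DFunLike.congr_fun this x

theorem tensor_assoc (X Y Z : OpMod S Γ) :
    Iso ((X.tensor Y).tensor Z) (X.tensor (Y.tensor Z)) := by
  refine ⟨TensorProduct.assoc S X Y Z, fun g x => ?_⟩
  have : (TensorProduct.assoc S X Y Z).toLinearMap ∘ₗ
      TensorProduct.map (TensorProduct.map (X.op g) (Y.op g)) (Z.op g) =
      TensorProduct.map (X.op g) (TensorProduct.map (Y.op g) (Z.op g)) ∘ₗ
        (TensorProduct.assoc S X Y Z).toLinearMap := by
    apply TensorProduct.ext_threefold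
    intro a b c
    simp
  exact DFunLike.congr_fun this x

theorem unit_tensor (X : OpMod S Γ) : Iso ((unit S Γ).tensor X) X := by
  refine ⟨TensorProduct.lid S X, fun g x => ?_⟩
  have : (TensorProduct.lid S X).toLinearMap ∘ₗ
      TensorProduct.map (LinearMap.id : S →ₗ[S] S) (X.op g) =
      X.op g ∘ₗ (TensorProduct.lid S X).toLinearMap := by
    apply TensorProduct.ext'
    intro a b
    simp
  exact DFunLike.congr_fun this x

theorem zero_tensor (X : OpMod S Γ) : Iso ((zero S Γ).tensor X) (zero S Γ) := by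
  have : Subsingleton ((zero S Γ).tensor X) := by
    show Subsingleton (PUnit.{u+1} ⊗[S] X)
    infer_instance
  have : Subsingleton (zero S Γ) := by
    show Subsingleton PUnit.{u+1}
    infer_instance
  exact ⟨{ toFun := 0, invFun := 0, map_add' := by simp, map_smul' := by simp,
            left_inv := fun _ => Subsingleton.elim _ _,
            right_inv := fun _ => Subsingleton.elim _ _ }, fun _ _ => Subsingleton.elim _ _⟩

theorem tensor_sum (X Y Z : OpMod S Γ) :
    Iso (X.tensor (Y.sum Z)) ((X.tensor Y).sum (X.tensor Z)) := by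
  refine ⟨TensorProduct.prodRight S S X Y Z, fun g x => ?_⟩
  have : (TensorProduct.prodRight S S X Y Z).toLinearMap ∘ₗ
      TensorProduct.map (X.op g) ((Y.op g).prodMap (Z.op g)) =
      (TensorProduct.map (X.op g) (Y.op g)).prodMap (TensorProduct.map (X.op g) (Z.op g)) ∘ₗ
        (TensorProduct.prodRight S S X Y Z).toLinearMap := by
    apply TensorProduct.ext'
    rintro a ⟨b, c⟩
    simp
  exact DFunLike.congr_fun this x

end OpMod

/-- Isomorphism classes of `S`-modules with operators indexed by `Γ`. -/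
def OpClass (S : Type u) [CommRing S] (Γ : Type v) : Type (max v (u + 1)) :=
  Quotient (OpMod.setoid S Γ)

namespace OpClass

variable {S : Type u} [CommRing S] {Γ : Type v}

/-- The isomorphism class of a module with operators. -/
def mk (X : OpMod S Γ) : OpClass S Γ := Quotient.mk _ X

theorem mk_eq_mk {X Y : OpMod S Γ} : mk X = mk Y ↔ OpMod.Iso X Y := Quotient.eq

theorem exists_mk (x : OpClass S Γ) : ∃ X : OpMod S Γ, mk X = x := Quotient.exists_rep x

instance : Add (OpClass S Γ) :=
  ⟨Quotient.map₂ OpMod.sum (fun _ _ h _ _ h' => OpMod.sum_congr h h')⟩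

noncomputable instance : Mul (OpClass S Γ) :=
  ⟨Quotient.map₂ OpMod.tensor (fun _ _ h _ _ h' => OpMod.tensor_congr h h')⟩

instance : Zero (OpClass S Γ) := ⟨mk (OpMod.zero S Γ)⟩
instance : One (OpClass S Γ) := ⟨mk (OpMod.unit S Γ)⟩

theorem mk_add_mk (X Y : OpMod S Γ) : mk X + mk Y = mk (X.sum Y) := rfl
theorem mk_mul_mk (X Y : OpMod S Γ) : mk X * mk Y = mk (X.tensor Y) := rfl
theorem zero_def : (0 : OpClass S Γ) = mk (OpMod.zero S Γ) := rfl
theorem one_def : (1 : OpClass S Γ) = mk (OpMod.unit S Γ) := rfl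

protected theorem mul_comm' (a b : OpClass S Γ) : a * b = b * a := by
  obtain ⟨X, rfl⟩ := exists_mk a
  obtain ⟨Y, rfl⟩ := exists_mk b
  exact mk_eq_mk.2 (OpMod.tensor_comm X Y)

protected theorem add_comm' (a b : OpClass S Γ) : a + b = b + a := by
  obtain ⟨X, rfl⟩ := exists_mk a
  obtain ⟨Y, rfl⟩ := exists_mk b
  exact mk_eq_mk.2 (OpMod.sum_comm X Y)

protected theorem left_distrib' (a b c : OpClass S Γ) : a * (b + c) = a * b + a * c := by
  obtain ⟨X, rfl⟩ := exists_mk a
  obtain ⟨Y, rfl⟩ := exists_mk b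
  obtain ⟨Z, rfl⟩ := exists_mk c
  exact mk_eq_mk.2 (OpMod.tensor_sum X Y Z)

protected theorem zero_add' (a : OpClass S Γ) : 0 + a = a := by
  obtain ⟨X, rfl⟩ := exists_mk a
  exact mk_eq_mk.2 (OpMod.zero_sum X)

protected theorem one_mul' (a : OpClass S Γ) : 1 * a = a := by
  obtain ⟨X, rfl⟩ := exists_mk a
  exact mk_eq_mk.2 (OpMod.unit_tensor X)

protected theorem zero_mul' (a : OpClass S Γ) : 0 * a = 0 := by
  obtain ⟨X, rfl⟩ := exists_mk a
  exact mk_eq_mk.2 (OpMod.zero_tensor X)

noncomputable instance : CommSemiring (OpClass S Γ) where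
  add_assoc a b c := by
    obtain ⟨X, rfl⟩ := exists_mk a
    obtain ⟨Y, rfl⟩ := exists_mk b
    obtain ⟨Z, rfl⟩ := exists_mk c
    exact mk_eq_mk.2 (OpMod.sum_assoc X Y Z)
  zero_add := OpClass.zero_add'
  add_zero a := by rw [OpClass.add_comm']; exact OpClass.zero_add' a
  add_comm := OpClass.add_comm'
  left_distrib := OpClass.left_distrib'
  right_distrib a b c := by
    rw [OpClass.mul_comm', OpClass.left_distrib', OpClass.mul_comm' c a, OpClass.mul_comm' c b]
  zero_mul := OpClass.zero_mul'
  mul_zero a := by rw [OpClass.mul_comm']; exact OpClass.zero_mul' a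
  mul_assoc a b c := by
    obtain ⟨X, rfl⟩ := exists_mk a
    obtain ⟨Y, rfl⟩ := exists_mk b
    obtain ⟨Z, rfl⟩ := exists_mk c
    exact mk_eq_mk.2 (OpMod.tensor_assoc X Y Z)
  one_mul := OpClass.one_mul'
  mul_one a := by rw [OpClass.mul_comm']; exact OpClass.one_mul' a
  mul_comm := OpClass.mul_comm'
  nsmul := nsmulRec

end OpClass

end Pool.Agent.Rep463
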