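import Mathlib
import Pool.Agent.Rep463.OpMod

/-!
# The Grothendieck ring of finitely generated modules with operators
-/

namespace Pool.Agent.Rep463

open scoped TensorProduct

universe u v w

variable (S : Type u) [CommRing S] (Γ : Type v)

/-- Classes of finitely generated modules with operators. -/
noncomputable def fgClass : Subsemiring (OpClass S Γ) where
  carrier := {x | ∃ X : OpMod S Γ, OpClass.mk X = x ∧ Module.Finite S X}
  mul_mem' := by
    rintro _ _ ⟨X, rfl, hX⟩ ⟨Y, rfl, hY⟩
    exact ⟨X.tensor Y, rfl, Module.Finite.tensorProduct S X Y⟩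
  one_mem' := ⟨OpMod.unit S Γ, rfl, Module.Finite.self S⟩
  add_mem' := by
    rintro _ _ ⟨X, rfl, hX⟩ ⟨Y, rfl, hY⟩
    exact ⟨X.sum Y, rfl, Module.Finite.prod⟩
  zero_mem' := ⟨OpMod.zero S Γ, rfl, by
    show Module.Finite S PUnit.{u+1}
    infer_instance⟩

/-- The Grothendieck ring of f.g. modules with operators. -/
abbrev GA : Type (max v (u + 1)) := K0 (fgClass S Γ)

variable {S Γ}

instance (X Y : OpMod S Γ) [hX : Module.Finite S X] [hY : Module.Finite S Y] :
    Module.Finite S (X.tensor Y) := Module.Finite.tensorProduct S X Y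

instance (X Y : OpMod S Γ) [hX : Module.Finite S X] [hY : Module.Finite S Y] :
    Module.Finite S (X.sum Y) := Module.Finite.prod

instance : Module.Finite S (OpMod.unit S Γ) := Module.Finite.self S

instance : Module.Finite S (OpMod.zero S Γ) := by
  show Module.Finite S PUnit.{u+1}
  infer_instance

/-- The class of a f.g. module with operators. -/
noncomputable def cls (X : OpMod S Γ) [hX : Module.Finite S X] : GA S Γ :=
  K0.of ⟨OpClass.mk X, X, rfl, hX⟩

theorem cls_congr {X Y : OpMod S Γ} [Module.Finite S X] [Module.Finite S Y] (h : X.Iso Y) :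
    cls X = cls Y := by
  unfold cls
  congr 2
  exact OpClass.mk_eq_mk.2 h

theorem cls_sum (X Y : OpMod S Γ) [Module.Finite S X] [Module.Finite S Y] :
    cls (X.sum Y) = cls X + cls Y := by
  unfold cls
  rw [← map_add]
  rfl

theorem cls_tensor (X Y : OpMod S Γ) [Module.Finite S X] [Module.Finite S Y] :
    cls (X.tensor Y) = cls X * cls Y := by
  unfold cls
  rw [← K0.of_mul]
  rfl

theorem cls_unit : cls (OpMod.unit S Γ) = 1 := rfl

theorem cls_zero : cls (OpMod.zero S Γ) = 0 := by
  unfold cls
  exact map_zero _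

theorem cls_of_subsingleton (X : OpMod S Γ) [Module.Finite S X] [Subsingleton X] :
    cls X = 0 := by
  rw [← cls_zero]
  have : Subsingleton (OpMod.zero S Γ) := by
    show Subsingleton PUnit.{u+1}
    infer_instance
  refine cls_congr ⟨
    { toFun := 0
      invFun := 0
      map_add' := by simp
      map_smul' := by simp
      left_inv := fun _ => Subsingleton.elim _ _
      right_inv := fun _ => Subsingleton.elim _ _ }, fun _ _ => Subsingleton.elim _ _⟩

theorem exists_cls (x : fgClass S Γ) :
    ∃ (X : OpMod S Γ) (_ : Module.Finite S X), K0.of x = cls X := by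
  obtain ⟨x, X, rfl, hX⟩ := x
  exact ⟨X, hX, rfl⟩

theorem exists_cls_sub (x : GA S Γ) :
    ∃ (X Y : OpMod S Γ) (_ : Module.Finite S X) (_ : Module.Finite S Y), x = cls X - cls Y := by
  obtain ⟨a, b, rfl⟩ := K0.exists_of_sub x
  obtain ⟨X, hX, hX'⟩ := exists_cls a
  obtain ⟨Y, hY, hY'⟩ := exists_cls b
  exact ⟨X, Y, hX, hY, by rw [hX', hY']⟩

/-- Two additive maps on `GA S Γ` agreeing on classes are equal. -/
theorem GA.hom_ext {G : Type w} [AddCommGroup G] {f g : GA S Γ →+ G}
    (h : ∀ (X : OpMod S Γ) [Module.Finite S X], f (cls X) = g (cls X)) : f = g := by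
  ext x
  obtain ⟨X, Y, hX, hY, rfl⟩ := exists_cls_sub x
  simp [h]

/-- Constructing additive maps out of `GA S Γ`. -/
noncomputable def GA.lift {G : Type w} [AddCommGroup G] (f : OpMod S Γ → G)
    (h0 : f (OpMod.zero S Γ) = 0)
    (hc : ∀ X Y : OpMod S Γ, X.Iso Y → f X = f Y)
    (ha : ∀ (X Y : OpMod S Γ) [Module.Finite S X] [Module.Finite S Y],
      f (X.sum Y) = f X + f Y) : GA S Γ →+ G :=
  K0.lift
    { toFun := fun x => Quotient.lift f hc x.1
      map_zero' := h0
      map_add' := by
        rintro ⟨_, X, rfl, hX⟩ ⟨_, Y, rfl, hY⟩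
        exact ha X Y }

theorem GA.lift_cls {G : Type w} [AddCommGroup G] (f : OpMod S Γ → G)
    (h0 : f (OpMod.zero S Γ) = 0)
    (hc : ∀ X Y : OpMod S Γ, X.Iso Y → f X = f Y)
    (ha : ∀ (X Y : OpMod S Γ) [Module.Finite S X] [Module.Finite S Y],
      f (X.sum Y) = f X + f Y) (X : OpMod S Γ) [Module.Finite S X] :
    GA.lift f h0 hc ha (cls X) = f X := by
  unfold GA.lift cls
  rw [K0.lift_of]
  rfl

/-! ### An extra operator -/

/-- Add one more operator `σ` to a module with operators. -/
@[reducible] def OpMod.extend (X : OpMod S Γ) (σ : X →ₗ[S] X) : OpMod S (Option Γ) where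
  carrier := X
  op g := match g with
    | none => σ
    | some g => X.op g

instance (X : OpMod S Γ) (σ : X →ₗ[S] X) [h : Module.Finite S X] :
    Module.Finite S (X.extend σ) := h

/-- Forget the extra operator. -/
@[reducible] def OpMod.forget (X : OpMod S (Option Γ)) : OpMod S Γ where
  carrier := X
  op g := X.op (some g)

theorem OpMod.forget_extend (X : OpMod S (Option Γ)) :
    (X.forget.extend (X.op none)) = X := by
  cases X with
  | mk c op =>
    simp only [OpMod.extend, OpMod.forget]
    congr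
    funext g
    cases g <;> rfl

theorem OpMod.extend_iso {X Y : OpMod S Γ} {σ : X →ₗ[S] X} {τ : Y →ₗ[S] Y} (e : X ≃ₗ[S] Y)
    (he : ∀ g x, e (X.op g x) = Y.op g (e x)) (h : ∀ x, e (σ x) = τ (e x)) :
    (X.extend σ).Iso (Y.extend τ) :=
  ⟨e, fun g => match g with
    | none => h
    | some g => he g⟩

/-- The map `x ↦ (x, σ = 1)` as a semiring homomorphism on classes. -/
noncomputable def inclClass : OpClass S Γ →+* OpClass S (Option Γ) where
  toFun := Quotient.map (fun X => X.extend LinearMap.id)
    (fun X Y ⟨e, he⟩ => OpMod.extend_iso e he (fun _ => rfl))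
  map_one' := by
    apply OpClass.mk_eq_mk.2
    exact ⟨LinearEquiv.refl S S, fun g x => by cases g <;> rfl⟩
  map_mul' x y := by
    obtain ⟨X, rfl⟩ := OpClass.exists_mk x
    obtain ⟨Y, rfl⟩ := OpClass.exists_mk y
    apply OpClass.mk_eq_mk.2
    refine ⟨LinearEquiv.refl S (X ⊗[S] Y), fun g x => ?_⟩
    cases g with
    | none =>
      show x = TensorProduct.map LinearMap.id LinearMap.id x
      rw [TensorProduct.map_id]; rfl
    | some g => rfl
  map_zero' := by
    apply OpClass.mk_eq_mk.2
    exact ⟨LinearEquiv.refl S _, fun g x => by cases g <;> rfl⟩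
  map_add' x y := by
    obtain ⟨X, rfl⟩ := OpClass.exists_mk x
    obtain ⟨Y, rfl⟩ := OpClass.exists_mk y
    apply OpClass.mk_eq_mk.2
    refine ⟨LinearEquiv.refl S (X × Y), fun g x => ?_⟩
    cases g <;> rfl

/-- The map `x ↦ (x, σ = 1)` as a ring homomorphism. -/
noncomputable def incl : GA S Γ →+* GA S (Option Γ) :=
  K0.map ((inclClass (S := S) (Γ := Γ)).restrict (fgClass S Γ) (fgClass S (Option Γ)) (by
    rintro _ ⟨X, rfl, hX⟩
    exact ⟨X.extend LinearMap.id, rfl, hX⟩))

theorem incl_cls (X : OpMod S Γ) [Module.Finite S X] :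
    incl (cls X) = cls (X.extend LinearMap.id) := by
  unfold incl cls
  rw [K0.map_of]
  rfl

end Pool.Agent.Rep463
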