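import Mathlib
import Pool.Agent.Rep463.Cls

/-!
# Counting equivariant maps
-/

namespace Pool.Agent.Rep463

open scoped TensorProduct

universe u v w

variable {S : Type u} [CommRing S] {Γ : Type v}

/-- Equivariant maps between modules with operators. -/
@[reducible] def OpMod.homs (Y X : OpMod S Γ) : Type u :=
  {f : Y →ₗ[S] X // ∀ g y, f (Y.op g y) = X.op g (f y)}

/-- the number of equivariant maps -/
noncomputable def OpMod.num (Y X : OpMod S Γ) : ℕ := Nat.card (Y.homs X)

theorem OpMod.num_congr (Y : OpMod S Γ) {X X' : OpMod S Γ} (h : X.Iso X') :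
    Y.num X = Y.num X' := by
  obtain ⟨e, he⟩ := h
  refine Nat.card_congr
    { toFun := fun f => ⟨e.toLinearMap ∘ₗ f.1, fun g y => ?_⟩
      invFun := fun f => ⟨e.symm.toLinearMap ∘ₗ f.1, fun g y => ?_⟩
      left_inv := fun f => ?_
      right_inv := fun f => ?_ }
  · simp [f.2, he]
  · simp only [LinearMap.comp_apply, f.2, LinearEquiv.coe_coe]
    apply e.injective
    rw [he]; simp
  · apply Subtype.ext; ext y; simp
  · apply Subtype.ext; ext y; simp

theorem OpMod.num_zero (Y : OpMod S Γ) : Y.num (OpMod.zero S Γ) = 1 := by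
  unfold OpMod.num
  rw [Nat.card_eq_one_iff_unique]
  constructor
  · constructor
    rintro ⟨f, hf⟩ ⟨f', hf'⟩
    apply Subtype.ext
    ext y
  · exact ⟨⟨0, fun g y => rfl⟩⟩

theorem OpMod.num_sum (Y X X' : OpMod S Γ) : Y.num (X.sum X') = Y.num X * Y.num X' := by
  unfold OpMod.num
  rw [← Nat.card_prod]
  refine Nat.card_congr
    { toFun := fun f => (⟨LinearMap.fst S X X' ∘ₗ f.1, fun g y => ?_⟩,
        ⟨LinearMap.snd S X X' ∘ₗ f.1, fun g y => ?_⟩)
      invFun := fun f => ⟨f.1.1.prod f.2.1, fun g y => ?_⟩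
      left_inv := fun f => ?_
      right_inv := fun f => ?_ }
  · have := f.2 g y
    simp only [LinearMap.comp_apply, this]
    rfl
  · have := f.2 g y
    simp only [LinearMap.comp_apply, this]
    rfl
  · have h1 := f.1.2 g y
    have h2 := f.2.2 g y
    exact Prod.ext h1 h2
  · rfl
  · rfl

theorem finite_of_fg [Finite S] (X : OpMod S Γ) [Module.Finite S X] : Finite X :=
  Module.finite_of_finite S

theorem OpMod.finite_homs [Finite S] (Y X : OpMod S Γ) [Module.Finite S Y] [Module.Finite S X] :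
    Finite (Y.homs X) := by
  have := finite_of_fg X
  have := finite_of_fg Y
  have : Finite (Y →ₗ[S] X) := DFunLike.finite _
  unfold OpMod.homs
  infer_instance

theorem OpMod.num_ne_zero [Finite S] (Y X : OpMod S Γ) [Module.Finite S Y] [Module.Finite S X] :
    Y.num X ≠ 0 := by
  have := OpMod.finite_homs Y X
  have : Nonempty (Y.homs X) := ⟨⟨0, fun g y => by simp⟩⟩
  exact Nat.card_pos.ne'

/-- The additive functional `X ↦ v_q |Hom(Y, X)|`. -/
noncomputable def hfun [Finite S] (q : ℕ) [hq : Fact q.Prime] (Y : OpMod S Γ)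
    [Module.Finite S Y] : GA S Γ →+ ℤ :=
  GA.lift (fun X => (padicValNat q (Y.num X) : ℤ))
    (by simp [OpMod.num_zero])
    (fun X X' h => by simp only [Y.num_congr h])
    (fun X X' => by
      intro hX hX'
      rw [Y.num_sum, padicValNat.mul (Y.num_ne_zero X) (Y.num_ne_zero X')]
      push_cast; rfl)

theorem hfun_cls [Finite S] (q : ℕ) [hq : Fact q.Prime] (Y : OpMod S Γ)
    [Module.Finite S Y] (X : OpMod S Γ) [Module.Finite S X] :
    hfun q Y (cls X) = (padicValNat q (Y.num X) : ℤ) := GA.lift_cls _ _ _ _ X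

/-! ### Functionals with values in a cyclotomic ring -/

section cyclo

variable [Finite S] {O : Type w} [CommRing O]

/-- `Y` with the extra operator `c`. -/
@[reducible] def OpMod.tw (Y : OpMod S Γ) (c : S) : OpMod S (Option Γ) := Y.extend (c • LinearMap.id)

instance (Y : OpMod S Γ) (c : S) [h : Module.Finite S Y] : Module.Finite S (Y.tw c) := h

/-- The class of the one-dimensional module on which the extra operator is `c`. -/
noncomputable def chi (Γ : Type v) (c : S) : GA S (Option Γ) := cls ((OpMod.unit S Γ).tw c)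

omit [Finite S] in
theorem chi_mul (c d : S) : chi Γ (c * d) = chi Γ c * chi Γ d := by
  unfold chi
  rw [← cls_tensor]
  apply cls_congr
  refine OpMod.Iso.symm ⟨TensorProduct.lid S S, fun g => ?_⟩
  cases g with
  | none =>
    intro x
    have : (TensorProduct.lid S S).toLinearMap ∘ₗ
        TensorProduct.map (c • LinearMap.id) (d • LinearMap.id) =
        ((c * d) • LinearMap.id) ∘ₗ (TensorProduct.lid S S).toLinearMap := by
      apply TensorProduct.ext'
      intro a b
      simp; ring
    exact DFunLike.congr_fun this x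
  | some g =>
    intro x
    have : (TensorProduct.lid S S).toLinearMap ∘ₗ
        TensorProduct.map (LinearMap.id : S →ₗ[S] S) (LinearMap.id : S →ₗ[S] S) =
        LinearMap.id ∘ₗ (TensorProduct.lid S S).toLinearMap := by
      apply TensorProduct.ext'
      intro a b
      simp
    exact DFunLike.congr_fun this x

omit [Finite S] in
theorem chi_one : chi Γ (1 : S) = 1 := by
  rw [← cls_unit]
  apply cls_congr
  refine ⟨LinearEquiv.refl S S, fun g => ?_⟩
  cases g with
  | none => intro x; simp
  | some g => intro x; rfl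

omit [Finite S] in
theorem chi_pow (c : S) (n : ℕ) : chi Γ (c ^ n) = chi Γ c ^ n := by
  induction n with
  | zero => simp [chi_one]
  | succ n ih => rw [pow_succ, chi_mul, ih, pow_succ]

omit [Finite S] in
theorem num_tw_chi (Y : OpMod S Γ) (c d : S) (hd : IsUnit d) (V : OpMod S (Option Γ)) :
    (Y.tw (d * c)).num (((OpMod.unit S Γ).tw d).tensor V) = (Y.tw c).num V := by
  unfold OpMod.num
  let e : S ⊗[S] V ≃ₗ[S] V := TensorProduct.lid S V
  have he1 : ∀ (g : Γ) (z : S ⊗[S] V),
      e (TensorProduct.map (LinearMap.id : S →ₗ[S] S) (V.op (some g)) z) =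
        V.op (some g) (e z) := by
    intro g z
    have : e.toLinearMap ∘ₗ TensorProduct.map (LinearMap.id : S →ₗ[S] S) (V.op (some g)) =
        V.op (some g) ∘ₗ e.toLinearMap := by
      apply TensorProduct.ext'
      intro a b
      simp [e]
    exact DFunLike.congr_fun this z
  have he2 : ∀ (z : S ⊗[S] V),
      e (TensorProduct.map (d • LinearMap.id : S →ₗ[S] S) (V.op none) z) =
        d • V.op none (e z) := by
    intro z
    have : e.toLinearMap ∘ₗ TensorProduct.map (d • LinearMap.id : S →ₗ[S] S) (V.op none) =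
        d • V.op none ∘ₗ e.toLinearMap := by
      apply TensorProduct.ext'
      intro a b
      simp [e, mul_smul]
    exact DFunLike.congr_fun this z
  refine Nat.card_congr
    { toFun := fun f => ⟨e.toLinearMap ∘ₗ f.1, fun g y => ?_⟩
      invFun := fun f => ⟨e.symm.toLinearMap ∘ₗ f.1, fun g y => ?_⟩
      left_inv := fun f => ?_
      right_inv := fun f => ?_ }
  · cases g with
    | some g =>
      have h1 : f.1 (Y.op g y) = TensorProduct.map (LinearMap.id : S →ₗ[S] S) (V.op (some g))
        (f.1 y) := f.2 (some g) y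
      show e (f.1 (Y.op g y)) = V.op (some g) (e (f.1 y))
      rw [h1, he1]
    | none =>
      have h1 : f.1 ((d * c) • y) = TensorProduct.map (d • LinearMap.id : S →ₗ[S] S) (V.op none)
        (f.1 y) := f.2 none y
      show e (f.1 (c • y)) = V.op none (e (f.1 y))
      have h2 := he2 (f.1 y)
      rw [← h1, mul_smul, map_smul, map_smul] at h2
      obtain ⟨d', rfl⟩ := hd
      have h3 := congrArg (fun z => (↑d'⁻¹ : S) • z) h2
      simpa [smul_smul] using h3
  · cases g with
    | some g =>
      have h1 : f.1 (Y.op g y) = V.op (some g) (f.1 y) := f.2 (some g) y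
      show e.symm (f.1 (Y.op g y)) =
        TensorProduct.map (LinearMap.id : S →ₗ[S] S) (V.op (some g)) (e.symm (f.1 y))
      apply e.injective
      rw [he1, e.apply_symm_apply, e.apply_symm_apply, h1]
    | none =>
      have h1 : f.1 (c • y) = V.op none (f.1 y) := f.2 none y
      show e.symm (f.1 ((d * c) • y)) =
        TensorProduct.map (d • LinearMap.id : S →ₗ[S] S) (V.op none) (e.symm (f.1 y))
      apply e.injective
      rw [he2, e.apply_symm_apply, e.apply_symm_apply, ← h1, mul_smul, map_smul, map_smul]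
  · apply Subtype.ext
    apply LinearMap.ext
    intro y
    exact e.symm_apply_apply _
  · apply Subtype.ext
    apply LinearMap.ext
    intro y
    exact e.apply_symm_apply _

theorem hfun_chi_mul (q : ℕ) [hq : Fact q.Prime] (Y : OpMod S Γ) [Module.Finite S Y]
    (c d : S) (hd : IsUnit d) (x : GA S (Option Γ)) :
    hfun q (Y.tw (d * c)) (chi Γ d * x) = hfun q (Y.tw c) x := by
  have : (hfun q (Y.tw (d * c))).comp (AddMonoidHom.mulLeft (chi Γ d)) = hfun q (Y.tw c) := by
    apply GA.hom_ext
    intro X hX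
    simp only [AddMonoidHom.comp_apply, AddMonoidHom.coe_mulLeft]
    unfold chi
    rw [← cls_tensor, hfun_cls, hfun_cls, num_tw_chi Y c d hd X]
  exact DFunLike.congr_fun this x

variable (ζ : S) (ξ : O) (L : ℕ)

/-- the functional `H_{Y,q}` -/
noncomputable def Hfun (q : ℕ) [hq : Fact q.Prime] (Y : OpMod S Γ) [Module.Finite S Y] :
    GA S (Option Γ) →+ O where
  toFun x := ∑ i ∈ Finset.range L, ξ ^ i * ((hfun q (Y.tw (ζ ^ i)) x : ℤ) : O)
  map_zero' := by simp
  map_add' x y := by
    simp only [map_add, Int.cast_add, mul_add, Finset.sum_add_distrib]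

variable {ζ ξ L}

theorem Hfun_chi_mul (hζ : ζ ^ L = 1) (hξ : ξ ^ L = 1) (hL : 0 < L) (q : ℕ) [hq : Fact q.Prime]
    (Y : OpMod S Γ) [Module.Finite S Y] (x : GA S (Option Γ)) :
    Hfun ζ ξ L q Y (chi Γ ζ * x) = ξ * Hfun ζ ξ L q Y x := by
  have hunit : IsUnit ζ := IsUnit.of_pow_eq_one hζ hL.ne'
  show ∑ i ∈ Finset.range L, ξ ^ i * ((hfun q (Y.tw (ζ ^ i)) (chi Γ ζ * x) : ℤ) : O) =
    ξ * ∑ i ∈ Finset.range L, ξ ^ i * ((hfun q (Y.tw (ζ ^ i)) x : ℤ) : O)
  have h1 : ∀ F : ℕ → O, F L = F 0 → ∑ i ∈ Finset.range L, F i = ∑ i ∈ Finset.range L, F (i + 1) := by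
    intro F hF
    have := (Finset.sum_range_succ F L).symm.trans (Finset.sum_range_succ' F L)
    rw [hF] at this
    exact add_right_cancel this
  rw [h1 _ (by simp [hζ, hξ]), Finset.mul_sum]
  refine Finset.sum_congr rfl fun i _ => ?_
  rw [pow_succ' ζ i, hfun_chi_mul q Y (ζ ^ i) ζ hunit x, pow_succ' ξ i, mul_assoc]

theorem Hfun_chi_pow_mul (hζ : ζ ^ L = 1) (hξ : ξ ^ L = 1) (hL : 0 < L) (q : ℕ)
    [hq : Fact q.Prime]
    (Y : OpMod S Γ) [Module.Finite S Y] (a : ℕ) (x : GA S (Option Γ)) :
    Hfun ζ ξ L q Y (chi Γ ζ ^ a * x) = ξ ^ a * Hfun ζ ξ L q Y x := by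
  induction a with
  | zero => simp
  | succ a ih => rw [pow_succ', mul_assoc, Hfun_chi_mul hζ hξ hL, ih, pow_succ', mul_assoc]

omit [Finite S] in
theorem num_tw_one (Y X : OpMod S Γ) : (Y.tw 1).num (X.extend LinearMap.id) = Y.num X := by
  unfold OpMod.num
  refine Nat.card_congr
    { toFun := fun f => ⟨f.1, fun g y => f.2 (some g) y⟩
      invFun := fun f => ⟨f.1, fun g y => ?_⟩
      left_inv := fun f => rfl
      right_inv := fun f => rfl }
  cases g with
  | some g => exact f.2 g y
  | none => exact congrArg f.1 (one_smul S y)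

omit [Finite S] in
theorem num_tw_of_isUnit (Y X : OpMod S Γ) (c : S) (hc : IsUnit (1 - c)) :
    (Y.tw c).num (X.extend LinearMap.id) = 1 := by
  unfold OpMod.num
  rw [Nat.card_eq_one_iff_unique]
  constructor
  · have key : ∀ f : (Y.tw c).homs (X.extend LinearMap.id), ∀ y : Y, (f.1 y : X) = 0 := by
      intro f y
      have h1 : (f.1 (c • y) : X) = f.1 y := f.2 none y
      have h2 : (c • f.1 y : X) = f.1 y := (map_smul f.1 c y).symm.trans h1
      have h3 : ((1 - c) • f.1 y : X) = 0 := by
        rw [sub_smul, one_smul, sub_eq_zero]; exact h2.symm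
      obtain ⟨d, hd⟩ := hc
      rw [← hd] at h3
      have h4 := congrArg (fun z : X => (↑d⁻¹ : S) • z) h3
      simpa [smul_smul] using h4
    constructor
    intro f f'
    apply Subtype.ext
    apply LinearMap.ext
    intro y
    exact (key f y).trans (key f' y).symm
  · exact ⟨⟨0, fun g y => by simp⟩⟩

theorem Hfun_incl (hζ1 : ∀ a : ℕ, ¬ L ∣ a → IsUnit (1 - ζ ^ a)) (hL : 0 < L) (q : ℕ)
    [hq : Fact q.Prime] (Y : OpMod S Γ) [Module.Finite S Y] (x : GA S Γ) :
    Hfun ζ ξ L q Y (incl x) = ((hfun q Y x : ℤ) : O) := by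
  have : (Hfun ζ ξ L q Y).comp (incl : GA S Γ →+* GA S (Option Γ)).toAddMonoidHom =
      (Int.castAddHom O).comp (hfun q Y) := by
    apply GA.hom_ext
    intro X hX
    simp only [AddMonoidHom.comp_apply, RingHom.toAddMonoidHom_eq_coe, AddMonoidHom.coe_coe,
      Int.coe_castAddHom]
    rw [incl_cls, hfun_cls]
    show ∑ i ∈ Finset.range L, ξ ^ i * ((hfun q (Y.tw (ζ ^ i)) (cls (X.extend LinearMap.id)) : ℤ) : O)
      = _
    rw [Finset.sum_eq_single_of_mem 0 (Finset.mem_range.2 hL)]
    · rw [hfun_cls, pow_zero, pow_zero, one_mul, num_tw_one]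
    · intro i hi hi0
      have : ¬ L ∣ i := fun h => by
        have := Nat.le_of_dvd (Nat.pos_of_ne_zero hi0) h
        have := Finset.mem_range.1 hi
        omega
      rw [hfun_cls, num_tw_of_isUnit Y X _ (hζ1 i this)]
      simp
  exact DFunLike.congr_fun this x

end cyclo

end Pool.Agent.Rep463
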