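import Mathlib
import Pool.Agent.Rep463.Hom

/-!
# Images of projections, twists and permuted decompositions
-/

namespace Pool.Agent.Rep463

open scoped TensorProduct

universe u v w

variable {S : Type u} [CommRing S] {Γ : Type v}

/-- The image of an equivariant endomorphism. -/
@[reducible] def OpMod.img (V : OpMod S Γ) (p : V →ₗ[S] V)
    (hp : ∀ g x, p (V.op g x) = V.op g (p x)) : OpMod S Γ where
  carrier := LinearMap.range p
  op g := (V.op g).restrict (by
    rintro _ ⟨x, rfl⟩
    exact ⟨V.op g x, hp g x⟩)

instance (V : OpMod S Γ) [Module.Finite S V] (p : V →ₗ[S] V)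
    (hp : ∀ g x, p (V.op g x) = V.op g (p x)) : Module.Finite S (V.img p hp) :=
  Module.Finite.range p

theorem OpMod.img_congr (V : OpMod S Γ) (p q : V →ₗ[S] V)
    (hp : ∀ g x, p (V.op g x) = V.op g (p x)) (hq : ∀ g x, q (V.op g x) = V.op g (q x))
    (h : LinearMap.range p = LinearMap.range q) : (V.img p hp).Iso (V.img q hq) :=
  ⟨LinearEquiv.ofEq _ _ h, fun _ _ => rfl⟩

/-- If `p, q` are equivariant orthogonal idempotents, the image of `p + q` is the direct sum of the
images. -/
theorem cls_img_add (V : OpMod S Γ) [Module.Finite S V] (p q : V →ₗ[S] V)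
    (hp : ∀ g x, p (V.op g x) = V.op g (p x)) (hq : ∀ g x, q (V.op g x) = V.op g (q x))
    (hpq : ∀ g x, (p + q) (V.op g x) = V.op g ((p + q) x))
    (pp : p ∘ₗ p = p) (qq : q ∘ₗ q = q) (pq : p ∘ₗ q = 0) (qp : q ∘ₗ p = 0) :
    cls (V.img (p + q) hpq) = cls (V.img p hp) + cls (V.img q hq) := by
  rw [← cls_sum]
  have pp' : ∀ x, p (p x) = p x := fun x => DFunLike.congr_fun pp x
  have qq' : ∀ x, q (q x) = q x := fun x => DFunLike.congr_fun qq x
  have pq' : ∀ x, p (q x) = 0 := fun x => DFunLike.congr_fun pq x
  have qp' : ∀ x, q (p x) = 0 := fun x => DFunLike.congr_fun qp x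
  apply cls_congr
  refine ⟨
    { toFun := fun x => (⟨p x.1, x.1, rfl⟩, ⟨q x.1, x.1, rfl⟩)
      map_add' := fun x y => ?_
      map_smul' := fun c x => ?_
      invFun := fun z => ⟨z.1.1 + z.2.1, ?_⟩
      left_inv := fun x => ?_
      right_inv := fun z => ?_ }, fun g x => ?_⟩
  · apply Prod.ext <;> apply Subtype.ext <;> simp
  · apply Prod.ext <;> apply Subtype.ext <;> simp
  · obtain ⟨⟨_, a, rfl⟩, ⟨_, b, rfl⟩⟩ := z
    refine ⟨p a + q b, ?_⟩
    simp [pp', qq', pq', qp']
  · obtain ⟨_, a, rfl⟩ := x
    apply Subtype.ext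
    simp [pp', qq', pq', qp']
  · obtain ⟨⟨_, a, rfl⟩, ⟨_, b, rfl⟩⟩ := z
    apply Prod.ext <;> apply Subtype.ext <;> simp [pp', qq', pq', qp']
  · apply Prod.ext <;> apply Subtype.ext
    · exact hp g x.1
    · exact hq g x.1

theorem cls_img_zero (V : OpMod S Γ) [Module.Finite S V]
    (h0 : ∀ g x, (0 : V →ₗ[S] V) (V.op g x) = V.op g ((0 : V →ₗ[S] V) x)) :
    cls (V.img 0 h0) = 0 := by
  have : Subsingleton (V.img 0 h0) := by
    constructor
    rintro ⟨_, a, rfl⟩ ⟨_, b, rfl⟩
    rfl
  exact cls_of_subsingleton _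

theorem cls_img_id (V : OpMod S Γ) [Module.Finite S V]
    (h0 : ∀ g x, (LinearMap.id : V →ₗ[S] V) (V.op g x) = V.op g ((LinearMap.id : V →ₗ[S] V) x)) :
    cls (V.img LinearMap.id h0) = cls V := by
  apply cls_congr
  exact ⟨LinearEquiv.ofTop _ LinearMap.range_id, fun g x => rfl⟩

theorem cls_eq_sum_img (V : OpMod S Γ) [Module.Finite S V] {ι : Type*} [Fintype ι] [DecidableEq ι]
    (p : ι → V →ₗ[S] V) (hp : ∀ i g x, p i (V.op g x) = V.op g (p i x))
    (pp : ∀ i, p i ∘ₗ p i = p i) (pq : ∀ i j, i ≠ j → p i ∘ₗ p j = 0)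
    (hsum : ∑ i, p i = LinearMap.id) :
    cls V = ∑ i, cls (V.img (p i) (hp i)) := by
  have hs : ∀ (s : Finset ι) g x, (∑ i ∈ s, p i) (V.op g x) = V.op g ((∑ i ∈ s, p i) x) := by
    intro s g x
    simp [hp, LinearMap.sum_apply]
  have key : ∀ s : Finset ι, cls (V.img (∑ i ∈ s, p i) (hs s)) =
      ∑ i ∈ s, cls (V.img (p i) (hp i)) := by
    intro s
    induction s using Finset.induction_on with
    | empty =>
      have h0 : ∀ g x, (0 : V →ₗ[S] V) (V.op g x) = V.op g ((0 : V →ₗ[S] V) x) := by
        intro g x; simp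
      refine (cls_congr (V.img_congr _ 0 _ h0 (by simp))).trans ?_
      rw [cls_img_zero, Finset.sum_empty]
    | insert i s hi ih =>
      have hadd : ∀ g x, (p i + ∑ i ∈ s, p i) (V.op g x) = V.op g ((p i + ∑ i ∈ s, p i) x) := by
        intro g x
        simp [hp, LinearMap.sum_apply]
      refine (cls_congr (V.img_congr _ (p i + ∑ i ∈ s, p i) _ hadd
        (by rw [Finset.sum_insert hi]))).trans ?_
      rw [Finset.sum_insert hi, ← ih]
      apply cls_img_add V (p i) (∑ i ∈ s, p i) (hp i) (hs s) hadd (pp i)
      · apply LinearMap.ext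
        intro x
        simp only [LinearMap.comp_apply, LinearMap.sum_apply, map_sum]
        refine Finset.sum_congr rfl fun j hj => ?_
        rw [Finset.sum_eq_single_of_mem j hj]
        · exact DFunLike.congr_fun (pp j) x
        · intro k hk hkj
          exact DFunLike.congr_fun (pq k j hkj) x
      · apply LinearMap.ext
        intro x
        simp only [LinearMap.comp_apply, LinearMap.sum_apply, map_sum, LinearMap.zero_apply]
        refine Finset.sum_eq_zero fun j hj => ?_
        exact DFunLike.congr_fun (pq i j (by rintro rfl; exact hi hj)) x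
      · apply LinearMap.ext
        intro x
        simp only [LinearMap.comp_apply, LinearMap.sum_apply, LinearMap.zero_apply]
        refine Finset.sum_eq_zero fun j hj => ?_
        exact DFunLike.congr_fun (pq j i (by rintro rfl; exact hi hj)) x
  rw [← key Finset.univ]
  have hid : ∀ g x, (LinearMap.id : V →ₗ[S] V) (V.op g x) = V.op g ((LinearMap.id : V →ₗ[S] V) x) :=
    fun g x => rfl
  rw [← cls_img_id V hid]
  exact cls_congr (V.img_congr _ _ _ _ (by rw [hsum]))

/-- Multiply the extra operator by a scalar. -/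
@[reducible] def OpMod.twist (V : OpMod S (Option Γ)) (c : S) : OpMod S (Option Γ) where
  carrier := V
  op g := match g with
    | none => c • V.op none
    | some g => V.op (some g)

instance (V : OpMod S (Option Γ)) (c : S) [h : Module.Finite S V] :
    Module.Finite S (V.twist c) := h

theorem cls_twist (V : OpMod S (Option Γ)) (c : S) [h : Module.Finite S V] :
    cls (V.twist c) = chi Γ c * cls V := by
  unfold chi
  rw [← cls_tensor]
  apply cls_congr
  apply OpMod.Iso.symm
  refine ⟨TensorProduct.lid S V, fun g => ?_⟩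
  cases g with
  | none =>
    intro x
    have : (TensorProduct.lid S V).toLinearMap ∘ₗ
        TensorProduct.map (c • LinearMap.id : S →ₗ[S] S) (V.op none) =
        (c • V.op none) ∘ₗ (TensorProduct.lid S V).toLinearMap := by
      apply TensorProduct.ext'
      intro a b
      simp [mul_smul]
    exact DFunLike.congr_fun this x
  | some g =>
    intro x
    have : (TensorProduct.lid S V).toLinearMap ∘ₗ
        TensorProduct.map (LinearMap.id : S →ₗ[S] S) (V.op (some g)) =
        (V.op (some g)) ∘ₗ (TensorProduct.lid S V).toLinearMap := by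
      apply TensorProduct.ext'
      intro a b
      simp
    exact DFunLike.congr_fun this x

/-- For a permutation `s` of a finite type there is a function `c` with
`c (s w) ≡ c w + 1` modulo the period of `w`. -/
theorem exists_cocycle {W : Type*} [Finite W] (s : Equiv.Perm W) :
    ∃ c : W → ℕ, ∀ w, c (s w) ≡ c w + 1 [MOD Function.minimalPeriod s w] := by
  classical
  let r : Setoid W := Equiv.Perm.SameCycle.setoid s
  let rep : W → W := fun w => (Quotient.mk r w).out
  have hrep : ∀ w, s.SameCycle (rep w) w := fun w =>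
    Quotient.exact (s := r) (Quotient.out_eq (Quotient.mk r w))
  have hrep' : ∀ w, rep (s w) = rep w := by
    intro w
    show (Quotient.mk r (s w)).out = (Quotient.mk r w).out
    congr 1
    apply Quotient.sound
    show s.SameCycle (s w) w
    exact (Equiv.Perm.sameCycle_apply_left).2 (Equiv.Perm.SameCycle.refl s w)
  have h1 : ∀ w, ∃ n : ℕ, (s^[n]) (rep w) = w := by
    intro w
    obtain ⟨n, hn⟩ := (hrep w).exists_nat_pow_eq
    exact ⟨n, by rw [Equiv.Perm.iterate_eq_pow]; exact hn⟩
  choose c hc using h1
  refine ⟨c, fun w => ?_⟩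
  have h2 : s^[c (s w)] (rep w) = s^[c w + 1] (rep w) := by
    rw [← hrep' w, hc (s w), hrep' w, Function.iterate_succ_apply', hc w]
  have hper : Function.minimalPeriod s (rep w) = Function.minimalPeriod s w := by
    conv_rhs => rw [← hc w]
    exact (Function.minimalPeriod_apply_iterate (Function.Injective.mem_periodicPts s.injective _)
      _).symm
  rw [← hper]
  have hpos : 0 < Function.minimalPeriod s (rep w) :=
    Function.minimalPeriod_pos_of_mem_periodicPts
      (Function.Injective.mem_periodicPts s.injective _)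
  rw [← Function.iterate_mod_minimalPeriod_eq (n := c (s w)),
    ← Function.iterate_mod_minimalPeriod_eq (n := c w + 1)] at h2
  exact (Function.iterate_eq_iterate_iff_of_lt_minimalPeriod (Nat.mod_lt _ hpos)
    (Nat.mod_lt _ hpos)).1 h2

/-- Permuted decompositions: if `V = ⊕ V_w` with the extra operator mapping `V_w` to `V_{s w}`,
and `w₀` is the only fixed point with `V_{w₀} ≠ 0`, then `V` and `V_{w₀}` have the same class in
every ring in which `1 - χ^a` is a non-zero-divisor for `L ∤ a`. -/
theorem cls_permuted {B : Type*} [CommRing B] (φ : GA S (Option Γ) →+* B) (ζ : S) (L : ℕ)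
    (hL : 0 < L) (hζ : ζ ^ L = 1)
    (nzd : ∀ a : ℕ, ¬ L ∣ a → ∀ x : B, (1 - φ (chi Γ ζ) ^ a) * x = 0 → x = 0)
    (V : OpMod S (Option Γ)) [Module.Finite S V] {W : Type} [Fintype W] [DecidableEq W]
    (s : Equiv.Perm W) (π : W → V →ₗ[S] V)
    (hpp : ∀ w, π w ∘ₗ π w = π w) (hpq : ∀ w w', w ≠ w' → π w ∘ₗ π w' = 0)
    (hsum : ∑ w, π w = LinearMap.id)
    (hΓ : ∀ w g x, π w (V.op (some g) x) = V.op (some g) (π w x))
    (hσ : ∀ w x, V.op none (π w x) = π (s w) (V.op none x))
    (hdvd : ∀ w, Function.minimalPeriod s w ∣ L)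
    (w₀ : W) (hw₀ : s w₀ = w₀) (hfix : ∀ w, s w = w → w ≠ w₀ → π w = 0)
    (hπ : ∀ g x, π w₀ (V.op g x) = V.op g (π w₀ x)) :
    φ (cls V) = φ (cls (V.img (π w₀) hπ)) := by
  classical
  have hpp' : ∀ w x, π w (π w x) = π w x := fun w x => DFunLike.congr_fun (hpp w) x
  have hpq' : ∀ w w' x, w ≠ w' → π w (π w' x) = 0 := fun w w' x h =>
    DFunLike.congr_fun (hpq w w' h) x
  have hsum' : ∀ x, ∑ w, π w x = x := fun x => by
    rw [← LinearMap.sum_apply, hsum]; rfl
  -- the period decomposition
  let per : W → ℕ := fun w => Function.minimalPeriod s w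
  have hper_mem : ∀ w, w ∈ Function.periodicPts s := fun w =>
    Function.Injective.mem_periodicPts s.injective _
  have hper_pos : ∀ w, 0 < per w := fun w =>
    Function.minimalPeriod_pos_of_mem_periodicPts (hper_mem w)
  have hper_s : ∀ w, per (s w) = per w := fun w => Function.minimalPeriod_apply (hper_mem w)
  have hper_le : ∀ w, per w < L + 1 := fun w => Nat.lt_succ_of_le (Nat.le_of_dvd hL (hdvd w))
  let p : Fin (L + 1) → V →ₗ[S] V := fun i => ∑ w ∈ Finset.univ.filter (fun w => per w = i), π w
  have hp_apply : ∀ i x, p i x = ∑ w ∈ Finset.univ.filter (fun w => per w = (i : ℕ)), π w x := by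
    intro i x
    show (∑ w ∈ Finset.univ.filter (fun w => per w = i), π w) x = _
    rw [LinearMap.sum_apply]
  have hπp : ∀ w i x, π w (p i x) = if per w = (i : ℕ) then π w x else 0 := by
    intro w i x
    rw [hp_apply, map_sum]
    split_ifs with h
    · rw [Finset.sum_eq_single_of_mem w (by simp [h])]
      · exact hpp' w x
      · intro w' _ hw'
        exact hpq' w w' x hw'.symm
    · refine Finset.sum_eq_zero fun w' hw' => ?_
      refine hpq' w w' x ?_
      rintro rfl
      exact h (by simpa using hw')
  have hp_eq : ∀ i, p i ∘ₗ p i = p i := by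
    intro i
    apply LinearMap.ext
    intro x
    refine (hp_apply i (p i x)).trans ((Finset.sum_congr rfl fun w hw => ?_).trans
      (hp_apply i x).symm)
    rw [hπp, if_pos (by simpa using hw)]
  have hp_orth : ∀ i j, i ≠ j → p i ∘ₗ p j = 0 := by
    intro i j hij
    apply LinearMap.ext
    intro x
    rw [LinearMap.comp_apply, hp_apply i (p j x), LinearMap.zero_apply]
    refine Finset.sum_eq_zero fun w hw => ?_
    rw [hπp, if_neg]
    intro h
    apply hij
    apply Fin.ext
    rw [← h]
    exact (by simpa using hw : per w = i).symm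
  have hp_sum : ∑ i, p i = LinearMap.id := by
    rw [← hsum]
    have := Finset.sum_fiberwise_of_maps_to (s := (Finset.univ : Finset W))
      (t := (Finset.univ : Finset (Fin (L + 1))))
      (g := fun w => (⟨per w, hper_le w⟩ : Fin (L + 1))) (fun w _ => Finset.mem_univ _) π
    rw [← this]
    refine Finset.sum_congr rfl fun i _ => ?_
    refine Finset.sum_congr ?_ fun _ _ => rfl
    ext w
    simp [Fin.ext_iff]
  have hp_eqv : ∀ i g x, p i (V.op g x) = V.op g (p i x) := by
    intro i g x
    cases g with
    | some g =>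
      rw [hp_apply, hp_apply, map_sum]
      exact Finset.sum_congr rfl fun w _ => hΓ w g x
    | none =>
      rw [hp_apply, hp_apply, map_sum]
      simp only [hσ]
      refine (Finset.sum_equiv s ?_ ?_).symm
      · intro w; simp [hper_s]
      · intro w _; rfl
  rw [cls_eq_sum_img V p hp_eqv hp_eq hp_orth hp_sum, map_sum]
  -- the scalar operators
  obtain ⟨z, hz⟩ : IsUnit ζ := IsUnit.of_pow_eq_one hζ hL.ne'
  have hzL : z ^ L = 1 := by
    apply Units.ext; rw [Units.val_pow_eq_pow_val, hz, hζ]; rfl
  obtain ⟨c, hc⟩ := exists_cocycle s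
  let U : (W → S) → V →ₗ[S] V := fun f => ∑ w, f w • π w
  have hU : ∀ f x, U f x = ∑ w, f w • π w x := by
    intro f x
    show (∑ w, f w • π w) x = _
    rw [LinearMap.sum_apply]; rfl
  have hπU : ∀ w f x, π w (U f x) = f w • π w x := by
    intro w f x
    rw [hU, map_sum, Finset.sum_eq_single_of_mem w (Finset.mem_univ _)]
    · rw [map_smul, hpp']
    · intro w' _ hw'
      rw [map_smul, hpq' w w' x hw'.symm, smul_zero]
  have hUU : ∀ f f' x, U f (U f' x) = U (f * f') x := by
    intro f f' x
    rw [hU f (U f' x), hU (f * f') x]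
    refine Finset.sum_congr rfl fun w _ => ?_
    rw [hπU, smul_smul]; rfl
  have hU1 : ∀ x, U 1 x = x := by
    intro x
    rw [hU]
    simpa using hsum' x
  have hUp : ∀ f i x, U f (p i x) = p i (U f x) := by
    intro f i x
    rw [hU, hp_apply i (U f x)]
    simp only [hπp, hπU]
    rw [Finset.sum_filter]
    refine Finset.sum_congr rfl fun w _ => ?_
    split_ifs <;> simp
  have hUΓ : ∀ f g x, U f (V.op (some g) x) = V.op (some g) (U f x) := by
    intro f g x
    rw [hU, hU, map_sum]
    refine Finset.sum_congr rfl fun w _ => ?_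
    rw [hΓ, map_smul]
  have hzero : ∀ i : Fin (L + 1), (i : ℕ) ≠ 1 → φ (cls (V.img (p i) (hp_eqv i))) = 0 := by
    intro i hi
    by_cases hex : ∃ w, per w = i
    · obtain ⟨w₁, hw₁⟩ := hex
      have hiL : (i : ℕ) ∣ L := hw₁ ▸ hdvd w₁
      have hi0 : 0 < (i : ℕ) := hw₁ ▸ hper_pos w₁
      set m := L / (i : ℕ) with hm
      have hmi : m * (i : ℕ) = L := Nat.div_mul_cancel hiL
      have hmL : ¬ L ∣ m := by
        intro h
        have hm0 : 0 < m := Nat.div_pos (Nat.le_of_dvd hL hiL) hi0
        have h2 := Nat.le_of_dvd hm0 h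
        have h3 : 2 ≤ (i : ℕ) := by omega
        nlinarith
      let f : W → S := fun w => ((z ^ (m * c w) : Sˣ) : S)
      let f' : W → S := fun w => (((z ^ (m * c w))⁻¹ : Sˣ) : S)
      have hff' : f * f' = 1 := by
        funext w; exact Units.mul_inv _
      have hf'f : f' * f = 1 := by rw [mul_comm]; exact hff'
      have hrel : ∀ x, x ∈ LinearMap.range (p i) →
          U f (V.op none x) = ζ ^ m • V.op none (U f x) := by
        rintro _ ⟨y, rfl⟩
        rw [hU, hU, map_sum, Finset.smul_sum]
        refine (Finset.sum_equiv s (by simp) ?_).symm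
        intro w _
        rw [map_smul, hσ, smul_smul]
        by_cases hw : per w = i
        · congr 1
          rw [← hz, ← Units.val_pow_eq_pow_val]
          show ((z ^ m : Sˣ) : S) * ((z ^ (m * c w) : Sˣ) : S) = ((z ^ (m * c (s w)) : Sˣ) : S)
          rw [← Units.val_mul, ← pow_add]
          congr 1
          have h1 : m + m * c w = m * (c w + 1) := by ring
          rw [h1]
          have h2 : m * (c w + 1) ≡ m * c (s w) [MOD L] := by
            rw [← hmi, ← hw]
            exact Nat.ModEq.mul_left' _ (hc w).symm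
          rw [← pow_mod_orderOf z (m * (c w + 1)), ← pow_mod_orderOf z (m * c (s w))]
          congr 1
          exact h2.of_dvd (orderOf_dvd_of_pow_eq_one hzL)
        · have : V.op none (p i y) = p i (V.op none y) := (hp_eqv i none y).symm
          rw [this, hπp, if_neg (by rw [hper_s]; exact hw), smul_zero, smul_zero]
      have hiso : (V.img (p i) (hp_eqv i)).Iso ((V.img (p i) (hp_eqv i)).twist (ζ ^ m)) := by
        refine ⟨
          { toFun := fun x => ⟨U f x.1, ?_⟩
            map_add' := fun x y => Subtype.ext (map_add _ _ _)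
            map_smul' := fun a x => Subtype.ext (map_smul _ _ _)
            invFun := fun x => ⟨U f' x.1, ?_⟩
            left_inv := fun x => Subtype.ext ?_
            right_inv := fun x => Subtype.ext ?_ }, fun g => ?_⟩
        · obtain ⟨y, hy⟩ := x.2
          exact ⟨U f y, by rw [← hUp, hy]⟩
        · obtain ⟨y, hy⟩ := x.2
          exact ⟨U f' y, by rw [← hUp, hy]⟩
        · show U f' (U f x.1) = x.1
          rw [hUU, hf'f, hU1]
        · show U f (U f' x.1) = x.1
          rw [hUU, hff', hU1]
        · cases g with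
          | none =>
            intro x
            apply Subtype.ext
            exact hrel x.1 x.2
          | some g =>
            intro x
            apply Subtype.ext
            exact hUΓ f g x.1
      have h1 := cls_congr hiso
      rw [cls_twist, chi_pow] at h1
      apply nzd m hmL
      rw [sub_mul, one_mul, ← map_pow, ← map_mul, ← h1, sub_self]
    · have h0 : p i = 0 := by
        apply LinearMap.ext
        intro x
        rw [hp_apply, LinearMap.zero_apply]
        refine Finset.sum_eq_zero fun w hw => ?_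
        exact absurd ⟨w, by simpa using hw⟩ hex
      have h1 : cls (V.img (p i) (hp_eqv i)) = 0 := by
        have h2 : ∀ g x, (0 : V →ₗ[S] V) (V.op g x) = V.op g ((0 : V →ₗ[S] V) x) := by
          intro g x; simp
        rw [← cls_img_zero V h2]
        exact cls_congr (V.img_congr _ _ _ _ (by rw [h0]))
      rw [h1, map_zero]
  have h1L : 1 < L + 1 := by omega
  rw [Finset.sum_eq_single_of_mem (⟨1, h1L⟩ : Fin (L + 1)) (Finset.mem_univ _)]
  · congr 1
    apply cls_congr
    apply V.img_congr
    congr 1
    apply LinearMap.ext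
    intro x
    rw [hp_apply]
    rw [Finset.sum_eq_single_of_mem w₀]
    · simp only [Finset.mem_filter, Finset.mem_univ, true_and]
      exact Function.minimalPeriod_eq_one_iff_isFixedPt.2 hw₀
    · intro w hw hne
      have h2 : s w = w := by
        have : per w = 1 := by simpa only [Finset.mem_filter, Finset.mem_univ, true_and] using hw
        exact Function.minimalPeriod_eq_one_iff_isFixedPt.1 this
      rw [hfix w h2 hne]; rfl
  · intro i _ hi
    apply hzero i
    intro h
    exact hi (Fin.ext h)

end Pool.Agent.Rep463
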