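import Mathlib
/-! Multidegree decomposition of `⋀^k (X^k)` and its middle piece `X^{⊗k}`. -/
namespace Pool.Agent.Rep463.Rep463W
open scoped TensorProduct
open Finset

variable {R : Type*} [CommRing R] {X : Type*} [AddCommGroup X] [Module R X]

/-- the cyclic rotation of `Fin k → X`: `(rot x) i = x (i - 1)` (`finRotate k i = i + 1`) -/
def rot (R : Type*) [CommRing R] (X : Type*) [AddCommGroup X] [Module R X] (k : ℕ) :
    (Fin k → X) →ₗ[R] (Fin k → X) :=
  LinearMap.funLeft R X (finRotate k).symm

/-- `f` applied in every coordinate -/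
def pw (k : ℕ) (f : X →ₗ[R] X) : (Fin k → X) →ₗ[R] (Fin k → X) :=
  LinearMap.pi (fun i => f ∘ₗ LinearMap.proj i)

/-- the multidegree of a word -/
def mdeg {k : ℕ} (b : Fin k → Fin k) : Fin k → Fin (k + 1) := fun i =>
  ⟨(univ.filter (fun l => b l = i)).card, Nat.lt_succ_of_le (by
    simpa using Finset.card_le_univ (univ.filter (fun l => b l = i)))⟩

/-- the map `X^{⊗k} → ⋀^k (X^k)`, `x_0 ⊗ ... ⊗ x_{k-1} ↦ (x_0 at 0) ∧ ... ∧ (x_{k-1} at k-1)`. -/
noncomputable def jmap (R : Type*) [CommRing R] (X : Type*) [AddCommGroup X] [Module R X] (k : ℕ) :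
    (⨂[R] (_ : Fin k), X) →ₗ[R] ⋀[R]^k (Fin k → X) :=
  PiTensorProduct.lift
    ((exteriorPower.ιMulti R k).toMultilinearMap.compLinearMap
      (fun i => LinearMap.single R (fun _ : Fin k => X) i))

theorem j2480_ext {N : Type*} [AddCommGroup N] [Module R N] {k : ℕ}
    {F H : ⋀[R]^k (Fin k → X) →ₗ[R] N}
    (h : ∀ (b : Fin k → Fin k) (x : Fin k → X),
      F (exteriorPower.ιMulti R k (fun l => Pi.single (b l) (x l))) =
        H (exteriorPower.ιMulti R k (fun l => Pi.single (b l) (x l)))) : F = H := by
  have hs : Submodule.span R {v : Fin k → X | ∃ i x, v = Pi.single i x} = ⊤ := by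
    rw [eq_top_iff]
    intro v _
    rw [← Finset.univ_sum_single v]
    exact Submodule.sum_mem _ fun i _ => Submodule.subset_span ⟨i, v i, rfl⟩
  have hspan := exteriorPower.ιMulti_span_of_span R k _ hs
  apply LinearMap.ext_on hspan
  rintro _ ⟨a, ha, rfl⟩
  have ha' : ∀ l, ∃ i x, a l = Pi.single i x := fun l => ha (Set.mem_range_self l)
  choose b x hbx using ha'
  have : a = fun l => Pi.single (b l) (x l) := funext hbx
  rw [this]
  exact h b x

theorem j2480_mdeg_perm {k : ℕ} (a : Fin k → Fin k) (e : Equiv.Perm (Fin k)) :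
    mdeg (a ∘ e) = mdeg a := by
  funext i
  apply Fin.ext
  simp only [mdeg, Function.comp_apply]
  apply Finset.card_bij (fun l _ => e l)
  · intro l hl
    simpa using hl
  · intro l _ l' _ h
    exact e.injective h
  · intro l hl
    refine ⟨e.symm l, ?_, by simp⟩
    simpa using hl

/-- the multilinear map of one word -/
noncomputable def j2480M (R : Type*) [CommRing R] (X : Type*) [AddCommGroup X] [Module R X]
    {k : ℕ} (a : Fin k → Fin k) :
    MultilinearMap R (fun _ : Fin k => (Fin k → X)) (⋀[R]^k (Fin k → X)) :=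
  (exteriorPower.ιMulti R k).toMultilinearMap.compLinearMap
    (fun l => LinearMap.single R (fun _ : Fin k => X) (a l) ∘ₗ LinearMap.proj (a l))

theorem j2480M_apply {k : ℕ} (a : Fin k → Fin k) (f : Fin k → Fin k → X) :
    j2480M R X a f = exteriorPower.ιMulti R k (fun l => Pi.single (a l) (f l (a l))) := rfl

/-- the alternating map of one multidegree -/
noncomputable def j2480A (R : Type*) [CommRing R] (X : Type*) [AddCommGroup X] [Module R X]
    {k : ℕ} (w : Fin k → Fin (k + 1)) :
    (Fin k → X) [⋀^Fin k]→ₗ[R] ⋀[R]^k (Fin k → X) :=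
  { (∑ a ∈ univ.filter (fun a => mdeg a = w), j2480M R X a) with
    map_eq_zero_of_eq' := by
      intro v i j hij hne
      change (∑ a ∈ univ.filter (fun a => mdeg a = w), j2480M R X a) v = 0
      rw [_root_.sum_apply]
      apply Finset.sum_involution (fun a _ => a ∘ Equiv.swap i j)
      · intro a _
        rw [j2480M_apply, j2480M_apply]
        have hv : ∀ l, v l = v (Equiv.swap i j l) := by
          intro l
          by_cases h1 : l = i
          · rw [h1, Equiv.swap_apply_left, hij]
          · by_cases h2 : l = j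
            · rw [h2, Equiv.swap_apply_right, hij]
            · rw [Equiv.swap_apply_of_ne_of_ne h1 h2]
        have : (fun l => Pi.single ((a ∘ Equiv.swap i j) l) (v l ((a ∘ Equiv.swap i j) l)) :
            Fin k → Fin k → X) = (fun l => Pi.single (a l) (v l (a l))) ∘ Equiv.swap i j := by
          funext l
          simp only [Function.comp_apply]
          rw [← hv l]
        rw [this, AlternatingMap.map_swap _ _ hne, add_neg_cancel]
      · intro a _ hne0 heq
        apply hne0
        rw [j2480M_apply]
        apply AlternatingMap.map_eq_zero_of_eq _ _ _ hne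
        have h1 : a j = a i := by
          have := congrFun heq i
          simpa using this
        rw [h1, hij]
      · intro a ha
        rw [Finset.mem_filter] at ha ⊢
        exact ⟨mem_univ _, by rw [j2480_mdeg_perm]; exact ha.2⟩
      · intro a _
        funext l
        simp }

theorem j2480A_apply {k : ℕ} (w : Fin k → Fin (k + 1)) (f : Fin k → Fin k → X) :
    j2480A R X w f = ∑ a ∈ univ.filter (fun a => mdeg a = w),
      exteriorPower.ιMulti R k (fun l => Pi.single (a l) (f l (a l))) := by
  change (∑ a ∈ univ.filter (fun a => mdeg a = w), j2480M R X a) f = _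
  rw [_root_.sum_apply]
  rfl

/-- the projector -/
noncomputable def j2480P (R : Type*) [CommRing R] (X : Type*) [AddCommGroup X] [Module R X]
    (k : ℕ) (w : Fin k → Fin (k + 1)) : ⋀[R]^k (Fin k → X) →ₗ[R] ⋀[R]^k (Fin k → X) :=
  exteriorPower.alternatingMapLinearEquiv (j2480A R X w)

theorem j2480P_apply (k : ℕ) (w : Fin k → Fin (k + 1)) (b : Fin k → Fin k) (x : Fin k → X) :
    j2480P R X k w (exteriorPower.ιMulti R k (fun l => Pi.single (b l) (x l))) =
      if mdeg b = w then exteriorPower.ιMulti R k (fun l => Pi.single (b l) (x l)) else 0 := by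
  unfold j2480P
  rw [exteriorPower.alternatingMapLinearEquiv_apply_ιMulti, j2480A_apply]
  have hterm : ∀ a : Fin k → Fin k, a ≠ b →
      exteriorPower.ιMulti R k (fun l => (Pi.single (a l)
        ((Pi.single (b l) (x l) : Fin k → X) (a l)) : Fin k → X)) = 0 := by
    intro a hab
    obtain ⟨l, hl⟩ := Function.ne_iff.1 hab
    apply AlternatingMap.map_coord_zero (i := l)
    change (Pi.single (a l) ((Pi.single (b l) (x l) : Fin k → X) (a l)) : Fin k → X) = 0
    rw [Pi.single_eq_of_ne hl, Pi.single_zero]
  have hb : (fun l => (Pi.single (b l) ((Pi.single (b l) (x l) : Fin k → X) (b l)) :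
      Fin k → X)) = fun l => Pi.single (b l) (x l) := by
    funext l
    rw [Pi.single_eq_same]
  split_ifs with h
  · rw [Finset.sum_eq_single b]
    · rw [hb]
    · intro a _ hab
      exact hterm a hab
    · intro hn
      exfalso
      apply hn
      rw [Finset.mem_filter]
      exact ⟨mem_univ _, h⟩
  · apply Finset.sum_eq_zero
    intro a ha
    apply hterm
    rintro rfl
    exact h (Finset.mem_filter.1 ha).2

theorem j2480_pw_single (k : ℕ) (f : X →ₗ[R] X) (i : Fin k) (x : X) :
    pw k f (Pi.single i x) = Pi.single i (f x) := by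
  funext j
  simp only [pw, LinearMap.pi_apply, LinearMap.comp_apply, LinearMap.proj_apply]
  by_cases h : j = i
  · subst h
    simp
  · rw [Pi.single_eq_of_ne h, Pi.single_eq_of_ne h, map_zero]

theorem j2480_rot_single (k : ℕ) (i : Fin k) (x : X) :
    rot R X k (Pi.single i x) = Pi.single (finRotate k i) x := by
  funext j
  simp only [rot, LinearMap.funLeft_apply]
  by_cases h : j = finRotate k i
  · subst h
    rw [Equiv.symm_apply_apply, Pi.single_eq_same, Pi.single_eq_same]
  · rw [Pi.single_eq_of_ne h, Pi.single_eq_of_ne]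
    intro h'
    apply h
    rw [← h', Equiv.apply_symm_apply]

theorem j2480_map_pw (k : ℕ) (f : X →ₗ[R] X) (b : Fin k → Fin k) (x : Fin k → X) :
    exteriorPower.map k (pw k f) (exteriorPower.ιMulti R k (fun l => Pi.single (b l) (x l))) =
      exteriorPower.ιMulti R k (fun l => Pi.single (b l) (f (x l))) := by
  rw [exteriorPower.map_apply_ιMulti]
  congr 1
  funext l
  exact j2480_pw_single k f _ _

theorem j2480_map_rot (k : ℕ) (b : Fin k → Fin k) (x : Fin k → X) :
    exteriorPower.map k (rot R X k) (exteriorPower.ιMulti R k (fun l => Pi.single (b l) (x l))) =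
      exteriorPower.ιMulti R k (fun l => Pi.single (finRotate k (b l)) (x l)) := by
  rw [exteriorPower.map_apply_ιMulti]
  congr 1
  funext l
  exact j2480_rot_single k _ _

theorem j2480_mdeg_rot {k : ℕ} (b : Fin k → Fin k) (i : Fin k) :
    mdeg (fun l => finRotate k (b l)) i = mdeg b ((finRotate k).symm i) := by
  apply Fin.ext
  simp only [mdeg]
  congr 1
  apply Finset.filter_congr
  intro l _
  rw [Equiv.eq_symm_apply]

theorem j2480_sum_mdeg {k : ℕ} (b : Fin k → Fin k) : ∑ i, (mdeg b i : ℕ) = k := by
  simp only [mdeg]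
  have := Finset.card_eq_sum_card_fiberwise (f := b) (s := univ) (t := univ)
    (fun _ _ => Finset.mem_coe.2 (mem_univ _))
  rw [Finset.card_univ, Fintype.card_fin] at this
  exact this.symm

theorem j2480_const {k : ℕ} (b : Fin k → Fin k)
    (h : ∀ i, mdeg b ((finRotate k).symm i) = mdeg b i) : mdeg b = fun _ => 1 := by
  cases k with
  | zero =>
    funext i
    exact i.elim0
  | succ n =>
    have h1 : ∀ i : Fin (n + 1), mdeg b (i + 1) = mdeg b i := by
      intro i
      have := h (finRotate (n + 1) i)
      rw [Equiv.symm_apply_apply, finRotate_apply] at this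
      exact this.symm
    have h2 : ∀ i : Fin (n + 1), mdeg b i = mdeg b 0 := by
      intro i
      induction i using Fin.induction with
      | zero => rfl
      | succ i ih =>
        rw [← ih, ← h1 i.castSucc, Fin.coeSucc_eq_succ]
    have h3 := j2480_sum_mdeg b
    rw [Finset.sum_congr rfl (fun i _ => congrArg Fin.val (h2 i)), Finset.sum_const,
      Finset.card_univ, Fintype.card_fin, smul_eq_mul] at h3
    have h4 : (mdeg b 0 : ℕ) = 1 := by
      have : (n + 1) * (mdeg b 0 : ℕ) = (n + 1) * 1 := by rw [mul_one]; exact h3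
      exact Nat.eq_of_mul_eq_mul_left (Nat.succ_pos n) this
    funext i
    rw [h2 i]
    apply Fin.ext
    rw [h4]
    rfl

theorem j2480_bij {k : ℕ} (b : Fin k → Fin k) (h : mdeg b = fun _ => 1) :
    Function.Bijective b := by
  rw [← Finite.surjective_iff_bijective]
  intro i
  cases k with
  | zero => exact i.elim0
  | succ n =>
    have h1 := congrArg Fin.val (congrFun h i)
    have h2 : ((1 : Fin (n + 1 + 1)) : ℕ) = 1 := rfl
    simp only [h2, mdeg] at h1
    have h3 : 0 < (univ.filter (fun l => b l = i)).card := by omega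
    obtain ⟨l, hl⟩ := Finset.card_pos.1 h3
    exact ⟨l, (Finset.mem_filter.1 hl).2⟩

theorem j2480_mdeg_id (k : ℕ) : mdeg (fun l : Fin k => l) = fun _ => 1 := by
  funext i
  cases k with
  | zero => exact i.elim0
  | succ n =>
    apply Fin.ext
    simp only [mdeg]
    have h2 : ((1 : Fin (n + 1 + 1)) : ℕ) = 1 := rfl
    rw [h2, Finset.filter_eq']
    simp

theorem j2480_jmap_tprod (k : ℕ) (x : Fin k → X) :
    jmap R X k (PiTensorProduct.tprod R x) =
      exteriorPower.ιMulti R k (fun l => Pi.single l (x l)) := by
  unfold jmap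
  rw [PiTensorProduct.lift.tprod]
  rfl

theorem j2480_perm (k : ℕ) (e : Equiv.Perm (Fin k)) (x : Fin k → X) :
    exteriorPower.ιMulti R k (fun l => (Pi.single (e l) (x l) : Fin k → X)) =
      Equiv.Perm.sign e • exteriorPower.ιMulti R k
        (fun l => (Pi.single l (x (e.symm l)) : Fin k → X)) := by
  rw [← AlternatingMap.map_perm]
  congr 1
  funext l
  simp

/-- There are projectors `π w` on `⋀^k (X^k)`, one for every multidegree, acting on homogeneous
wedges in the obvious way. -/
theorem exists_proj (R : Type*) [CommRing R] (X : Type*) [AddCommGroup X] [Module R X] (k : ℕ) :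
    ∃ π : (Fin k → Fin (k + 1)) → (⋀[R]^k (Fin k → X) →ₗ[R] ⋀[R]^k (Fin k → X)),
      (∀ (w : Fin k → Fin (k + 1)) (b : Fin k → Fin k) (x : Fin k → X),
        π w (exteriorPower.ιMulti R k (fun l => Pi.single (b l) (x l))) =
          if mdeg b = w then exteriorPower.ιMulti R k (fun l => Pi.single (b l) (x l)) else 0) ∧
      (∑ w, π w = LinearMap.id) ∧
      (∀ w, π w ∘ₗ π w = π w) ∧ (∀ w w', w ≠ w' → π w ∘ₗ π w' = 0) ∧
      (∀ (f : X →ₗ[R] X) w, π w ∘ₗ exteriorPower.map k (pw k f) =
        exteriorPower.map k (pw k f) ∘ₗ π w) ∧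
      (∀ w, exteriorPower.map k (rot R X k) ∘ₗ π w =
        π (fun i => w ((finRotate k).symm i)) ∘ₗ exteriorPower.map k (rot R X k)) ∧
      (∀ w, (∀ i, w ((finRotate k).symm i) = w i) → w ≠ (fun _ => 1) → π w = 0) ∧
      (LinearMap.range (π (fun _ => 1)) = LinearMap.range (jmap R X k)) := by
  refine ⟨j2480P R X k, j2480P_apply k, ?_, ?_, ?_, ?_, ?_, ?_, ?_⟩
  · apply j2480_ext
    intro b x
    rw [LinearMap.sum_apply]
    simp only [j2480P_apply, LinearMap.id_apply]
    rw [Finset.sum_ite_eq]
    simp
  · intro w
    apply j2480_ext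
    intro b x
    rw [LinearMap.comp_apply, j2480P_apply]
    split_ifs with h
    · rw [j2480P_apply, if_pos h]
    · rw [map_zero]
  · intro w w' hww
    apply j2480_ext
    intro b x
    rw [LinearMap.comp_apply, j2480P_apply, LinearMap.zero_apply]
    split_ifs with h
    · rw [j2480P_apply, if_neg]
      rintro rfl
      exact hww h.symm.symm
    · rw [map_zero]
  · intro f w
    apply j2480_ext
    intro b x
    rw [LinearMap.comp_apply, LinearMap.comp_apply, j2480_map_pw, j2480P_apply, j2480P_apply]
    split_ifs with h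
    · rw [j2480_map_pw]
    · rw [map_zero]
  · intro w
    apply j2480_ext
    intro b x
    rw [LinearMap.comp_apply, LinearMap.comp_apply, j2480_map_rot, j2480P_apply]
    have h1 := j2480P_apply (R := R) (X := X) k (fun i => w ((finRotate k).symm i))
      (fun l => finRotate k (b l)) x
    rw [h1]
    have hiff : (mdeg (fun l => finRotate k (b l)) = fun i => w ((finRotate k).symm i)) ↔
        mdeg b = w := by
      constructor
      · intro h
        funext i
        have := congrFun h (finRotate k i)
        rw [j2480_mdeg_rot, Equiv.symm_apply_apply] at this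
        exact this
      · intro h
        funext i
        rw [j2480_mdeg_rot, h]
    by_cases h : mdeg b = w
    · rw [if_pos h, if_pos (hiff.2 h), j2480_map_rot]
    · rw [if_neg h, if_neg (fun h' => h (hiff.1 h')), map_zero]
  · intro w hw hne
    apply j2480_ext
    intro b x
    rw [j2480P_apply, LinearMap.zero_apply, if_neg]
    rintro rfl
    exact hne (j2480_const b hw)
  · apply le_antisymm
    · have h0 : (LinearMap.range (jmap R X k)).mkQ ∘ₗ j2480P R X k (fun _ => 1) = 0 := by
        apply j2480_ext
        intro b x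
        rw [LinearMap.comp_apply, j2480P_apply, LinearMap.zero_apply]
        split_ifs with h
        · rw [Submodule.mkQ_apply, Submodule.Quotient.mk_eq_zero]
          have hb := j2480_bij b h
          have h1 := j2480_perm (R := R) (X := X) k (Equiv.ofBijective b hb) x
          simp only [Equiv.ofBijective_apply] at h1
          rw [h1, ← j2480_jmap_tprod]
          exact Submodule.smul_of_tower_mem _ _ (LinearMap.mem_range_self _ _)
        · rw [map_zero]
      rw [← Submodule.ker_mkQ (LinearMap.range (jmap R X k))]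
      exact LinearMap.range_le_ker_iff.2 h0
    · have h0 : j2480P R X k (fun _ => 1) ∘ₗ jmap R X k = jmap R X k := by
        apply PiTensorProduct.ext
        ext x
        simp only [LinearMap.compMultilinearMap_apply, LinearMap.comp_apply]
        rw [j2480_jmap_tprod, j2480P_apply (b := fun l => l), if_pos (j2480_mdeg_id k)]
      rw [← h0]
      exact LinearMap.range_comp_le_range _ _

/-- left inverse of `jmap` -/
noncomputable def j2480R (R : Type*) [CommRing R] (X : Type*) [AddCommGroup X] [Module R X]
    (k : ℕ) : ⋀[R]^k (Fin k → X) →ₗ[R] (⨂[R] (_ : Fin k), X) :=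
  exteriorPower.alternatingMapLinearEquiv (MultilinearMap.alternatization
    ((PiTensorProduct.tprod R).compLinearMap
      (fun i => (LinearMap.proj i : (Fin k → X) →ₗ[R] X))))

theorem jmap_injective (R : Type*) [CommRing R] (X : Type*) [AddCommGroup X] [Module R X] (k : ℕ) :
    Function.Injective (jmap R X k) := by
  have h : j2480R R X k ∘ₗ jmap R X k = LinearMap.id := by
    apply PiTensorProduct.ext
    ext x
    simp only [LinearMap.compMultilinearMap_apply, LinearMap.comp_apply, LinearMap.id_apply]
    rw [j2480_jmap_tprod, j2480R, exteriorPower.alternatingMapLinearEquiv_apply_ιMulti,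
      MultilinearMap.alternatization_apply]
    rw [Finset.sum_eq_single (1 : Equiv.Perm (Fin k))]
    · rw [Equiv.Perm.sign_one, one_smul]
      change (PiTensorProduct.tprod R) (fun i => (Pi.single ((1 : Equiv.Perm (Fin k)) i)
        (x ((1 : Equiv.Perm (Fin k)) i)) : Fin k → X) i) = _
      congr 1
      funext i
      simp
    · intro σ _ hσ
      have : ∃ i, σ i ≠ i := by
        by_contra hc
        push Not at hc
        exact hσ (Equiv.ext hc)
      obtain ⟨i, hi⟩ := this
      change Equiv.Perm.sign σ • (PiTensorProduct.tprod R) (fun i => (Pi.single (σ i)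
        (x (σ i)) : Fin k → X) i) = 0
      have h0 : (PiTensorProduct.tprod R) (fun i => (Pi.single (σ i)
        (x (σ i)) : Fin k → X) i) = 0 :=
        MultilinearMap.map_coord_zero _ i (Pi.single_eq_of_ne (Ne.symm hi) _)
      rw [h0, Units.smul_def, zsmul_zero]
    · intro hn
      exact absurd (mem_univ _) hn
  intro a b hab
  have := congrArg (j2480R R X k) hab
  rw [← LinearMap.comp_apply, ← LinearMap.comp_apply, h] at this
  exact this

theorem jmap_map (k : ℕ) (f : X →ₗ[R] X) (x : ⨂[R] (_ : Fin k), X) :
    jmap R X k (PiTensorProduct.map (fun _ => f) x) =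
      exteriorPower.map k (pw k f) (jmap R X k x) := by
  have h : jmap R X k ∘ₗ PiTensorProduct.map (fun _ => f) =
      exteriorPower.map k (pw k f) ∘ₗ jmap R X k := by
    apply PiTensorProduct.ext
    ext x
    simp only [LinearMap.compMultilinearMap_apply, LinearMap.comp_apply]
    rw [PiTensorProduct.map_tprod, j2480_jmap_tprod, j2480_jmap_tprod,
      j2480_map_pw k f (fun l => l)]
  exact LinearMap.congr_fun h x

theorem jmap_rot (k : ℕ) (hk : 0 < k) (x : ⨂[R] (_ : Fin k), X) :
    exteriorPower.map k (rot R X k) (jmap R X k x) =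
      (-1 : R) ^ (k - 1) • jmap R X k (PiTensorProduct.reindex R (fun _ => X) (finRotate k) x) := by
  have h : exteriorPower.map k (rot R X k) ∘ₗ jmap R X k =
      (-1 : R) ^ (k - 1) • (jmap R X k ∘ₗ
        (PiTensorProduct.reindex R (fun _ => X) (finRotate k)).toLinearMap) := by
    apply PiTensorProduct.ext
    ext x
    simp only [LinearMap.compMultilinearMap_apply, LinearMap.comp_apply, LinearMap.smul_apply,
      LinearEquiv.coe_coe]
    rw [j2480_jmap_tprod, j2480_map_rot k (fun l => l), j2480_perm]
    have h1 : PiTensorProduct.reindex R (fun _ => X) (finRotate k) (PiTensorProduct.tprod R x) =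
        PiTensorProduct.tprod R (fun l => x ((finRotate k).symm l)) :=
      PiTensorProduct.reindex_tprod _ _
    rw [h1, j2480_jmap_tprod]
    obtain ⟨n, rfl⟩ : ∃ n, k = n + 1 := ⟨k - 1, by omega⟩
    rw [sign_finRotate, Nat.add_sub_cancel]
    rcases Nat.even_or_odd n with hn | hn
    · rw [hn.neg_one_pow, hn.neg_one_pow, one_smul, one_smul]
    · rw [hn.neg_one_pow, hn.neg_one_pow, neg_smul, one_smul]
      rw [Units.neg_smul, one_smul]
  exact LinearMap.congr_fun h x

end Pool.Agent.Rep463.Rep463W
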