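import Mathlib
import Pool.Agent.Rep463.Hom
import Pool.Agent.Rep463.Img
import Pool.Agent.Rep463.ExtProd
import Pool.Agent.Rep463.Wedge

/-!
# Exterior powers in the Grothendieck ring
-/

namespace Pool.Agent.Rep463

open scoped TensorProduct
open Finset

universe u v w

variable {S : Type u} [CommRing S] {Γ : Type v}

/-- Exterior power. -/
@[reducible] noncomputable def OpMod.ext (X : OpMod S Γ) (k : ℕ) : OpMod S Γ where
  carrier := ⋀[S]^k X
  op g := exteriorPower.map k (X.op g)

instance (X : OpMod S Γ) [Module.Finite S X] (k : ℕ) : Module.Finite S (X.ext k) :=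
  exteriorPower.instFinite

theorem OpMod.ext_congr {X Y : OpMod S Γ} (h : X.Iso Y) (k : ℕ) : (X.ext k).Iso (Y.ext k) := by
  obtain ⟨e, he⟩ := h
  have h1 : ∀ x, exteriorPower.map k e.symm.toLinearMap (exteriorPower.map k e.toLinearMap x) = x := by
    intro x
    rw [← LinearMap.comp_apply, ← exteriorPower.map_comp]
    simp
  have h2 : ∀ x, exteriorPower.map k e.toLinearMap (exteriorPower.map k e.symm.toLinearMap x) = x := by
    intro x
    rw [← LinearMap.comp_apply, ← exteriorPower.map_comp]
    simp
  refine ⟨
    { toFun := exteriorPower.map k e.toLinearMap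
      map_add' := map_add _
      map_smul' := map_smul _
      invFun := exteriorPower.map k e.symm.toLinearMap
      left_inv := h1
      right_inv := h2 }, fun g x => ?_⟩
  show exteriorPower.map k e.toLinearMap (exteriorPower.map k (X.op g) x) =
    exteriorPower.map k (Y.op g) (exteriorPower.map k e.toLinearMap x)
  rw [← LinearMap.comp_apply, ← exteriorPower.map_comp, ← LinearMap.comp_apply,
    ← exteriorPower.map_comp]
  congr 2
  apply LinearMap.ext
  intro y
  exact he g y

/-- `λ_t(X) = Σ [Λ^k X] t^k`. -/
noncomputable def lam (X : OpMod S Γ) [Module.Finite S X] : PowerSeries (GA S Γ) :=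
  PowerSeries.mk fun k => cls (X.ext k)

@[simp] theorem coeff_lam (X : OpMod S Γ) [Module.Finite S X] (k : ℕ) :
    PowerSeries.coeff k (lam X) = cls (X.ext k) := PowerSeries.coeff_mk _ _

theorem lam_congr {X Y : OpMod S Γ} [Module.Finite S X] [Module.Finite S Y] (h : X.Iso Y) :
    lam X = lam Y := by
  ext k
  rw [coeff_lam, coeff_lam]
  exact cls_congr (OpMod.ext_congr h k)

/-- finite direct sums -/
@[reducible] def OpMod.pi {ι : Type} (X : ι → OpMod S Γ) : OpMod S Γ where
  carrier := (i : ι) → X i
  op g := LinearMap.pi fun i => (X i).op g ∘ₗ LinearMap.proj i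

instance {ι : Type} [Finite ι] (X : ι → OpMod S Γ) [∀ i, Module.Finite S (X i)] :
    Module.Finite S (OpMod.pi X) := by
  show Module.Finite S ((i : ι) → X i)
  infer_instance

theorem cls_pi_fin {n : ℕ} (X : Fin n → OpMod S Γ) [∀ i, Module.Finite S (X i)] :
    cls (OpMod.pi X) = ∑ i, cls (X i) := by
  induction n with
  | zero =>
    rw [Finset.univ_eq_empty, Finset.sum_empty]
    have : Subsingleton (OpMod.pi X) := ⟨fun a b => funext fun i => i.elim0⟩
    exact cls_of_subsingleton _
  | succ n ih =>
    rw [Fin.sum_univ_succ, ← ih, ← cls_sum]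
    apply cls_congr
    refine ⟨
      { toFun := fun x => (x 0, fun i => x i.succ)
        map_add' := fun _ _ => rfl
        map_smul' := fun _ _ => rfl
        invFun := fun z => Fin.cons (α := fun i => (X i).carrier) z.1 z.2
        left_inv := fun x => by
          funext i
          refine Fin.cases rfl (fun j => rfl) i
        right_inv := fun z => rfl }, fun g x => rfl⟩

theorem cls_pi {ι : Type} [Fintype ι] (X : ι → OpMod S Γ) [∀ i, Module.Finite S (X i)] :
    cls (OpMod.pi X) = ∑ i, cls (X i) := by
  let e := Fintype.equivFin ι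
  have h1 : cls (OpMod.pi X) = cls (OpMod.pi fun j => X (e.symm j)) := by
    apply cls_congr
    exact ⟨LinearEquiv.piCongrLeft' S (fun i => (X i).carrier) e, fun g x => rfl⟩
  rw [h1, cls_pi_fin]
  exact Equiv.sum_comp e.symm (fun i => cls (X i))

theorem lam_sum (X Y : OpMod S Γ) [Module.Finite S X] [Module.Finite S Y] :
    lam (X.sum Y) = lam X * lam Y := by
  ext m
  rw [PowerSeries.coeff_mul, coeff_lam]
  obtain ⟨e, he⟩ := Rep463P.exteriorPower_prod (R := S) (X := X) (Y := Y) m
  have h1 : cls ((X.sum Y).ext m) =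
      cls (OpMod.pi fun ij : Finset.HasAntidiagonal.antidiagonal m =>
        (X.ext ij.1.1).tensor (Y.ext ij.1.2)) := by
    apply cls_congr
    refine ⟨e, fun g x => ?_⟩
    funext ij
    exact he (X.op g) (Y.op g) x ij
  rw [h1, cls_pi]
  simp only [cls_tensor, coeff_lam]
  exact Finset.sum_coe_sort (Finset.HasAntidiagonal.antidiagonal m)
    (fun ij => cls (X.ext ij.1) * cls (Y.ext ij.2))

theorem cls_ext_zero (X : OpMod S Γ) [Module.Finite S X] : cls (X.ext 0) = 1 := by
  rw [← cls_unit]
  apply cls_congr
  refine ⟨exteriorPower.zeroEquiv S X, fun g x => ?_⟩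
  exact DFunLike.congr_fun (exteriorPower.zeroEquiv_naturality (X.op g)) x

theorem cls_ext_one (X : OpMod S Γ) [Module.Finite S X] : cls (X.ext 1) = cls X := by
  apply cls_congr
  refine ⟨exteriorPower.oneEquiv S X, fun g x => ?_⟩
  exact DFunLike.congr_fun (exteriorPower.oneEquiv_naturality (X.op g)) x

theorem cls_tw (X : OpMod S Γ) [Module.Finite S X] (c : S) :
    cls (X.tw c) = chi Γ c * incl (cls X) := by
  rw [incl_cls, ← cls_twist]
  apply cls_congr
  refine ⟨LinearEquiv.refl S X, fun g => ?_⟩
  cases g <;> intro x <;> rfl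

theorem map_smul_id (X : OpMod S Γ) (k : ℕ) (c : S) :
    exteriorPower.map k (c • (LinearMap.id : X →ₗ[S] X)) = c ^ k • LinearMap.id := by
  apply exteriorPower.linearMap_ext
  ext x
  simp only [LinearMap.compAlternatingMap_apply, exteriorPower.map_apply_ιMulti]
  have : ((c • (LinearMap.id : X →ₗ[S] X)) ∘ x : Fin k → X) = fun i => c • x i := by
    funext i; rfl
  rw [this]
  have h := (exteriorPower.ιMulti S k (M := X)).map_smul_univ (fun _ => c) x
  simp only [Finset.prod_const, Finset.card_univ, Fintype.card_fin] at h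
  rw [h]
  rfl

theorem cls_ext_tw (X : OpMod S Γ) [Module.Finite S X] (c : S) (k : ℕ) :
    cls ((X.tw c).ext k) = chi Γ c ^ k * incl (cls (X.ext k)) := by
  rw [← chi_pow, ← cls_tw]
  apply cls_congr
  refine ⟨LinearEquiv.refl S (⋀[S]^k X), fun g => ?_⟩
  cases g with
  | none =>
    intro x
    show exteriorPower.map k (c • (LinearMap.id : X →ₗ[S] X)) x = (c ^ k • LinearMap.id) x
    rw [map_smul_id]
  | some g => intro x; rfl

theorem lam_tw (X : OpMod S Γ) [Module.Finite S X] (c : S) :
    lam (X.tw c) = PowerSeries.rescale (chi Γ c) (PowerSeries.map incl (lam X)) := by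
  ext k
  rw [coeff_lam, PowerSeries.coeff_rescale, PowerSeries.coeff_map, coeff_lam, cls_ext_tw]

/-- `X^k` with the operator `diag(c_i)` -/
@[reducible] def OpMod.diag (X : OpMod S Γ) {k : ℕ} (c : Fin k → S) : OpMod S (Option Γ) :=
  OpMod.pi (fun i => X.tw (c i))

theorem lam_pi_fin {n : ℕ} (X : Fin n → OpMod S Γ) [∀ i, Module.Finite S (X i)] :
    lam (OpMod.pi X) = ∏ i, lam (X i) := by
  induction n with
  | zero =>
    rw [Finset.univ_eq_empty, Finset.prod_empty]
    have h0 : Subsingleton (OpMod.pi X) := ⟨fun a b => funext fun i => i.elim0⟩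
    ext k
    rw [coeff_lam, PowerSeries.coeff_one]
    split_ifs with hk
    · subst hk; exact cls_ext_zero _
    · have : Subsingleton ((OpMod.pi X).ext k) := by
        apply (Submodule.subsingleton_iff S).1
        apply subsingleton_of_bot_eq_top
        symm
        have h1 := exteriorPower.ιMulti_span S k (OpMod.pi X)
        refine Eq.trans h1.symm ?_
        rw [Submodule.span_eq_bot]
        rintro _ ⟨x, rfl⟩
        have hx : x ⟨0, Nat.pos_of_ne_zero hk⟩ = 0 := Subsingleton.elim _ _
        exact (exteriorPower.ιMulti S k).map_coord_zero _ hx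
      exact cls_of_subsingleton _
  | succ n ih =>
    rw [Fin.prod_univ_succ, ← ih, ← lam_sum]
    apply lam_congr
    refine ⟨
      { toFun := fun x => (x 0, fun i => x i.succ)
        map_add' := fun _ _ => rfl
        map_smul' := fun _ _ => rfl
        invFun := fun z => Fin.cons (α := fun i => (X i).carrier) z.1 z.2
        left_inv := fun x => by
          funext i
          refine Fin.cases rfl (fun j => rfl) i
        right_inv := fun z => rfl }, fun g x => rfl⟩

end Pool.Agent.Rep463
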