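import Mathlib
/-! `X^{⊗k} ⊗ Y^{⊗k} ≃ (X ⊗ Y)^{⊗k}` for free modules of finite rank, with permutations. -/
namespace Pool.Agent.Rep463.Rep463F2
open scoped TensorProduct

theorem exists_tprod_tensor {R : Type*} [CommRing R] {X Y : Type*} [AddCommGroup X] [Module R X]
    [AddCommGroup Y] [Module R Y] [Module.Free R X] [Module.Finite R X] [Module.Free R Y]
    [Module.Finite R Y] (k : ℕ) :
    ∃ e : ((⨂[R] (_ : Fin k), X) ⊗[R] (⨂[R] (_ : Fin k), Y)) ≃ₗ[R] (⨂[R] (_ : Fin k), (X ⊗[R] Y)),
      (∀ (f : X →ₗ[R] X) (g : Y →ₗ[R] Y) (z : (⨂[R] (_ : Fin k), X) ⊗[R] (⨂[R] (_ : Fin k), Y)),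
        e (TensorProduct.map (PiTensorProduct.map (fun _ => f)) (PiTensorProduct.map (fun _ => g)) z) =
          PiTensorProduct.map (fun _ => TensorProduct.map f g) (e z)) ∧
      (∀ (ρ : Equiv.Perm (Fin k)) (z : (⨂[R] (_ : Fin k), X) ⊗[R] (⨂[R] (_ : Fin k), Y)),
        e (TensorProduct.map (PiTensorProduct.reindex R (fun _ => X) ρ).toLinearMap
            (PiTensorProduct.reindex R (fun _ => Y) ρ).toLinearMap z) =
          PiTensorProduct.reindex R (fun _ => X ⊗[R] Y) ρ (e z)) := by
  classical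
  set Φ : ((⨂[R] (_ : Fin k), X) ⊗[R] (⨂[R] (_ : Fin k), Y)) →ₗ[R] (⨂[R] (_ : Fin k), (X ⊗[R] Y)) :=
    TensorProduct.lift (PiTensorProduct.map₂ (fun _ => TensorProduct.mk R X Y)) with hΦ
  have hΦt : ∀ (x : Fin k → X) (y : Fin k → Y),
      Φ (PiTensorProduct.tprod R x ⊗ₜ[R] PiTensorProduct.tprod R y) =
        PiTensorProduct.tprod R fun i => x i ⊗ₜ[R] y i := by
    intro x y
    rw [hΦ, TensorProduct.lift.tmul, PiTensorProduct.map₂_tprod_tprod]
    rfl
  let b := Module.Free.chooseBasis R X
  let c := Module.Free.chooseBasis R Y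
  let B1 := ((Basis.piTensorProduct fun _ : Fin k => b).tensorProduct (Basis.piTensorProduct fun _ : Fin k => c))
  let B2 := (Basis.piTensorProduct fun _ : Fin k => b.tensorProduct c)
  let e := B1.equiv B2 (Equiv.arrowProdEquivProdArrow (Fin k) (fun _ => Module.Free.ChooseBasisIndex R X) (fun _ => Module.Free.ChooseBasisIndex R Y)).symm
  have he : ∀ z, e z = Φ z := by
    intro z
    have : (e : ((⨂[R] (_ : Fin k), X) ⊗[R] (⨂[R] (_ : Fin k), Y)) →ₗ[R] _) = Φ := by
      refine B1.ext fun pq => ?_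
      rw [LinearEquiv.coe_coe, Module.Basis.equiv_apply]
      simp only [B1, B2, Module.Basis.tensorProduct_apply', Basis.piTensorProduct_apply]
      rw [hΦt]
      rfl
    exact LinearMap.congr_fun this z
  refine ⟨e, ?_, ?_⟩
  · intro f g z
    rw [he, he]
    have : Φ ∘ₗ (TensorProduct.map (PiTensorProduct.map (fun _ => f)) (PiTensorProduct.map (fun _ => g))) =
        (PiTensorProduct.map (fun _ => TensorProduct.map f g)) ∘ₗ Φ := by
      ext x y
      simp only [LinearMap.compMultilinearMap_apply, LinearMap.coe_comp, Function.comp_apply,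
        TensorProduct.AlgebraTensorModule.curry_apply, TensorProduct.curry_apply, TensorProduct.map_tmul,
        PiTensorProduct.map_tprod, LinearMap.coe_restrictScalars]
      rw [hΦt, hΦt, PiTensorProduct.map_tprod]
      simp
    exact LinearMap.congr_fun this z
  · intro ρ z
    rw [he, he]
    have : Φ ∘ₗ (TensorProduct.map (PiTensorProduct.reindex R (fun _ => X) ρ).toLinearMap
            (PiTensorProduct.reindex R (fun _ => Y) ρ).toLinearMap) =
        (PiTensorProduct.reindex R (fun _ => X ⊗[R] Y) ρ).toLinearMap ∘ₗ Φ := by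
      ext x y
      simp only [LinearMap.compMultilinearMap_apply, LinearMap.coe_comp, Function.comp_apply,
        TensorProduct.AlgebraTensorModule.curry_apply, TensorProduct.curry_apply, TensorProduct.map_tmul,
        LinearMap.coe_restrictScalars, LinearEquiv.coe_coe]
      rw [hΦt, PiTensorProduct.reindex_tprod, PiTensorProduct.reindex_tprod, PiTensorProduct.reindex_tprod]
      exact hΦt _ _
    exact LinearMap.congr_fun this z

end Pool.Agent.Rep463.Rep463F2
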