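import Mathlib
import Pool.Agent.Rep463.Lambda
import Pool.Agent.Rep463.Endgame
import Pool.Agent.Rep463.Fourier
import Pool.Agent.Rep463.TPow

/-!
# The operations `θ_k`
-/

namespace Pool.Agent.Rep463

open scoped TensorProduct
open Finset

universe u v w

variable {S : Type u} [CommRing S] {Γ : Type v}

/-- `X^k` with coordinatewise operators and the cyclic rotation. -/
@[reducible] def OpMod.rpow (X : OpMod S Γ) (k : ℕ) : OpMod S (Option Γ) where
  carrier := Fin k → X
  op g := match g with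
    | none => Rep463W.rot S X k
    | some g => Rep463W.pw k (X.op g)

instance (X : OpMod S Γ) [Module.Finite S X] (k : ℕ) : Module.Finite S (X.rpow k) := by
  show Module.Finite S (Fin k → X)
  infer_instance

/-- `X^{⊗k}` with the cyclic rotation. -/
@[reducible] noncomputable def OpMod.tpow (X : OpMod S Γ) (k : ℕ) : OpMod S (Option Γ) where
  carrier := ⨂[S] (_ : Fin k), X
  op g := match g with
    | none => (PiTensorProduct.reindex S (fun _ => X.carrier) (finRotate k)).toLinearMap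
    | some g => PiTensorProduct.map (fun _ => X.op g)

instance (X : OpMod S Γ) [Module.Finite S X] (k : ℕ) : Module.Finite S (X.tpow k) := by
  show Module.Finite S (⨂[S] (_ : Fin k), X)
  infer_instance

theorem rpow_iso_diag (X : OpMod S Γ) {k : ℕ} (hk : 0 < k) (w : S) (hw : w ^ k = 1)
    (hu : ∀ a : ℕ, ¬ k ∣ a → IsUnit (1 - w ^ a)) :
    (X.rpow k).Iso (X.diag (fun i : Fin k => w ^ (i : ℕ))) := by
  obtain ⟨e, he1, he2⟩ := Rep463F1.exists_dft (R := S) (X := X) k hk w hw hu
  refine ⟨e, fun g => ?_⟩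
  cases g with
  | none => intro x; funext i; exact he2 x i
  | some g => intro x; exact he1 (X.op g) x

theorem cls_rpow_ext (X : OpMod S Γ) [Module.Finite S X] {k L : ℕ} (hk : 0 < k) (hL : 0 < L)
    (hkL : k ∣ L) (ζ : S) (hζ : ζ ^ L = 1) (hζ1 : ∀ a : ℕ, ¬ L ∣ a → IsUnit (1 - ζ ^ a)) :
    cls ((X.rpow k).ext k) =
      Rep463E.cyc (chi Γ ζ) L k (PowerSeries.map incl (lam X)) := by
  have hw : (ζ ^ (L / k)) ^ k = 1 := by rw [← pow_mul, Nat.div_mul_cancel hkL, hζ]
  have hu : ∀ a : ℕ, ¬ k ∣ a → IsUnit (1 - (ζ ^ (L / k)) ^ a) := by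
    intro a ha
    rw [← pow_mul]
    apply hζ1
    intro h
    apply ha
    have h1 : L / k * k ∣ L / k * a := by rwa [Nat.div_mul_cancel hkL]
    exact Nat.dvd_of_mul_dvd_mul_left (Nat.div_pos (Nat.le_of_dvd hL hkL) hk) h1
  rw [cls_congr (OpMod.ext_congr (rpow_iso_diag X hk _ hw hu) k), ← coeff_lam, lam_pi_fin]
  unfold Rep463E.cyc
  congr 1
  rw [← Fin.prod_univ_eq_prod_range
    (fun i => PowerSeries.rescale (chi Γ ζ ^ (L / k * i)) (PowerSeries.map incl (lam X))) k]
  refine Finset.prod_congr rfl fun i _ => ?_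
  rw [lam_tw]
  simp only [← pow_mul]
  rw [chi_pow]

theorem finRotate_iterate (k : ℕ) (i : Fin k) : (finRotate k)^[k] i = i := by
  obtain _ | k := k
  · exact i.elim0
  · have h : ∀ (j : ℕ) (i : Fin (k + 1)), (finRotate (k + 1))^[j] i = i + j • 1 := by
      intro j
      induction j with
      | zero => intro i; simp
      | succ j ih =>
        intro i
        rw [Function.iterate_succ_apply', ih, finRotate_apply, succ_nsmul, add_assoc]
    have h1 : (k + 1) • (1 : Fin (k + 1)) = 0 := by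
      have := card_nsmul_eq_zero (G := Fin (k + 1)) (x := 1)
      rwa [Fintype.card_fin] at this
    rw [h, h1, add_zero]

/-- rotation of multidegrees -/
def srot (k : ℕ) : Equiv.Perm (Fin k → Fin (k + 1)) :=
  Equiv.arrowCongr (finRotate k) (Equiv.refl _)

theorem srot_apply (k : ℕ) (w : Fin k → Fin (k + 1)) (i : Fin k) :
    srot k w i = w ((finRotate k).symm i) := rfl

theorem srot_period (k : ℕ) (w : Fin k → Fin (k + 1)) :
    Function.minimalPeriod (srot k) w ∣ k := by
  apply Function.IsPeriodicPt.minimalPeriod_dvd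
  show (srot k)^[k] w = w
  have h : ∀ (j : ℕ) (w : Fin k → Fin (k + 1)) (i : Fin k),
      (srot k)^[j] w ((finRotate k)^[j] i) = w i := by
    intro j
    induction j with
    | zero => intro w i; rfl
    | succ j ih =>
      intro w i
      rw [Function.iterate_succ_apply', Function.iterate_succ_apply', srot_apply,
        Equiv.symm_apply_apply, ih]
  funext i
  have := h k w i
  rwa [finRotate_iterate] at this

section B

variable {B : Type w} [CommRing B] (φ : GA S (Option Γ) →+* B) {ζ : S} {L : ℕ}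

theorem phi_chi_neg (hL : 0 < L) (hζ : ζ ^ L = 1)
    (hζ1 : ∀ a : ℕ, ¬ L ∣ a → IsUnit (1 - ζ ^ a))
    (nzd : ∀ a : ℕ, ¬ L ∣ a → ∀ x : B, (1 - φ (chi Γ ζ) ^ a) * x = 0 → x = 0)
    {k : ℕ} (hk : 0 < k) (hkL : k ∣ L) :
    φ (chi Γ ((-1) ^ (k - 1))) = (-1) ^ (k - 1) := by
  rcases Nat.even_or_odd k with hev | hodd
  · obtain ⟨m, hm⟩ := hev
    obtain ⟨c, hc⟩ := hkL
    have hL2 : L = 2 * (m * c) := by rw [hc, hm]; ring
    set h := m * c with hh
    have hnd : ¬ L ∣ h := by
      intro hd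
      have h0 : 0 < h := by omega
      have := Nat.le_of_dvd h0 hd
      omega
    have h1 : ζ ^ h = -1 := by
      have h2 : (1 - ζ ^ h) * (1 + ζ ^ h) = 0 := by
        have : (1 - ζ ^ h) * (1 + ζ ^ h) = 1 - ζ ^ (2 * h) := by ring
        rw [this, ← hL2, hζ, sub_self]
      have h3 := (hζ1 h hnd).mul_right_eq_zero.1 h2
      linear_combination h3
    have h4 : φ (chi Γ ζ) ^ h = -1 := by
      have h2 : (1 - φ (chi Γ ζ) ^ h) * (1 + φ (chi Γ ζ) ^ h) = 0 := by
        have : (1 - φ (chi Γ ζ) ^ h) * (1 + φ (chi Γ ζ) ^ h) = 1 - φ (chi Γ ζ) ^ (2 * h) := by ring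
        rw [this, ← hL2, ← map_pow, ← chi_pow, hζ, chi_one, map_one, sub_self]
      have h3 := nzd h hnd _ h2
      linear_combination h3
    rw [← h1, chi_pow, chi_pow, map_pow, map_pow, h4]
  · have : Even (k - 1) := by
      obtain ⟨m, hm⟩ := hodd
      exact ⟨m, by omega⟩
    rw [this.neg_one_pow, this.neg_one_pow, chi_one, map_one]

theorem phi_cls_rpow_ext (hL : 0 < L) (hζ : ζ ^ L = 1)
    (hζ1 : ∀ a : ℕ, ¬ L ∣ a → IsUnit (1 - ζ ^ a))
    (nzd : ∀ a : ℕ, ¬ L ∣ a → ∀ x : B, (1 - φ (chi Γ ζ) ^ a) * x = 0 → x = 0)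
    {k : ℕ} (hk : 0 < k) (hkL : k ∣ L) (X : OpMod S Γ) [Module.Finite S X] :
    φ (cls ((X.rpow k).ext k)) = (-1) ^ (k - 1) * φ (cls (X.tpow k)) := by
  classical
  obtain ⟨π, -, hsum, hpp, hpq, hΓ, hσ, hfix, hrange⟩ := Rep463W.exists_proj S X k
  have hπ : ∀ g x, π (fun _ => 1) (((X.rpow k).ext k).op g x) =
      ((X.rpow k).ext k).op g (π (fun _ => 1) x) := by
    intro g x
    cases g with
    | some g => exact DFunLike.congr_fun (hΓ (X.op g) (fun _ => 1)) x
    | none => exact (DFunLike.congr_fun (hσ (fun _ => 1)) x).symm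
  rw [cls_permuted φ ζ L hL hζ nzd ((X.rpow k).ext k) (srot k) π hpp hpq hsum
    (fun w g x => DFunLike.congr_fun (hΓ (X.op g) w) x)
    (fun w x => DFunLike.congr_fun (hσ w) x)
    (fun w => (srot_period k w).trans hkL) (fun _ => 1) rfl
    (fun w hw hne => hfix w (fun i => congrFun hw i) hne) hπ]
  have hiso : (((X.rpow k).ext k).img (π (fun _ => 1)) hπ).Iso
      ((X.tpow k).twist ((-1) ^ (k - 1))) := by
    apply OpMod.Iso.symm
    let e : (⨂[S] (_ : Fin k), X) ≃ₗ[S] LinearMap.range (π (fun _ => 1)) :=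
      (LinearEquiv.ofInjective _ (Rep463W.jmap_injective S X k)).trans
        (LinearEquiv.ofEq _ _ hrange.symm)
    have he : ∀ x, ((e x : LinearMap.range (π (fun _ => 1))) : ⋀[S]^k (Fin k → X)) =
      Rep463W.jmap S X k x := fun x => rfl
    refine ⟨e, fun g => ?_⟩
    cases g with
    | some g =>
      intro x
      apply Subtype.ext
      exact Rep463W.jmap_map k (X.op g) x
    | none =>
      intro x
      apply Subtype.ext
      have h1 := Rep463W.jmap_rot k hk x
      have h2 : (((-1 : S) ^ (k - 1)) • Rep463W.jmap S X k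
        (PiTensorProduct.reindex S (fun _ => X.carrier) (finRotate k) x)) =
          exteriorPower.map k (Rep463W.rot S X k) (Rep463W.jmap S X k x) := h1.symm
      show Rep463W.jmap S X k (((-1 : S) ^ (k - 1)) •
        (PiTensorProduct.reindex S (fun _ => X.carrier) (finRotate k) x)) =
          exteriorPower.map k (Rep463W.rot S X k) (Rep463W.jmap S X k x)
      rw [map_smul]
      exact h2
  rw [cls_congr hiso, cls_twist, map_mul, phi_chi_neg φ hL hζ hζ1 nzd hk hkL]

theorem tpow_tensor (X Y : OpMod S Γ) [Module.Free S X] [Module.Finite S X] [Module.Free S Y]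
    [Module.Finite S Y] (k : ℕ) : ((X.tpow k).tensor (Y.tpow k)).Iso ((X.tensor Y).tpow k) := by
  obtain ⟨e, he1, he2⟩ := Rep463F2.exists_tprod_tensor (R := S) (X := X) (Y := Y) k
  refine ⟨e, fun g => ?_⟩
  cases g with
  | none => intro x; exact he2 (finRotate k) x
  | some g => intro x; exact he1 (X.op g) (Y.op g) x

end B

end Pool.Agent.Rep463
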