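import Mathlib
/-! Artin-Rees: isomorphisms modulo all powers of a maximal ideal give an honest intertwiner
invertible modulo the maximal ideal. -/
namespace Pool.Agent.Rep463.Rep463AR

theorem aux_mem_of {R : Type*} [CommRing R] (I : Ideal R) {ι : Type*} [Fintype ι] [DecidableEq ι]
    (x : ι → R) (hx : ∀ i, x i ∈ I) : x ∈ I • (⊤ : Submodule R (ι → R)) := by
  have e : x = ∑ i, x i • (Pi.single i (1 : R) : ι → R) := by
    ext j
    simp [Finset.sum_apply, Pi.single_apply]
  rw [e]
  exact Submodule.sum_mem _ fun i _ => Submodule.smul_mem_smul (hx i) trivial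

theorem aux_of_mem {R : Type*} [CommRing R] (I : Ideal R) {ι : Type*}
    (x : ι → R) (hx : x ∈ I • (⊤ : Submodule R (ι → R))) (i : ι) : x i ∈ I := by
  refine Submodule.smul_induction_on hx ?_ ?_
  · intro r hr y _
    simp only [Pi.smul_apply, smul_eq_mul]
    exact I.mul_mem_right _ hr
  · intro y z hy hz
    exact I.add_mem hy hz

/-- the linear map -/
def dl {R : Type*} [CommRing R] {G : Type*} {n : ℕ} (A B : G → Matrix (Fin n) (Fin n) R) :
    (Fin n × Fin n → R) →ₗ[R] (G × Fin n × Fin n → R) where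
  toFun u p := (Matrix.of (fun i j => u (i, j)) * A p.1 - B p.1 * Matrix.of (fun i j => u (i, j)))
    p.2.1 p.2.2
  map_add' u v := by
    ext p
    have e : (Matrix.of (fun i j => (u + v) (i, j)) : Matrix (Fin n) (Fin n) R) =
      Matrix.of (fun i j => u (i, j)) + Matrix.of (fun i j => v (i, j)) := rfl
    rw [e, Matrix.add_mul, Matrix.mul_add]
    rw [Matrix.sub_apply, Matrix.add_apply, Matrix.add_apply, Pi.add_apply, Matrix.sub_apply,
      Matrix.sub_apply]
    ring
  map_smul' c u := by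
    ext p
    have e : (Matrix.of (fun i j => (c • u) (i, j)) : Matrix (Fin n) (Fin n) R) =
      c • Matrix.of (fun i j => u (i, j)) := rfl
    rw [e, Matrix.smul_mul, Matrix.mul_smul]
    rw [Matrix.sub_apply, Matrix.smul_apply, Matrix.smul_apply, Pi.smul_apply, Matrix.sub_apply,
      smul_eq_mul, smul_eq_mul, smul_eq_mul, RingHom.id_apply]
    ring

theorem exists_intertwiner {R : Type*} [CommRing R] [IsNoetherianRing R] (m : Ideal R)
    (hm : m.IsMaximal) {G : Type*} [Finite G] {n : ℕ} (A B : G → Matrix (Fin n) (Fin n) R)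
    (h : ∀ j : ℕ, 0 < j → ∃ U : Matrix (Fin n) (Fin n) (R ⧸ m ^ j), IsUnit U.det ∧
      ∀ g, U * (A g).map (Ideal.Quotient.mk (m ^ j)) = (B g).map (Ideal.Quotient.mk (m ^ j)) * U) :
    ∃ φ : Matrix (Fin n) (Fin n) R, (∀ g, φ * A g = B g * φ) ∧ φ.det ∉ m := by
  classical
  haveI := Fintype.ofFinite G
  obtain ⟨k, hk⟩ := Ideal.exists_pow_inf_eq_pow_smul m (LinearMap.range (dl A B))
  have hk1 := hk (k + 1) (by omega)
  obtain ⟨U, hU, hUi⟩ := h (k + 1) (by omega)
  have hlift : ∀ p : Fin n × Fin n, ∃ r : R, Ideal.Quotient.mk (m ^ (k + 1)) r = U p.1 p.2 :=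
    fun p => Ideal.Quotient.mk_surjective _
  choose u hu using hlift
  have huM : (Matrix.of (fun i j => u (i, j)) : Matrix (Fin n) (Fin n) R).map
      (Ideal.Quotient.mk (m ^ (k + 1))) = U := by
    ext i j
    exact hu (i, j)
  have h1 : dl A B u ∈ m ^ (k + 1) • (⊤ : Submodule R (G × Fin n × Fin n → R)) := by
    apply aux_mem_of
    rintro ⟨g, i, j⟩
    rw [← Ideal.Quotient.eq_zero_iff_mem]
    have e := congrFun (congrFun (hUi g) i) j
    rw [← huM] at e
    rw [← Matrix.map_mul, ← Matrix.map_mul] at e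
    have e2 : dl A B u (g, i, j) = ((Matrix.of (fun i j => u (i, j)) : Matrix (Fin n) (Fin n) R) *
      A g) i j - (B g * (Matrix.of (fun i j => u (i, j)) : Matrix (Fin n) (Fin n) R)) i j := rfl
    rw [e2, map_sub, sub_eq_zero]
    exact e
  have h2 : dl A B u ∈ m ^ (k + 1 - k) • (m ^ k • (⊤ : Submodule R (G × Fin n × Fin n → R)) ⊓
      LinearMap.range (dl A B)) := by
    rw [← hk1]
    exact ⟨h1, LinearMap.mem_range_self _ _⟩
  have h3 : dl A B u ∈ m • LinearMap.range (dl A B) := by
    have e : k + 1 - k = 1 := by omega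
    rw [e, pow_one] at h2
    exact (Submodule.smul_mono le_rfl inf_le_right) h2
  have h4 : dl A B u ∈ Submodule.map (dl A B) (m • (⊤ : Submodule R (Fin n × Fin n → R))) := by
    rw [Submodule.map_smul'', Submodule.map_top]
    exact h3
  obtain ⟨ψ, hψ, hψu⟩ := h4
  have hψm := aux_of_mem m ψ hψ
  have hz : dl A B (u - ψ) = 0 := by rw [map_sub, hψu, sub_self]
  refine ⟨Matrix.of (fun i j => (u - ψ) (i, j)), ?_, ?_⟩
  · intro g
    ext i j
    have := congrFun hz (g, i, j)
    have e2 : dl A B (u - ψ) (g, i, j) =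
      ((Matrix.of (fun i j => (u - ψ) (i, j)) : Matrix (Fin n) (Fin n) R) *
      A g) i j - (B g * (Matrix.of (fun i j => (u - ψ) (i, j)) : Matrix (Fin n) (Fin n) R)) i j := rfl
    rw [e2] at this
    exact sub_eq_zero.1 this
  · intro hdet
    rw [← Ideal.Quotient.eq_zero_iff_mem] at hdet
    have hle : m ^ (k + 1) ≤ m := Ideal.pow_le_self (by omega)
    have e1 : (Matrix.of (fun i j => (u - ψ) (i, j)) : Matrix (Fin n) (Fin n) R).map
        (Ideal.Quotient.mk m) = U.map (Ideal.Quotient.factor hle) := by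
      ext i j
      simp only [Matrix.map_apply, Matrix.of_apply, Pi.sub_apply, map_sub]
      rw [Ideal.Quotient.eq_zero_iff_mem.2 (hψm (i, j)), sub_zero, ← huM]
      simp only [Matrix.map_apply, Matrix.of_apply]
      rw [Ideal.Quotient.factor_mk]
    have e2 : Ideal.Quotient.mk m (Matrix.of (fun i j => (u - ψ) (i, j)) :
        Matrix (Fin n) (Fin n) R).det = Ideal.Quotient.factor hle U.det := by
      rw [RingHom.map_det, RingHom.map_det]
      exact congrArg Matrix.det e1
    rw [e2] at hdet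
    have hunit : IsUnit (Ideal.Quotient.factor hle U.det) := hU.map _
    rw [hdet] at hunit
    haveI : Nontrivial (R ⧸ m) := Ideal.Quotient.nontrivial_iff.2 hm.ne_top
    exact not_isUnit_zero hunit

end Pool.Agent.Rep463.Rep463AR
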