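import Mathlib
/-! Lovász-type cancellation: finite modules with operators are determined by Hom counts. -/
namespace Pool.Agent.Rep463.Rep463L
universe u v

/-- number of equivariant maps with a given kernel -/
noncomputable def FF {S : Type u} [CommRing S] {Γ : Type v}
    {Y : Type u} [AddCommGroup Y] [Module S Y] (b : Γ → Y →ₗ[S] Y)
    {X : Type u} [AddCommGroup X] [Module S X] (a : Γ → X →ₗ[S] X) (K : Submodule S Y) : ℕ :=
  Nat.card {x : {f : Y →ₗ[S] X // ∀ g y, f (b g y) = a g (f y)} // LinearMap.ker x.1 = K}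

theorem finite_linear {S : Type u} [CommRing S] {Y X : Type u} [AddCommGroup Y] [Module S Y]
    [AddCommGroup X] [Module S X] [Finite Y] [Finite X] : Finite (Y →ₗ[S] X) :=
  Finite.of_injective (fun f : Y →ₗ[S] X => (f : Y → X)) DFunLike.coe_injective

theorem finite_submodule {S : Type u} [CommRing S] {Y : Type u} [AddCommGroup Y] [Module S Y]
    [Finite Y] : Finite (Submodule S Y) :=
  Finite.of_injective (fun K : Submodule S Y => (K : Set Y)) SetLike.coe_injective

theorem hom_eq_sum {S : Type u} [CommRing S] {Γ : Type v}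
    {Y : Type u} [AddCommGroup Y] [Module S Y] [Finite Y] (b : Γ → Y →ₗ[S] Y)
    {X : Type u} [AddCommGroup X] [Module S X] [Finite X] (a : Γ → X →ₗ[S] X)
    [Fintype (Submodule S Y)] :
    Nat.card {f : Y →ₗ[S] X // ∀ g y, f (b g y) = a g (f y)} =
      ∑ K : Submodule S Y, FF b a K := by
  have := @finite_linear S _ Y X _ _ _ _ _ _
  unfold FF
  rw [← Nat.card_sigma]
  exact (Nat.card_congr (Equiv.sigmaFiberEquiv
    (fun x : {f : Y →ₗ[S] X // ∀ g y, f (b g y) = a g (f y)} => LinearMap.ker x.1))).symm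

theorem FF_noninv {S : Type u} [CommRing S] {Γ : Type v}
    {Y : Type u} [AddCommGroup Y] [Module S Y] (b : Γ → Y →ₗ[S] Y)
    {X : Type u} [AddCommGroup X] [Module S X] (a : Γ → X →ₗ[S] X) (K : Submodule S Y)
    (hK : ¬ ∀ g, K ≤ K.comap (b g)) : FF b a K = 0 := by
  unfold FF
  have : IsEmpty {x : {f : Y →ₗ[S] X // ∀ g y, f (b g y) = a g (f y)} //
      LinearMap.ker x.1 = K} := by
    refine ⟨fun x => hK fun g y hy => ?_⟩
    rw [Submodule.mem_comap, ← x.2, LinearMap.mem_ker, x.1.2]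
    have : x.1.1 y = 0 := by
      rw [← LinearMap.mem_ker, x.2]
      exact hy
    rw [this, map_zero]
  exact Nat.card_of_isEmpty

theorem FF_inv {S : Type u} [CommRing S] {Γ : Type v}
    {Y : Type u} [AddCommGroup Y] [Module S Y] (b : Γ → Y →ₗ[S] Y)
    {X : Type u} [AddCommGroup X] [Module S X] (a : Γ → X →ₗ[S] X) (K : Submodule S Y)
    (hK : ∀ g, K ≤ K.comap (b g)) :
    FF b a K = FF (fun g => K.mapQ K (b g) (hK g)) a ⊥ := by
  unfold FF
  apply Nat.card_congr
  refine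
    { toFun := fun x => ⟨⟨K.liftQ x.1.1 x.2.ge, ?_⟩, ?_⟩
      invFun := fun x => ⟨⟨x.1.1.comp K.mkQ, ?_⟩, ?_⟩
      left_inv := ?_
      right_inv := ?_ }
  · intro g y
    obtain ⟨y, rfl⟩ := K.mkQ_surjective y
    simp only [Submodule.mkQ_apply, Submodule.mapQ_apply, Submodule.liftQ_apply]
    exact x.1.2 g y
  · rw [Submodule.ker_liftQ]
    rw [x.2, Submodule.mkQ_map_self]
  · intro g y
    have := x.1.2 g (K.mkQ y)
    simp only [LinearMap.comp_apply, Submodule.mkQ_apply] at this ⊢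
    exact this
  · rw [LinearMap.ker_comp, x.2, Submodule.comap_bot, Submodule.ker_mkQ]
  · intro x
    apply Subtype.ext
    apply Subtype.ext
    exact Submodule.liftQ_mkQ _ _ _
  · intro x
    apply Subtype.ext
    apply Subtype.ext
    apply Submodule.linearMap_qext
    exact Submodule.liftQ_mkQ _ _ _

theorem lovasz {S : Type u} [CommRing S] {Γ : Type v}
    (X₁ : Type u) [AddCommGroup X₁] [Module S X₁] [Finite X₁] (a₁ : Γ → X₁ →ₗ[S] X₁)
    (X₂ : Type u) [AddCommGroup X₂] [Module S X₂] [Finite X₂] (a₂ : Γ → X₂ →ₗ[S] X₂)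
    (h : ∀ (Y : Type u) [AddCommGroup Y] [Module S Y] [Finite Y] (b : Γ → Y →ₗ[S] Y),
      Nat.card {f : Y →ₗ[S] X₁ // ∀ g y, f (b g y) = a₁ g (f y)} =
        Nat.card {f : Y →ₗ[S] X₂ // ∀ g y, f (b g y) = a₂ g (f y)}) :
    ∃ e : X₁ ≃ₗ[S] X₂, ∀ g x, e (a₁ g x) = a₂ g (e x) := by
  classical
  have key : ∀ (n : ℕ) (Y : Type u) [AddCommGroup Y] [Module S Y] [Finite Y]
      (b : Γ → Y →ₗ[S] Y), Nat.card Y = n → FF b a₁ ⊥ = FF b a₂ ⊥ := by
    intro n
    induction n using Nat.strong_induction_on with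
    | _ n ih =>
      intro Y _ _ _ b hn
      have hfs : Finite (Submodule S Y) := finite_submodule
      have : Fintype (Submodule S Y) := Fintype.ofFinite _
      have hh := h Y b
      rw [hom_eq_sum b a₁, hom_eq_sum b a₂,
        ← Finset.add_sum_erase _ _ (Finset.mem_univ (⊥ : Submodule S Y)),
        ← Finset.add_sum_erase _ _ (Finset.mem_univ (⊥ : Submodule S Y))] at hh
      have hrest : ∑ K ∈ Finset.univ.erase (⊥ : Submodule S Y), FF b a₁ K =
          ∑ K ∈ Finset.univ.erase (⊥ : Submodule S Y), FF b a₂ K := by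
        apply Finset.sum_congr rfl
        intro K hK
        have hK0 : K ≠ ⊥ := (Finset.mem_erase.1 hK).1
        by_cases hinv : ∀ g, K ≤ K.comap (b g)
        · rw [FF_inv b a₁ K hinv, FF_inv b a₂ K hinv]
          have hfq : Finite (Y ⧸ K) := Finite.of_surjective _ K.mkQ_surjective
          apply ih (Nat.card (Y ⧸ K)) _ (Y ⧸ K) _ rfl
          rw [← hn]
          have hmul : Nat.card Y = Nat.card (Y ⧸ K) * Nat.card K := by
            rw [mul_comm]
            exact Submodule.card_eq_card_quotient_mul_card K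
          have hK1 : 1 < Nat.card K := by
            rw [Finite.one_lt_card_iff_nontrivial]
            exact Submodule.nontrivial_iff_ne_bot.2 hK0
          have hq0 : 0 < Nat.card (Y ⧸ K) := Nat.card_pos
          rw [hmul]
          exact lt_mul_of_one_lt_right hq0 hK1
        · rw [FF_noninv b a₁ K hinv, FF_noninv b a₂ K hinv]
      omega
  have hinj : ∀ (Y : Type u) [AddCommGroup Y] [Module S Y] [Finite Y]
      (b : Γ → Y →ₗ[S] Y) (X : Type u) [AddCommGroup X] [Module S X] [Finite X]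
      (a : Γ → X →ₗ[S] X), FF b a ⊥ ≠ 0 ↔
        ∃ f : Y →ₗ[S] X, (∀ g y, f (b g y) = a g (f y)) ∧ Function.Injective f := by
    intro Y _ _ _ b X _ _ _ a
    have := @finite_linear S _ Y X _ _ _ _ _ _
    unfold FF
    rw [Nat.card_ne_zero]
    constructor
    · rintro ⟨⟨x⟩, _⟩
      exact ⟨x.1.1, x.1.2, LinearMap.ker_eq_bot.1 x.2⟩
    · rintro ⟨f, hf, hfi⟩
      exact ⟨⟨⟨⟨f, hf⟩, LinearMap.ker_eq_bot.2 hfi⟩⟩, inferInstance⟩
  have h1 : FF a₁ a₂ ⊥ ≠ 0 := by
    rw [← key _ X₁ a₁ rfl, hinj]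
    exact ⟨LinearMap.id, fun _ _ => rfl, fun _ _ h => h⟩
  have h2 : FF a₂ a₁ ⊥ ≠ 0 := by
    rw [key _ X₂ a₂ rfl, hinj]
    exact ⟨LinearMap.id, fun _ _ => rfl, fun _ _ h => h⟩
  rw [hinj] at h1 h2
  obtain ⟨f, hf, hfi⟩ := h1
  obtain ⟨f', _, hfi'⟩ := h2
  have hbij : Function.Bijective f :=
    hfi.bijective_of_nat_card_le (Nat.card_le_card_of_injective f' hfi')
  exact ⟨LinearEquiv.ofBijective f hbij, fun g x => hf g x⟩

end Pool.Agent.Rep463.Rep463L
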