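import Mathlib
import Pool.Agent.Rep463.Hom
import Pool.Agent.Rep463.Lovasz

/-!
# The auxiliary ring `B`
-/

namespace Pool.Agent.Rep463

open scoped TensorProduct

universe u v w

variable {S : Type u} [CommRing S] [Finite S] {Γ : Type v}

theorem iso_of_hfun (X X' : OpMod S Γ) [Module.Finite S X] [Module.Finite S X']
    (h : ∀ (q : ℕ) [Fact q.Prime] (Y : OpMod S Γ) [Module.Finite S Y],
      hfun q Y (cls X) = hfun q Y (cls X')) : X.Iso X' := by
  have := finite_of_fg X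
  have := finite_of_fg X'
  obtain ⟨e, he⟩ := Rep463L.lovasz (Γ := Γ) X X.op X' X'.op (by
    intro Y _ _ _ b
    let Y' : OpMod S Γ := ⟨Y, b⟩
    have hY' : Module.Finite S Y' := Module.Finite.of_finite
    show Y'.num X = Y'.num X'
    apply Nat.eq_of_factorization_eq (Y'.num_ne_zero X) (Y'.num_ne_zero X')
    intro q
    by_cases hq : q.Prime
    · have := Fact.mk hq
      have := h q Y'
      rw [hfun_cls, hfun_cls] at this
      rw [Nat.factorization_def _ hq, Nat.factorization_def _ hq]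
      exact_mod_cast this
    · rw [Nat.factorization_eq_zero_of_not_prime _ hq, Nat.factorization_eq_zero_of_not_prime _ hq])
  exact ⟨e, he⟩

theorem eq_zero_of_hfun (x : GA S Γ)
    (h : ∀ (q : ℕ) [Fact q.Prime] (Y : OpMod S Γ) [Module.Finite S Y], hfun q Y x = 0) :
    x = 0 := by
  obtain ⟨X, X', hX, hX', rfl⟩ := exists_cls_sub x
  rw [sub_eq_zero]
  apply cls_congr
  apply iso_of_hfun
  intro q hq Y hY
  have := h q Y
  rwa [map_sub, sub_eq_zero] at this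

theorem iso_of_cls_eq (X X' : OpMod S Γ) [Module.Finite S X] [Module.Finite S X']
    (h : cls X = cls X') : X.Iso X' :=
  iso_of_hfun X X' (fun q _ Y _ => by rw [h])

theorem GA.torsionfree (m : ℕ) (hm : m ≠ 0) (x : GA S Γ) (hx : (m : GA S Γ) * x = 0) : x = 0 := by
  apply eq_zero_of_hfun
  intro q hq Y hY
  have h1 : hfun q Y ((m : GA S Γ) * x) = 0 := by rw [hx, map_zero]
  rw [← nsmul_eq_mul, map_nsmul, nsmul_eq_mul] at h1
  rcases mul_eq_zero.1 h1 with h2 | h2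
  · exact absurd (by exact_mod_cast h2) hm
  · exact h2

section B

variable {O : Type w} [CommRing O]

/-- The ideal of elements killed by all functionals. -/
noncomputable def kerH (Γ : Type v) (ζ : S) (ξ : O) (L : ℕ) : Ideal (GA S (Option Γ)) where
  carrier := {x | ∀ (q : ℕ) [Fact q.Prime] (Y : OpMod S Γ) [Module.Finite S Y]
    (z : GA S (Option Γ)), Hfun ζ ξ L q Y (x * z) = 0}
  add_mem' := by
    intro x y hx hy q _ Y _ z
    rw [add_mul, map_add, hx q Y z, hy q Y z, add_zero]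
  zero_mem' := by
    intro q _ Y _ z
    rw [zero_mul, map_zero]
  smul_mem' := by
    intro c x hx q _ Y _ z
    have := hx q Y (c * z)
    rw [← this]
    congr 1
    show c * x * z = x * (c * z)
    ring

/-- The ring `B`. -/
abbrev RB (Γ : Type v) (ζ : S) (ξ : O) (L : ℕ) : Type (max v (u + 1)) :=
  GA S (Option Γ) ⧸ kerH Γ ζ ξ L

variable {ζ : S} {ξ : O} {L : ℕ}

theorem RB.mk_eq_zero_iff (x : GA S (Option Γ)) :
    (Ideal.Quotient.mk (kerH Γ ζ ξ L) x = 0) ↔ ∀ (q : ℕ) [Fact q.Prime] (Y : OpMod S Γ)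
      [Module.Finite S Y] (z : GA S (Option Γ)), Hfun ζ ξ L q Y (x * z) = 0 := by
  rw [Ideal.Quotient.eq_zero_iff_mem]
  rfl

theorem RB.incl_injective [CharZero O] (hζ1 : ∀ a : ℕ, ¬ L ∣ a → IsUnit (1 - ζ ^ a))
    (hL : 0 < L) (x : GA S Γ)
    (hx : Ideal.Quotient.mk (kerH Γ ζ ξ L) (incl x) = 0) : x = 0 := by
  apply eq_zero_of_hfun
  intro q hq Y hY
  have := (RB.mk_eq_zero_iff _).1 hx q Y 1
  rw [mul_one, Hfun_incl hζ1 hL] at this
  exact_mod_cast this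

theorem RB.nzd [IsDomain O] (hζ : ζ ^ L = 1) (hξ : ξ ^ L = 1) (hL : 0 < L)
    (hξ1 : ∀ a : ℕ, ¬ L ∣ a → ξ ^ a ≠ 1) (a : ℕ) (ha : ¬ L ∣ a)
    (x : RB Γ ζ ξ L) (hx : (1 - Ideal.Quotient.mk (kerH Γ ζ ξ L) (chi Γ ζ) ^ a) * x = 0) :
    x = 0 := by
  obtain ⟨x, rfl⟩ := Ideal.Quotient.mk_surjective x
  rw [← map_pow, ← map_one (Ideal.Quotient.mk (kerH Γ ζ ξ L)), ← map_sub, ← map_mul,
    RB.mk_eq_zero_iff] at hx
  rw [RB.mk_eq_zero_iff]
  intro q hq Y hY z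
  have h1 := hx q Y z
  rw [sub_mul, one_mul, sub_mul, map_sub, mul_assoc, Hfun_chi_pow_mul hζ hξ hL, sub_eq_zero] at h1
  have h2 : (1 - ξ ^ a) * Hfun ζ ξ L q Y (x * z) = 0 := by
    rw [sub_mul, one_mul, sub_eq_zero]; exact h1
  rcases mul_eq_zero.1 h2 with h3 | h3
  · exact absurd (sub_eq_zero.1 h3).symm (hξ1 a ha)
  · exact h3

theorem RB.torsionfree [IsDomain O] [CharZero O] (m : ℕ) (hm : m ≠ 0)
    (x : RB Γ ζ ξ L) (hx : (m : RB Γ ζ ξ L) * x = 0) : x = 0 := by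
  obtain ⟨x, rfl⟩ := Ideal.Quotient.mk_surjective x
  rw [← map_natCast (Ideal.Quotient.mk (kerH Γ ζ ξ L)), ← map_mul, RB.mk_eq_zero_iff] at hx
  rw [RB.mk_eq_zero_iff]
  intro q hq Y hY z
  have h1 := hx q Y z
  rw [mul_assoc, ← nsmul_eq_mul, map_nsmul, nsmul_eq_mul] at h1
  rcases mul_eq_zero.1 h1 with h3 | h3
  · exact absurd (by exact_mod_cast h3) hm
  · exact h3

theorem RB.separated (hO : ∀ l : ℕ, l.Prime → ∀ x : O, (∀ j : ℕ, ∃ y, x = (l : O) ^ j * y) → x = 0)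
    (l : ℕ) (hl : l.Prime) (x : RB Γ ζ ξ L)
    (hx : ∀ j : ℕ, ∃ y, x = (l : RB Γ ζ ξ L) ^ j * y) : x = 0 := by
  obtain ⟨x, rfl⟩ := Ideal.Quotient.mk_surjective x
  rw [RB.mk_eq_zero_iff]
  intro q hq Y hY z
  apply hO l hl
  intro j
  obtain ⟨y, hy⟩ := hx j
  obtain ⟨y, rfl⟩ := Ideal.Quotient.mk_surjective y
  have h1 : Ideal.Quotient.mk (kerH Γ ζ ξ L) (x - (l : GA S (Option Γ)) ^ j * y) = 0 := by
    rw [map_sub, map_mul, map_pow, map_natCast, ← hy, sub_self]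
  have h2 := (RB.mk_eq_zero_iff _).1 h1 q Y z
  rw [sub_mul, map_sub, sub_eq_zero] at h2
  refine ⟨Hfun ζ ξ L q Y (y * z), ?_⟩
  rw [h2, mul_assoc]
  have h3 : ∀ w : GA S (Option Γ), (l : GA S (Option Γ)) ^ j * w = (l ^ j) • w := by
    intro w; rw [nsmul_eq_mul]; push_cast; rfl
  rw [h3, map_nsmul, nsmul_eq_mul]
  push_cast; rfl

theorem RB.chi_pow_eq_one (hζ : ζ ^ L = 1) :
    (Ideal.Quotient.mk (kerH Γ ζ ξ L) (chi Γ ζ)) ^ L = 1 := by
  rw [← map_pow, ← chi_pow, hζ, chi_one, map_one]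

end B

end Pool.Agent.Rep463
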