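import Mathlib
/-! Cyclotomic ring of integers: what we need. -/
namespace Pool.Agent.Rep463.Rep463CY

theorem exists_cyclo (L : ℕ) (hL : 0 < L) :
    ∃ (O : Type) (_ : CommRing O) (_ : IsDomain O) (_ : Module.Free ℤ O) (_ : Module.Finite ℤ O)
      (_ : CharZero O) (ξ : O), ξ ^ L = 1 ∧ ∀ a : ℕ, ¬ L ∣ a → ∃ y : O, (1 - ξ ^ a) * y = (L : O) := by
  have : NeZero L := ⟨hL.ne'⟩
  have : NeZero ((L : ℕ) : ℚ) := ⟨by exact_mod_cast hL.ne'⟩
  have hcyc : IsCyclotomicExtension {L} ℚ (CyclotomicField L ℚ) :=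
    CyclotomicField.isCyclotomicExtension L ℚ
  have : NumberField (CyclotomicField L ℚ) :=
    IsCyclotomicExtension.numberField {L} ℚ (CyclotomicField L ℚ)
  have hζ := IsCyclotomicExtension.zeta_spec L ℚ (CyclotomicField L ℚ)
  have hξ : IsPrimitiveRoot hζ.toInteger L := hζ.toInteger_isPrimitiveRoot
  refine ⟨NumberField.RingOfIntegers (CyclotomicField L ℚ), inferInstance, inferInstance,
    inferInstance, inferInstance, inferInstance, hζ.toInteger, hξ.pow_eq_one, ?_⟩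
  generalize hζ.toInteger = ξ at hξ
  intro a ha
  obtain ⟨n, rfl⟩ : ∃ n, L = n + 1 := ⟨L - 1, by omega⟩
  have hprod := hξ.prod_one_sub_pow_eq_order
  have hmod : ξ ^ a = ξ ^ (a % (n + 1)) := by
    conv_lhs => rw [← Nat.div_add_mod a (n + 1)]
    rw [pow_add, pow_mul, hξ.pow_eq_one, one_pow, one_mul]
  have h1 : 0 < a % (n + 1) := Nat.pos_of_ne_zero (fun h => ha (Nat.dvd_of_mod_eq_zero h))
  have h2 : a % (n + 1) < n + 1 := Nat.mod_lt _ hL
  have h3 : (1 - ξ ^ ((a % (n + 1) - 1) + 1)) ∣ ∏ k ∈ Finset.range n, (1 - ξ ^ (k + 1)) :=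
    Finset.dvd_prod_of_mem (fun k => 1 - ξ ^ (k + 1)) (Finset.mem_range.2 (by omega))
  rw [hprod, Nat.sub_add_cancel h1, ← hmod] at h3
  obtain ⟨y, hy⟩ := h3
  refine ⟨y, ?_⟩
  rw [← hy]
  push_cast
  rfl

end Pool.Agent.Rep463.Rep463CY
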