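import Mathlib
/-! Finite generation over ℤ: quotients by powers of maximal ideals are finite rings in which all
integers prime to some prime p are invertible. -/
namespace Pool.Agent.Rep463.Rep463FR

theorem int_jacobson : IsJacobsonRing ℤ := by
  rw [isJacobsonRing_iff_prime_eq]
  intro P hP
  by_cases hb : P = ⊥
  · subst hb
    rw [eq_bot_iff]
    intro x hx
    rw [Ideal.mem_jacobson_bot] at hx
    have h1 := hx x
    rw [Int.isUnit_iff] at h1
    have hx0 : x = 0 := by
      rcases h1 with h | h
      · have : x * x = 0 := by linarith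
        simpa using this
      · nlinarith [mul_self_nonneg x]
    simp [hx0]
  · haveI := hP.isMaximal hb
    exact Ideal.jacobson_eq_self_of_isMaximal

theorem finite_field {K : Type*} [Field K] [Algebra.FiniteType ℤ K] : Finite K := by
  haveI := int_jacobson
  have hfin : Module.Finite ℤ K := finite_of_finite_type_of_isJacobsonRing ℤ K
  obtain ⟨p, hp⟩ := CharP.exists K
  rcases CharP.char_is_prime_or_zero K p with hpp | hp0
  · haveI : Fact p.Prime := ⟨hpp⟩
    letI : Algebra (ZMod p) K := ZMod.algebra K p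
    haveI : Module.Finite (ZMod p) K := Module.Finite.of_restrictScalars_finite ℤ (ZMod p) K
    exact Module.finite_of_finite (ZMod p)
  · subst hp0
    exfalso
    haveI : CharZero K := CharP.charP_to_charZero K
    have hint : Algebra.IsIntegral ℤ K := inferInstance
    have hinj : Function.Injective (algebraMap ℤ K) := by
      rw [eq_intCast (algebraMap ℤ K) |> fun h => (funext h : (⇑(algebraMap ℤ K)) = _)]
      exact Int.cast_injective
    have hf : IsField ℤ := isField_of_isIntegral_of_isField hinj (Field.toIsField K)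
    obtain ⟨b, hb⟩ := hf.mul_inv_cancel (a := (2 : ℤ)) (by norm_num)
    omega

theorem finite_quotient {R : Type*} [CommRing R] [Algebra.FiniteType ℤ R] (m : Ideal R)
    (hm : m.IsMaximal) (j : ℕ) (hj : 0 < j) :
    Finite (R ⧸ m ^ j) ∧ ∃ p : ℕ, p.Prime ∧ ∀ k : ℕ, ¬ p ∣ k → IsUnit (k : R ⧸ m ^ j) := by
  haveI : IsNoetherianRing R := Algebra.FiniteType.isNoetherianRing ℤ R
  letI : Field (R ⧸ m) := Ideal.Quotient.field m
  have h1 : Algebra.FiniteType ℤ R := inferInstance
  have hft : @Algebra.FiniteType ℤ (R ⧸ m) _ _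
      (@Ring.toIntAlgebra (R ⧸ m) (DivisionRing.toRing)) :=
    @Algebra.FiniteType.of_surjective ℤ R (R ⧸ m) _ _ _ _
      (@Ring.toIntAlgebra (R ⧸ m) (DivisionRing.toRing)) h1 (Ideal.Quotient.mk m).toIntAlgHom
      Ideal.Quotient.mk_surjective
  have : Finite (R ⧸ m) := finite_field
  refine ⟨Ideal.finite_quotient_pow (IsNoetherian.noetherian m) j, ?_⟩
  obtain ⟨p, hp⟩ := CharP.exists (R ⧸ m)
  have hpp : p.Prime := by
    rcases CharP.char_is_prime_or_zero (R ⧸ m) p with hpp | hp0
    · exact hpp
    · subst hp0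
      exfalso
      haveI : CharZero (R ⧸ m) := CharP.charP_to_charZero (R ⧸ m)
      exact not_finite (α := R ⧸ m)
  refine ⟨p, hpp, ?_⟩
  intro k hk
  have hkm : (k : R) ∉ m := by
    intro h
    apply hk
    rw [← CharP.cast_eq_zero_iff (R ⧸ m) p k]
    have : Ideal.Quotient.mk m (k : R) = 0 := Ideal.Quotient.eq_zero_iff_mem.mpr h
    simpa using this
  -- k is coprime to m
  have hcop : IsCoprime (Ideal.span {(k : R)}) m := by
    rw [Ideal.isCoprime_iff_sup_eq]
    have hlt : m < Ideal.span {(k : R)} ⊔ m := by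
      refine lt_of_le_of_ne le_sup_right ?_
      intro h
      apply hkm
      rw [h]
      exact Ideal.mem_sup_left (Ideal.mem_span_singleton_self _)
    exact hm.out.2 _ hlt
  have hcop2 : IsCoprime (Ideal.span {(k : R)}) (m ^ j) := hcop.pow_right
  rw [Ideal.isCoprime_iff_exists] at hcop2
  obtain ⟨a, ha, b, hb, hab⟩ := hcop2
  rw [Ideal.mem_span_singleton'] at ha
  obtain ⟨c, hc⟩ := ha
  have h2 : (Ideal.Quotient.mk (m ^ j) c) * (k : R ⧸ m ^ j) = 1 := by
    have hb0 : Ideal.Quotient.mk (m ^ j) b = 0 := Ideal.Quotient.eq_zero_iff_mem.mpr hb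
    have := congrArg (Ideal.Quotient.mk (m ^ j)) hab
    rw [map_add, hb0, add_zero, ← hc, map_mul, map_one, map_natCast] at this
    exact this
  exact IsUnit.of_mul_eq_one_right _ h2

end Pool.Agent.Rep463.Rep463FR
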