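import Mathlib
/-! Matrix models of direct sums and tensor products. -/
namespace Pool.Agent.Rep463.Rep463M1
open scoped TensorProduct Kronecker

theorem exists_prod {R : Type*} [CommRing R] {ι κ : Type*} [Fintype ι] [Fintype κ]
    [DecidableEq ι] [DecidableEq κ] :
    ∃ e : ((ι → R) × (κ → R)) ≃ₗ[R] (ι ⊕ κ → R),
      ∀ (A : Matrix ι ι R) (B : Matrix κ κ R) (z : (ι → R) × (κ → R)),
        e ((A.mulVecLin).prodMap (B.mulVecLin) z) = (Matrix.fromBlocks A 0 0 B).mulVecLin (e z) := by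
  refine ⟨(LinearEquiv.sumArrowLequivProdArrow ι κ R R).symm, ?_⟩
  rintro A B ⟨x, y⟩
  rw [Matrix.mulVecLin_apply, Matrix.fromBlocks_mulVec]
  ext i
  rcases i with i | i
  · simp only [LinearMap.prodMap_apply, Matrix.mulVecLin_apply,
      LinearEquiv.sumArrowLequivProdArrow_symm_apply_inl, Sum.elim_inl, Matrix.zero_mulVec,
      add_zero]
    rfl
  · simp only [LinearMap.prodMap_apply, Matrix.mulVecLin_apply,
      LinearEquiv.sumArrowLequivProdArrow_symm_apply_inr, Sum.elim_inr, Matrix.zero_mulVec,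
      zero_add]
    rfl

theorem exists_tensor {R : Type*} [CommRing R] {ι κ : Type*} [Fintype ι] [Fintype κ]
    [DecidableEq ι] [DecidableEq κ] :
    ∃ e : ((ι → R) ⊗[R] (κ → R)) ≃ₗ[R] (ι × κ → R),
      ∀ (A : Matrix ι ι R) (B : Matrix κ κ R) (z : (ι → R) ⊗[R] (κ → R)),
        e (TensorProduct.map (A.mulVecLin) (B.mulVecLin) z) =
          (A ⊗ₖ B).mulVecLin (e z) := by
  let e : ((ι → R) ⊗[R] (κ → R)) ≃ₗ[R] (ι × κ → R) :=
    ((Pi.basisFun R ι).tensorProduct (Pi.basisFun R κ)).equivFun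
  have he : ∀ (x : ι → R) (y : κ → R) (p : ι × κ), e (x ⊗ₜ[R] y) p = x p.1 * y p.2 := by
    rintro x y ⟨i, j⟩
    show ((Pi.basisFun R ι).tensorProduct (Pi.basisFun R κ)).equivFun (x ⊗ₜ[R] y) (i, j) = _
    rw [Module.Basis.equivFun_apply, Module.Basis.tensorProduct_repr_tmul_apply]
    simp [mul_comm]
  refine ⟨e, ?_⟩
  intro A B z
  induction z using TensorProduct.induction_on with
  | zero => simp
  | tmul x y =>
    rw [TensorProduct.map_tmul]
    ext ⟨i, j⟩
    rw [he, Matrix.mulVecLin_apply]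
    simp only [Matrix.mulVecLin_apply, Matrix.mulVec, dotProduct]
    rw [Fintype.sum_prod_type, Finset.sum_mul_sum]
    apply Finset.sum_congr rfl
    intro i' _
    apply Finset.sum_congr rfl
    intro j' _
    rw [he, Matrix.kroneckerMap_apply]
    ring
  | add a b ha hb => rw [map_add, map_add, map_add, map_add, ha, hb]

/-- Isomorphisms between matrix models are given by matrices. -/
theorem exists_matrix {R : Type*} [CommRing R] {ι κ : Type*} [Fintype ι] [Fintype κ]
    [DecidableEq ι] [DecidableEq κ] {Γ : Type*} (A : Γ → Matrix ι ι R) (B : Γ → Matrix κ κ R) :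
    (∃ e : (ι → R) ≃ₗ[R] (κ → R), ∀ g x, e ((A g).mulVecLin x) = (B g).mulVecLin (e x)) ↔
    (∃ (U : Matrix κ ι R) (V : Matrix ι κ R), U * V = 1 ∧ V * U = 1 ∧ ∀ g, U * A g = B g * U) := by
  constructor
  · rintro ⟨e, he⟩
    refine ⟨LinearMap.toMatrix' (e : (ι → R) →ₗ[R] (κ → R)),
      LinearMap.toMatrix' (e.symm : (κ → R) →ₗ[R] (ι → R)), ?_, ?_, ?_⟩
    · rw [← LinearMap.toMatrix'_comp, LinearEquiv.comp_coe, LinearEquiv.symm_trans_self]
      exact LinearMap.toMatrix'_id
    · rw [← LinearMap.toMatrix'_comp, LinearEquiv.comp_coe, LinearEquiv.self_trans_symm]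
      exact LinearMap.toMatrix'_id
    · intro g
      have h1 : (e : (ι → R) →ₗ[R] (κ → R)) ∘ₗ (A g).mulVecLin =
          (B g).mulVecLin ∘ₗ (e : (ι → R) →ₗ[R] (κ → R)) := by
        apply LinearMap.ext
        intro x
        exact he g x
      have h2 := congrArg LinearMap.toMatrix' h1
      rw [LinearMap.toMatrix'_comp, LinearMap.toMatrix'_comp] at h2
      have h3 : LinearMap.toMatrix' (A g).mulVecLin = A g := LinearMap.toMatrix'_toLin' (A g)
      have h4 : LinearMap.toMatrix' (B g).mulVecLin = B g := LinearMap.toMatrix'_toLin' (B g)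
      rw [h3, h4] at h2
      exact h2
  · rintro ⟨U, V, hUV, hVU, h⟩
    refine ⟨LinearEquiv.ofLinearMap U.mulVecLin V.mulVecLin ?_ ?_, ?_⟩
    · rw [← Matrix.mulVecLin_mul, hUV, Matrix.mulVecLin_one]
    · rw [← Matrix.mulVecLin_mul, hVU, Matrix.mulVecLin_one]
    · intro g x
      show U.mulVecLin ((A g).mulVecLin x) = (B g).mulVecLin (U.mulVecLin x)
      simp only [Matrix.mulVecLin_apply, Matrix.mulVec_mulVec]
      rw [h g]

end Pool.Agent.Rep463.Rep463M1
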