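import Mathlib
import Pool.Agent.Rep463.Cls
import Pool.Agent.Rep463.MatModel

/-!
# Matrix objects
-/

namespace Pool.Agent.Rep463

open scoped TensorProduct Kronecker
open Finset

universe u v w

section

variable {S : Type u} [CommRing S] {Γ : Type v}

/-- The module with operators given by matrices. -/
@[reducible] def mobj {ι : Type} [Fintype ι] (A : Γ → Matrix ι ι S) : OpMod S Γ where
  carrier := ι → S
  op g := (A g).mulVecLin

instance {ι : Type} [Fintype ι] (A : Γ → Matrix ι ι S) : Module.Finite S (mobj A) := by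
  show Module.Finite S (ι → S)
  infer_instance

instance {ι : Type} [Fintype ι] (A : Γ → Matrix ι ι S) : Module.Free S (mobj A) := by
  show Module.Free S (ι → S)
  infer_instance

variable {ι κ : Type} [Fintype ι] [Fintype κ] [DecidableEq ι] [DecidableEq κ]

theorem mobj_sum (A : Γ → Matrix ι ι S) (B : Γ → Matrix κ κ S) :
    ((mobj A).sum (mobj B)).Iso (mobj fun g => Matrix.fromBlocks (A g) 0 0 (B g)) := by
  obtain ⟨e, he⟩ := Rep463M1.exists_prod (R := S) (ι := ι) (κ := κ)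
  exact ⟨e, fun g x => he (A g) (B g) x⟩

theorem mobj_tensor (A : Γ → Matrix ι ι S) (B : Γ → Matrix κ κ S) :
    ((mobj A).tensor (mobj B)).Iso (mobj fun g => A g ⊗ₖ B g) := by
  obtain ⟨e, he⟩ := Rep463M1.exists_tensor (R := S) (ι := ι) (κ := κ)
  exact ⟨e, fun g x => he (A g) (B g) x⟩

theorem mobj_iso_iff (A : Γ → Matrix ι ι S) (B : Γ → Matrix κ κ S) :
    (mobj A).Iso (mobj B) ↔ ∃ (U : Matrix κ ι S) (V : Matrix ι κ S), U * V = 1 ∧ V * U = 1 ∧
      ∀ g, U * A g = B g * U := Rep463M1.exists_matrix A B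

end

/-- index type of the relation -/
abbrev RI (n m : ℕ) : Type :=
  (Fin n × Fin n) ⊕ ((Fin n × Fin n) ⊕ (Fin n ⊕ Fin m))

section

variable {S : Type u} [CommRing S]

/-- left-hand side matrix `A⊗A ⊕ B⊗B ⊕ B ⊕ C` -/
def lmat {n m : ℕ} (A B : Matrix (Fin n) (Fin n) S) (C : Matrix (Fin m) (Fin m) S) :
    Matrix (RI n m) (RI n m) S :=
  Matrix.fromBlocks (A ⊗ₖ A) 0 0 (Matrix.fromBlocks (B ⊗ₖ B) 0 0 (Matrix.fromBlocks B 0 0 C))

/-- right-hand side matrix `A⊗B ⊕ A⊗B ⊕ A ⊕ C` -/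
def rmat {n m : ℕ} (A B : Matrix (Fin n) (Fin n) S) (C : Matrix (Fin m) (Fin m) S) :
    Matrix (RI n m) (RI n m) S :=
  Matrix.fromBlocks (A ⊗ₖ B) 0 0 (Matrix.fromBlocks (A ⊗ₖ B) 0 0 (Matrix.fromBlocks A 0 0 C))

variable {Γ : Type v}

/-- The relation `A⊗A ⊕ B⊗B ⊕ B ⊕ C ≅ A⊗B ⊕ A⊗B ⊕ A ⊕ C`. -/
def Rel {n m : ℕ} (A B : Γ → Matrix (Fin n) (Fin n) S) (C : Γ → Matrix (Fin m) (Fin m) S) : Prop :=
  ∃ U V : Matrix (RI n m) (RI n m) S, U * V = 1 ∧ V * U = 1 ∧
    ∀ g, U * lmat (A g) (B g) (C g) = rmat (A g) (B g) (C g) * U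

theorem lmat_map {T : Type*} [CommRing T] (f : S →+* T) {n m : ℕ}
    (A B : Matrix (Fin n) (Fin n) S) (C : Matrix (Fin m) (Fin m) S) :
    (lmat A B C).map f = lmat (A.map f) (B.map f) (C.map f) := by
  unfold lmat
  ext i j
  rcases i with i | i | i | i <;> rcases j with j | j | j | j <;> simp [Matrix.map_apply]

theorem rmat_map {T : Type*} [CommRing T] (f : S →+* T) {n m : ℕ}
    (A B : Matrix (Fin n) (Fin n) S) (C : Matrix (Fin m) (Fin m) S) :
    (rmat A B C).map f = rmat (A.map f) (B.map f) (C.map f) := by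
  unfold rmat
  ext i j
  rcases i with i | i | i | i <;> rcases j with j | j | j | j <;> simp [Matrix.map_apply]

theorem Rel.map {T : Type*} [CommRing T] (f : S →+* T) {n m : ℕ}
    {A B : Γ → Matrix (Fin n) (Fin n) S} {C : Γ → Matrix (Fin m) (Fin m) S} (h : Rel A B C) :
    Rel (fun g => (A g).map f) (fun g => (B g).map f) (fun g => (C g).map f) := by
  obtain ⟨U, V, h1, h2, h3⟩ := h
  refine ⟨U.map f, V.map f, ?_, ?_, fun g => ?_⟩
  · rw [← Matrix.map_mul, h1, Matrix.map_one f (map_zero f) (map_one f)]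
  · rw [← Matrix.map_mul, h2, Matrix.map_one f (map_zero f) (map_one f)]
  · rw [← lmat_map, ← rmat_map, ← Matrix.map_mul, ← Matrix.map_mul, h3]

theorem mobj_lmat {n m : ℕ} (A B : Γ → Matrix (Fin n) (Fin n) S) (C : Γ → Matrix (Fin m) (Fin m) S) :
    (((mobj A).tensor (mobj A)).sum (((mobj B).tensor (mobj B)).sum ((mobj B).sum (mobj C)))).Iso
      (mobj fun g => lmat (A g) (B g) (C g)) :=
  (OpMod.sum_congr (mobj_tensor A A) ((OpMod.sum_congr (mobj_tensor B B) (mobj_sum B C)).trans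
    (mobj_sum _ _))).trans (mobj_sum _ _)

theorem mobj_rmat {n m : ℕ} (A B : Γ → Matrix (Fin n) (Fin n) S) (C : Γ → Matrix (Fin m) (Fin m) S) :
    (((mobj A).tensor (mobj B)).sum (((mobj A).tensor (mobj B)).sum ((mobj A).sum (mobj C)))).Iso
      (mobj fun g => rmat (A g) (B g) (C g)) :=
  (OpMod.sum_congr (mobj_tensor A B) ((OpMod.sum_congr (mobj_tensor A B) (mobj_sum A C)).trans
    (mobj_sum _ _))).trans (mobj_sum _ _)

theorem rel_iff {n m : ℕ} (A B : Γ → Matrix (Fin n) (Fin n) S)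
    (C : Γ → Matrix (Fin m) (Fin m) S) : Rel A B C ↔
    (((mobj A).tensor (mobj A)).sum (((mobj B).tensor (mobj B)).sum ((mobj B).sum (mobj C)))).Iso
    (((mobj A).tensor (mobj B)).sum (((mobj A).tensor (mobj B)).sum ((mobj A).sum (mobj C)))) := by
  have h := mobj_iso_iff (fun g => lmat (A g) (B g) (C g)) (fun g => rmat (A g) (B g) (C g))
  constructor
  · intro hr
    exact (mobj_lmat A B C).trans ((h.2 hr).trans (mobj_rmat A B C).symm)
  · intro hr
    exact h.1 ((mobj_lmat A B C).symm.trans (hr.trans (mobj_rmat A B C)))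

theorem Rel.cls {n m : ℕ} {A B : Γ → Matrix (Fin n) (Fin n) S}
    {C : Γ → Matrix (Fin m) (Fin m) S} (h : Rel A B C) :
    (cls (mobj A) - cls (mobj B)) * (cls (mobj A) - cls (mobj B)) =
      cls (mobj A) - cls (mobj B) := by
  have h1 := cls_congr ((rel_iff A B C).1 h)
  simp only [cls_sum, cls_tensor] at h1
  linear_combination h1

end

end Pool.Agent.Rep463
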