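import Mathlib
import Pool.Agent.Rep463.Adams
import Pool.Agent.Rep463.Bring
import Pool.Agent.Rep463.Cyclo

/-!
# The main step: finite coefficient rings containing enough roots of unity
-/

namespace Pool.Agent.Rep463

open scoped TensorProduct
open Finset

universe u v w

variable {S : Type u} [CommRing S] {Γ : Type v}

theorem GA.exists_addHom {A : Type w} [AddCommGroup A]
    (f : (X : OpMod S Γ) → [Module.Finite S X] → A)
    (hc : ∀ (X Y : OpMod S Γ) [Module.Finite S X] [Module.Finite S Y], X.Iso Y → f X = f Y)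
    (ha : ∀ (X Y : OpMod S Γ) [Module.Finite S X] [Module.Finite S Y],
      f (X.sum Y) = f X + f Y) :
    ∃ F : GA S Γ →+ A, ∀ (X : OpMod S Γ) [Module.Finite S X], F (cls X) = f X := by
  classical
  let f' : OpMod S Γ → A := fun X => if h : Module.Finite S X then @f X h else 0
  have hf' : ∀ (X : OpMod S Γ) [h : Module.Finite S X], f' X = f X := by
    intro X h
    exact dif_pos h
  have hc' : ∀ X Y : OpMod S Γ, X.Iso Y → f' X = f' Y := by
    intro X Y h
    by_cases hX : Module.Finite S X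
    · have hY : Module.Finite S Y := by
        obtain ⟨e, -⟩ := h
        exact Module.Finite.equiv e
      rw [hf', hf']
      exact hc X Y h
    · have hY : ¬ Module.Finite S Y := by
        intro hY
        apply hX
        obtain ⟨e, -⟩ := h
        exact Module.Finite.equiv e.symm
      show (if h : Module.Finite S X then @f X h else 0) =
        (if h : Module.Finite S Y then @f Y h else 0)
      rw [dif_neg hX, dif_neg hY]
  have h0 : f' (OpMod.zero S Γ) = 0 := by
    rw [hf']
    have h1 := ha (OpMod.zero S Γ) (OpMod.zero S Γ)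
    have h2 := hc _ _ (OpMod.zero_sum (OpMod.zero S Γ))
    rw [h2] at h1
    simpa using h1
  refine ⟨GA.lift f' h0 hc' (fun X Y hX hY => ?_), fun X hX => ?_⟩
  · rw [hf', hf', hf']; exact ha X Y
  · rw [GA.lift_cls, hf']

theorem cyc_eq {B : Type*} [CommRing B] (u : B) (L k : ℕ) (g : PowerSeries B) :
    Rep463E.cyc u L k g = Rep463E.endgame_c (u ^ (L / k)) k g := by
  unfold Rep463E.cyc Rep463E.endgame_c Rep463E.endgame_P
  simp only [pow_mul]

theorem cyc_mul {B : Type*} [CommRing B] (u : B) (L k : ℕ) (hL : 0 < L) (hk : 0 < k) (hkL : k ∣ L)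
    (hu : u ^ L = 1) (nzd : ∀ a : ℕ, ¬ L ∣ a → ∀ x : B, (1 - u ^ a) * x = 0 → x = 0)
    {g g' : PowerSeries B} (hg : PowerSeries.constantCoeff g = 1)
    (hg' : PowerSeries.constantCoeff g' = 1) :
    Rep463E.cyc u L k (g * g') = Rep463E.cyc u L k g + Rep463E.cyc u L k g' := by
  rw [cyc_eq, cyc_eq, cyc_eq]
  apply Rep463E.endgame_c_mul hk _ hg hg'
  constructor
  · rw [← pow_mul, Nat.div_mul_cancel hkL, hu]
  · intro m hm x hx
    apply nzd (L / k * m) _ x
    · rw [pow_mul]; exact hx
    · intro h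
      apply hm
      have h1 : L / k * k ∣ L / k * m := by rwa [Nat.div_mul_cancel hkL]
      exact Nat.dvd_of_mul_dvd_mul_left (Nat.div_pos (Nat.le_of_dvd hL hkL) hk) h1

theorem map_rescale' {A B : Type*} [CommRing A] [CommRing B] (φ : A →+* B) (c : A)
    (f : PowerSeries A) :
    PowerSeries.map φ (PowerSeries.rescale c f) =
      PowerSeries.rescale (φ c) (PowerSeries.map φ f) := by
  ext k
  rw [PowerSeries.coeff_map, PowerSeries.coeff_rescale, PowerSeries.coeff_rescale,
    PowerSeries.coeff_map, map_mul, map_pow]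

theorem cyc_map {A B : Type*} [CommRing A] [CommRing B] (φ : A →+* B) (u : A) (L k : ℕ)
    (g : PowerSeries A) :
    φ (Rep463E.cyc u L k g) = Rep463E.cyc (φ u) L k (PowerSeries.map φ g) := by
  unfold Rep463E.cyc
  rw [← PowerSeries.coeff_map, map_prod]
  simp only [map_rescale', map_pow]

theorem constantCoeff_lam (X : OpMod S Γ) [Module.Finite S X] :
    PowerSeries.constantCoeff (lam X) = 1 := by
  rw [← PowerSeries.coeff_zero_eq_constantCoeff_apply, coeff_lam, cls_ext_zero]

theorem cls_ext_eq_zero [Nontrivial S] (X : OpMod S Γ) [Module.Free S X] [Module.Finite S X]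
    {k : ℕ} (hk : Module.finrank S X < k) : cls (X.ext k) = 0 := by
  have h1 : Module.finrank S (⋀[S]^k X) = 0 := by
    rw [exteriorPower.finrank_eq, Nat.choose_eq_zero_of_lt hk]
  have : Subsingleton (X.ext k) := by
    let b := Module.Free.chooseBasis S (⋀[S]^k X)
    have h2 : Fintype.card (Module.Free.ChooseBasisIndex S (⋀[S]^k X)) = 0 := by
      rw [← Module.finrank_eq_card_chooseBasisIndex, h1]
    have h3 : IsEmpty (Module.Free.ChooseBasisIndex S (⋀[S]^k X)) := Fintype.card_eq_zero_iff.1 h2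
    exact b.repr.injective.subsingleton
  exact cls_of_subsingleton _

/-- The determinant of a free module with invertible operators is a unit. -/
theorem isUnit_cls_ext [Nontrivial S] (X : OpMod S Γ) [Module.Free S X] [Module.Finite S X]
    {n : ℕ} (hn : Module.finrank S X = n) (τ : Γ → X →ₗ[S] X)
    (h1 : ∀ g, X.op g ∘ₗ τ g = LinearMap.id) :
    IsUnit (cls (X.ext n)) := by
  have hfr : Module.finrank S (⋀[S]^n X) = 1 := by
    rw [exteriorPower.finrank_eq, hn, Nat.choose_self]
  have hfr' : Module.finrank S (⋀[S]^n X) = Module.finrank S S := by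
    rw [hfr, Module.finrank_self]
  let e : (⋀[S]^n X) ≃ₗ[S] S := LinearEquiv.ofFinrankEq _ _ hfr'
  -- scalars
  have hsc : ∀ f : (⋀[S]^n X) →ₗ[S] (⋀[S]^n X), ∃ c : S, ∀ x, f x = c • x := by
    intro f
    refine ⟨e (f (e.symm 1)), fun x => ?_⟩
    apply e.injective
    rw [map_smul]
    have hx : x = e x • e.symm 1 := by
      apply e.injective
      rw [map_smul, e.apply_symm_apply, smul_eq_mul, mul_one]
    conv_lhs => rw [hx, map_smul, map_smul]
    rw [smul_eq_mul, smul_eq_mul, mul_comm]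
  choose c hc using fun g => hsc (exteriorPower.map n (X.op g))
  choose d hd using fun g => hsc (exteriorPower.map n (τ g))
  have hcd : ∀ g, c g * d g = 1 := by
    intro g
    have h2 : exteriorPower.map n (X.op g) (exteriorPower.map n (τ g) (e.symm 1)) = e.symm 1 := by
      rw [← LinearMap.comp_apply, ← exteriorPower.map_comp, h1 g, exteriorPower.map_id]; rfl
    rw [hd, hc, smul_smul] at h2
    have h3 := congrArg e h2
    rw [map_smul, e.apply_symm_apply, smul_eq_mul, mul_one] at h3
    exact h3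
  let D : OpMod S Γ := { carrier := S, op := fun g => d g • LinearMap.id }
  have hD : Module.Finite S D := Module.Finite.self S
  apply IsUnit.of_mul_eq_one (cls D)
  rw [← cls_tensor, ← cls_unit]
  apply cls_congr
  let E : ((⋀[S]^n X) ⊗[S] S) ≃ₗ[S] S := (TensorProduct.rid S _).trans e
  refine ⟨E, fun g x => ?_⟩
  have : E.toLinearMap ∘ₗ TensorProduct.map (exteriorPower.map n (X.op g)) (d g • LinearMap.id) =
      E.toLinearMap := by
    apply TensorProduct.ext'
    intro a b
    have h3 : (TensorProduct.map (exteriorPower.map n (X.op g)) (d g • LinearMap.id : S →ₗ[S] S))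
        (a ⊗ₜ[S] b) = (c g • a) ⊗ₜ[S] (d g • b) := by
      rw [TensorProduct.map_tmul, hc]; rfl
    rw [LinearMap.comp_apply, h3, TensorProduct.smul_tmul, smul_smul, hcd, one_smul]
  exact DFunLike.congr_fun this x

theorem main_finite [Finite S] [Nontrivial S] (p n L : ℕ) (hp : p.Prime) (hL : 0 < L) (ζ : S)
    (hζ : ζ ^ L = 1) (hζ1 : ∀ a : ℕ, ¬ L ∣ a → IsUnit (1 - ζ ^ a))
    (hdvd : ∀ k, 1 ≤ k → k ≤ 2 * n + 1 → ¬ p ∣ k → k ∣ L)
    (X Y : OpMod S Γ) [Module.Free S X] [Module.Finite S X] [Module.Free S Y] [Module.Finite S Y]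
    (hX : Module.finrank S X = n) (hY : Module.finrank S Y = n)
    (τX : Γ → X →ₗ[S] X) (hτX : ∀ g, X.op g ∘ₗ τX g = LinearMap.id)
    (τY : Γ → Y →ₗ[S] Y) (hτY : ∀ g, Y.op g ∘ₗ τY g = LinearMap.id)
    (hrel : (cls X - cls Y) * (cls X - cls Y) = cls X - cls Y) : X.Iso Y := by
  obtain ⟨O, _, _, _, _, _, ξ, hξ, hξ1⟩ := Rep463CY.exists_cyclo L hL
  have hξne : ∀ a : ℕ, ¬ L ∣ a → ξ ^ a ≠ 1 := by
    intro a ha h
    obtain ⟨y, hy⟩ := hξ1 a ha
    rw [h, sub_self, zero_mul] at hy
    exact hL.ne' (by exact_mod_cast hy.symm)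
  have hO : ∀ l : ℕ, l.Prime → ∀ x : O, (∀ j : ℕ, ∃ y, x = (l : O) ^ j * y) → x = 0 := by
    intro l hl x hx
    let b := Module.Free.chooseBasis ℤ O
    apply b.repr.injective
    ext i
    rw [map_zero, Finsupp.zero_apply]
    have hdiv : ∀ j : ℕ, (l : ℤ) ^ j ∣ b.repr x i := by
      intro j
      obtain ⟨y, hy⟩ := hx j
      refine ⟨b.repr y i, ?_⟩
      have : x = ((l : ℤ) ^ j) • y := by
        rw [hy, zsmul_eq_mul]; push_cast; rfl
      rw [this, map_smul, Finsupp.smul_apply, smul_eq_mul]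
    by_contra hne
    have hfin : FiniteMultiplicity (l : ℤ) (b.repr x i) := by
      apply Int.finiteMultiplicity_iff.2
      refine ⟨?_, hne⟩
      simp only [Int.natAbs_natCast]
      exact hl.one_lt.ne'
    obtain ⟨m, hm⟩ := hfin
    exact hm (hdiv (m + 1))
  set B := RB Γ ζ ξ L with hB
  let φ : GA S (Option Γ) →+* B := Ideal.Quotient.mk (kerH Γ ζ ξ L)
  have hinj : ∀ x : GA S Γ, φ (incl x) = 0 → x = 0 := fun x hx =>
    RB.incl_injective hζ1 hL x hx
  have nzd : ∀ a : ℕ, ¬ L ∣ a → ∀ x : B, (1 - φ (chi Γ ζ) ^ a) * x = 0 → x = 0 :=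
    fun a ha x hx => RB.nzd hζ hξ hL hξne a ha x hx
  have huL : φ (chi Γ ζ) ^ L = 1 := RB.chi_pow_eq_one hζ
  let ψ : GA S Γ →+* B := φ.comp incl
  -- power series
  have hconst : ∀ (Z : OpMod S Γ) [Module.Finite S Z],
      PowerSeries.constantCoeff (PowerSeries.map ψ (lam Z)) = 1 := by
    intro Z _
    rw [← PowerSeries.coeff_zero_eq_constantCoeff_apply, PowerSeries.coeff_map, coeff_lam,
      cls_ext_zero, map_one]
  have hmain := Rep463E.endgame p n L hp (φ (chi Γ ζ)) huL hL nzd
    (fun m hm x hx => RB.torsionfree m hm x hx)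
    (fun l hl x hx => RB.separated hO l hl x hx) hdvd
    (PowerSeries.map ψ (lam X)) (PowerSeries.map ψ (lam Y)) (hconst X) (hconst Y)
    (by
      intro i hi
      rw [PowerSeries.coeff_map, coeff_lam, cls_ext_eq_zero X (by omega), map_zero])
    (by
      intro i hi
      rw [PowerSeries.coeff_map, coeff_lam, cls_ext_eq_zero Y (by omega), map_zero])
    (by
      rw [PowerSeries.coeff_map, coeff_lam]
      exact (isUnit_cls_ext X hX τX hτX).map ψ)
    (by
      rw [PowerSeries.coeff_map, coeff_lam]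
      exact (isUnit_cls_ext Y hY τY hτY).map ψ)
    (by
      rw [PowerSeries.coeff_map, coeff_lam, PowerSeries.coeff_map, coeff_lam, cls_ext_one,
        cls_ext_one, ← map_sub, ← map_mul, hrel])
    (by
      intro k hk1 hk2 hpk
      have hkL := hdvd k hk1 hk2 hpk
      have hk0 : 0 < k := hk1
      obtain ⟨F, hF⟩ := GA.exists_addHom (S := S) (Γ := Γ) (A := B)
        (fun Z _ => Rep463E.cyc (φ (chi Γ ζ)) L k (PowerSeries.map ψ (lam Z)))
        (fun Z Z' _ _ h => by simp only [lam_congr h])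
        (fun Z Z' _ _ => by
          simp only [lam_sum, map_mul]
          exact cyc_mul _ L k hL hk0 hkL huL nzd (hconst Z) (hconst Z'))
      have hcyc : ∀ (Z : OpMod S Γ) [Module.Finite S Z],
          F (cls Z) = (-1) ^ (k - 1) * φ (cls (Z.tpow k)) := by
        intro Z _
        rw [hF, ← phi_cls_rpow_ext φ hL hζ hζ1 nzd hk0 hkL Z,
          cls_rpow_ext Z hk0 hL hkL ζ hζ hζ1, cyc_map]
        rfl
      have hmul : ∀ (Z Z' : OpMod S Γ) [Module.Free S Z] [Module.Finite S Z] [Module.Free S Z']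
          [Module.Finite S Z'], φ (cls ((Z.tensor Z').tpow k)) =
            φ (cls (Z.tpow k)) * φ (cls (Z'.tpow k)) := by
        intro Z Z' _ _ _ _
        rw [← map_mul, ← cls_tensor, cls_congr (tpow_tensor Z Z' k)]
      have h1 := congrArg F hrel
      rw [mul_sub, sub_mul, sub_mul, ← cls_tensor, ← cls_tensor, ← cls_tensor, ← cls_tensor,
        map_sub, map_sub, map_sub, map_sub, hcyc, hcyc, hcyc, hcyc, hcyc, hcyc, hmul, hmul, hmul,
        hmul] at h1
      rw [← hF, ← hF, hcyc, hcyc]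
      have hs : ((-1 : B) ^ (k - 1)) * (-1) ^ (k - 1) = 1 := by
        rw [← mul_pow, neg_mul_neg, one_mul, one_pow]
      linear_combination ((-1 : B) ^ (k - 1)) * h1)
  apply iso_of_cls_eq
  rw [← sub_eq_zero]
  apply hinj
  have h2 : ψ (cls X) = ψ (cls Y) := by
    rw [PowerSeries.coeff_map, coeff_lam, PowerSeries.coeff_map, coeff_lam, cls_ext_one,
        cls_ext_one] at hmain
    exact hmain
  show ψ (cls X - cls Y) = 0
  rw [map_sub, h2, sub_self]

end Pool.Agent.Rep463
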