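import Mathlib
/-! Restriction of scalars along a finite free extension. -/
namespace Pool.Agent.Rep463.Rep463F4

noncomputable def kap {S T : Type*} [CommRing S] [CommRing T] [Algebra S T] {d : ℕ}
    (b : Module.Basis (Fin d) S T) (n : ℕ) : (Fin n → T) ≃ₗ[S] (Fin d → (Fin n → S)) where
  toFun v i a := b.equivFun (v a) i
  invFun x a := b.equivFun.symm (fun i => x i a)
  map_add' v w := by
    funext i a
    simp
  map_smul' c v := by
    funext i a
    simp
  left_inv v := by
    funext a
    exact b.equivFun.symm_apply_apply (v a)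
  right_inv x := by
    funext i a
    have := congrFun (b.equivFun.apply_symm_apply (fun i => x i a)) i
    exact this

theorem kap_mulVec {S T : Type*} [CommRing S] [CommRing T] [Algebra S T] {d : ℕ}
    (b : Module.Basis (Fin d) S T) {n : ℕ} (A : Matrix (Fin n) (Fin n) S) (v : Fin n → T) :
    kap b n ((A.map (algebraMap S T)).mulVec v) = fun i => A.mulVec (kap b n v i) := by
  funext i a
  change b.equivFun (((A.map (algebraMap S T)).mulVec v) a) i =
    (A.mulVec (fun c => b.equivFun (v c) i)) a
  simp only [Matrix.mulVec, dotProduct, Matrix.map_apply, map_sum, Finset.sum_apply]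
  refine Finset.sum_congr rfl fun c _ => ?_
  rw [← Algebra.smul_def, map_smul]
  rfl

theorem exists_restrict {S T : Type*} [CommRing S] [CommRing T] [Algebra S T] (d : ℕ)
    (b : Module.Basis (Fin d) S T) {Γ : Type*} {n : ℕ} (A B : Γ → Matrix (Fin n) (Fin n) S)
    (U : Matrix (Fin n) (Fin n) T) (hU : IsUnit U.det)
    (hAB : ∀ g, U * (A g).map (algebraMap S T) = (B g).map (algebraMap S T) * U) :
    ∃ e : (Fin d → (Fin n → S)) ≃ₗ[S] (Fin d → (Fin n → S)),
      ∀ (g : Γ) (x : Fin d → (Fin n → S)),
        e (fun i => (A g).mulVec (x i)) = fun i => (B g).mulVec (e x i) := by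
  let Ue : (Fin n → T) ≃ₗ[S] (Fin n → T) :=
    { toFun := fun v => U.mulVec v
      invFun := fun v => U⁻¹.mulVec v
      map_add' := fun v w => Matrix.mulVec_add U v w
      map_smul' := fun c v => by
        simp only [RingHom.id_apply]
        rw [Matrix.mulVec_smul]
      left_inv := fun v => by
        simp only [Matrix.mulVec_mulVec, Matrix.nonsing_inv_mul U hU, Matrix.one_mulVec]
      right_inv := fun v => by
        simp only [Matrix.mulVec_mulVec, Matrix.mul_nonsing_inv U hU, Matrix.one_mulVec] }
  refine ⟨(kap b n).symm.trans (Ue.trans (kap b n)), fun g x => ?_⟩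
  obtain ⟨v, rfl⟩ := (kap b n).surjective x
  rw [← kap_mulVec]
  change kap b n (Ue ((kap b n).symm (kap b n _))) = fun i => (B g).mulVec
    (kap b n (Ue ((kap b n).symm (kap b n v))) i)
  rw [LinearEquiv.symm_apply_apply, LinearEquiv.symm_apply_apply]
  have h1 : Ue (((A g).map (algebraMap S T)).mulVec v) =
      ((B g).map (algebraMap S T)).mulVec (Ue v) := by
    change U.mulVec (((A g).map (algebraMap S T)).mulVec v) =
      ((B g).map (algebraMap S T)).mulVec (U.mulVec v)
    rw [Matrix.mulVec_mulVec, Matrix.mulVec_mulVec, hAB g]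
  rw [h1, kap_mulVec]

end Pool.Agent.Rep463.Rep463F4
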