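import Mathlib
import Pool.Agent.Rep463.MObj
import Pool.Agent.Rep463.Main
import Pool.Agent.Rep463.Restrict

/-!
# Finite coefficient rings
-/

namespace Pool.Agent.Rep463

open scoped TensorProduct Kronecker
open Finset

universe u v w

variable {S : Type u} [CommRing S] {Γ : Type v}

theorem mulVecLin_comp_eq_id {T : Type u} [CommRing T] {n : ℕ} (A A' : Matrix (Fin n) (Fin n) T)
    (h : A * A' = 1) : A.mulVecLin ∘ₗ A'.mulVecLin = LinearMap.id := by
  rw [← Matrix.mulVecLin_mul, h, Matrix.mulVecLin_one]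

theorem local_step [Finite S] (p : ℕ) (hp : p.Prime) (hunit : ∀ k : ℕ, ¬ p ∣ k → IsUnit (k : S))
    {n m : ℕ} (A B A' B' : Γ → Matrix (Fin n) (Fin n) S) (C : Γ → Matrix (Fin m) (Fin m) S)
    (hA : ∀ g, A g * A' g = 1) (hB : ∀ g, B g * B' g = 1) (hrel : Rel A B C) :
    ∃ U : Matrix (Fin n) (Fin n) S, IsUnit U.det ∧ ∀ g, U * A g = B g * U := by
  classical
  rcases subsingleton_or_nontrivial S with hS | hS
  · exact ⟨1, by simp, fun g => Subsingleton.elim _ _⟩
  -- the number `L`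
  set L : ℕ := ∏ k ∈ (range (2 * n + 2)).filter (fun k => ¬ p ∣ k), k with hLdef
  have hpL : ¬ p ∣ L := by
    intro h
    obtain ⟨k, hk, hpk⟩ := (hp.prime.dvd_finsetProd_iff _).1 h
    exact (Finset.mem_filter.1 hk).2 hpk
  have hL : 0 < L := by
    rcases Nat.eq_zero_or_pos L with h | h
    · exact absurd (h ▸ dvd_zero p) hpL
    · exact h
  have hdvd : ∀ k, 1 ≤ k → k ≤ 2 * n + 1 → ¬ p ∣ k → k ∣ L := by
    intro k h1 h2 h3
    exact Finset.dvd_prod_of_mem (fun k => k) (by simp [h3]; omega)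
  obtain ⟨O, _, _, _, _, _, ξ, hξ, hξ1⟩ := Rep463CY.exists_cyclo L hL
  let T : Type u := S ⊗[ℤ] O
  let b0 := Module.Free.chooseBasis ℤ O
  let d := Fintype.card (Module.Free.ChooseBasisIndex ℤ O)
  let b : Module.Basis (Fin d) S T :=
    (Algebra.TensorProduct.basis S b0).reindex (Fintype.equivFin _)
  have hd : 0 < d := Fintype.card_pos_iff.2 (by
    have : Nonempty (Module.Free.ChooseBasisIndex ℤ O) := b0.index_nonempty
    exact this)
  have hTfin : Module.Finite S T := Module.Finite.of_basis b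
  have hTF : Finite T := Module.finite_of_finite S
  have hTN : Nontrivial T := by
    have : Nonempty (Fin d) := ⟨⟨0, hd⟩⟩
    exact b.repr.symm.injective.nontrivial
  let ζ : T := (1 : S) ⊗ₜ[ℤ] ξ
  have hζ : ζ ^ L = 1 := by
    show ((1 : S) ⊗ₜ[ℤ] ξ) ^ L = 1
    rw [Algebra.TensorProduct.tmul_pow, hξ, one_pow]; rfl
  have hζ1 : ∀ a : ℕ, ¬ L ∣ a → IsUnit (1 - ζ ^ a) := by
    intro a ha
    obtain ⟨y, hy⟩ := hξ1 a ha
    have h1 : (1 - ζ ^ a) * ((1 : S) ⊗ₜ[ℤ] y) = (L : T) := by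
      have h2 : (1 - ζ ^ a : T) = (1 : S) ⊗ₜ[ℤ] (1 - ξ ^ a) := by
        rw [TensorProduct.tmul_sub]
        show 1 - ((1 : S) ⊗ₜ[ℤ] ξ) ^ a = _
        rw [Algebra.TensorProduct.tmul_pow, one_pow]; rfl
      rw [h2, Algebra.TensorProduct.tmul_mul_tmul, hy, one_mul]
      have h3 : ((L : O)) = (L : ℤ) • (1 : O) := by simp
      rw [h3, TensorProduct.tmul_smul]
      have h4 : ((1 : S) ⊗ₜ[ℤ] (1 : O) : T) = 1 := rfl
      rw [h4]; simp
    have h5 : IsUnit (L : T) := by
      have := (hunit L hpL).map (algebraMap S T)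
      rwa [map_natCast] at this
    rw [← h1] at h5
    exact isUnit_of_mul_isUnit_left h5
  let f : S →+* T := algebraMap S T
  have hrelT := (hrel.map f).cls
  have hiso := main_finite p n L hp hL ζ hζ hζ1 hdvd (mobj fun g => (A g).map f)
    (mobj fun g => (B g).map f) (by simp) (by simp)
    (fun g => ((A' g).map f).mulVecLin)
    (fun g => mulVecLin_comp_eq_id _ _ (by
      rw [← Matrix.map_mul, hA, Matrix.map_one f (map_zero f) (map_one f)]))
    (fun g => ((B' g).map f).mulVecLin)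
    (fun g => mulVecLin_comp_eq_id _ _ (by
      rw [← Matrix.map_mul, hB, Matrix.map_one f (map_zero f) (map_one f)])) hrelT
  obtain ⟨U, V, hUV, hVU, hU⟩ := (mobj_iso_iff _ _).1 hiso
  have hdet : IsUnit U.det := by
    apply IsUnit.of_mul_eq_one V.det
    rw [← Matrix.det_mul, hUV, Matrix.det_one]
  obtain ⟨e, he⟩ := Rep463F4.exists_restrict d b A B U hdet hU
  have h1 : cls (OpMod.pi fun _ : Fin d => mobj A) = cls (OpMod.pi fun _ : Fin d => mobj B) := by
    apply cls_congr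
    exact ⟨e, fun g x => he g x⟩
  rw [cls_pi, cls_pi] at h1
  simp only [Finset.sum_const, Finset.card_univ, Fintype.card_fin, nsmul_eq_mul] at h1
  have h2 : cls (mobj A) = cls (mobj B) := by
    rw [← sub_eq_zero]
    apply GA.torsionfree d hd.ne'
    rw [mul_sub, h1, sub_self]
  obtain ⟨U, V, hUV, hVU, hU⟩ := (mobj_iso_iff _ _).1 (iso_of_cls_eq _ _ h2)
  refine ⟨U, ?_, hU⟩
  apply IsUnit.of_mul_eq_one V.det
  rw [← Matrix.det_mul, hUV, Matrix.det_one]

end Pool.Agent.Rep463
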