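import Mathlib
import Pool.Agent.Rep463.Local
import Pool.Agent.Rep463.ArtinRees
import Pool.Agent.Rep463.FinQuot

/-!
# From finite quotients to finitely generated rings, and to arbitrary rings
-/

namespace Pool.Agent.Rep463

open scoped TensorProduct Kronecker
open Finset

universe u v w

theorem global_step {R : Type u} [CommRing R] [Algebra.FiniteType ℤ R] {G : Type v} [Finite G]
    {n m : ℕ} (A B A' B' : G → Matrix (Fin n) (Fin n) R) (C : G → Matrix (Fin m) (Fin m) R)
    (hA : ∀ g, A g * A' g = 1) (hB : ∀ g, B g * B' g = 1) (hrel : Rel A B C)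
    (I : Ideal R) (hI : I.IsMaximal) :
    ∃ φ : Matrix (Fin n) (Fin n) R, (∀ g, φ * A g = B g * φ) ∧ φ.det ∉ I := by
  have : IsNoetherianRing R := Algebra.FiniteType.isNoetherianRing ℤ R
  apply Rep463AR.exists_intertwiner I hI A B
  intro j hj
  obtain ⟨hfin, p, hp, hunit⟩ := Rep463FR.finite_quotient I hI j hj
  let f : R →+* R ⧸ I ^ j := Ideal.Quotient.mk (I ^ j)
  exact local_step p hp hunit (fun g => (A g).map f) (fun g => (B g).map f)
    (fun g => (A' g).map f) (fun g => (B' g).map f) (fun g => (C g).map f)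
    (fun g => by rw [← Matrix.map_mul, hA, Matrix.map_one f (map_zero f) (map_one f)])
    (fun g => by rw [← Matrix.map_mul, hB, Matrix.map_one f (map_zero f) (map_one f)])
    (hrel.map f)

/-- The matrices intertwining `A` and `B`. -/
def Inter {R : Type u} [CommRing R] {G : Type v} {n : ℕ} (A B : G → Matrix (Fin n) (Fin n) R) :
    Type u := {φ : Matrix (Fin n) (Fin n) R // ∀ g, φ * A g = B g * φ}

theorem global_sum {R : Type u} [CommRing R] [Algebra.FiniteType ℤ R] {G : Type v} [Finite G]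
    {n m : ℕ} (A B A' B' : G → Matrix (Fin n) (Fin n) R) (C : G → Matrix (Fin m) (Fin m) R)
    (hA : ∀ g, A g * A' g = 1) (hB : ∀ g, B g * B' g = 1) (hrel : Rel A B C) :
    ∃ (t : Finset (Inter A B)) (b : Inter A B → R), ∑ φ ∈ t, b φ * (φ.1.det * φ.1.det) = 1 := by
  have htop : Ideal.span (Set.range fun φ : Inter A B => φ.1.det * φ.1.det) = ⊤ := by
    by_contra hne
    obtain ⟨I, hI, hle⟩ := Ideal.exists_le_maximal _ hne
    obtain ⟨φ, hφ, hdet⟩ := global_step A B A' B' C hA hB hrel I hI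
    apply hdet
    have h1 : φ.det * φ.det ∈ I := hle (Ideal.subset_span ⟨⟨φ, hφ⟩, rfl⟩)
    exact (hI.isPrime.mem_or_mem h1).elim id id
  have h1 : (1 : R) ∈ Ideal.span (Set.range fun φ : Inter A B => φ.1.det * φ.1.det) := by
    rw [htop]; trivial
  rw [Finsupp.mem_ideal_span_range_iff_exists_finsupp] at h1
  obtain ⟨c, hc⟩ := h1
  exact ⟨c.support, c, hc⟩

/-- Finitely many elements of a commutative ring lie in a finitely generated subring. -/
theorem exists_fg_subring {R : Type u} [CommRing R] {κ : Type*} [Finite κ] (x : κ → R) :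
    ∃ (R₀ : Type u) (_ : CommRing R₀) (_ : Algebra.FiniteType ℤ R₀) (f : R₀ →+* R),
      Function.Injective f ∧ ∃ y : κ → R₀, ∀ i, f (y i) = x i := by
  let s : Set R := Set.range x
  have hs : s.Finite := Set.finite_range x
  let R₀ := Algebra.adjoin ℤ s
  refine ⟨R₀, inferInstance, ?_, R₀.val.toRingHom, Subtype.val_injective, fun i => ⟨x i,
    Algebra.subset_adjoin ⟨i, rfl⟩⟩, fun i => rfl⟩
  have h1 : R₀.FG := ⟨hs.toFinset, by simp [R₀]⟩
  exact (Subalgebra.fg_iff_finiteType R₀).1 h1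

theorem arbitrary_sum {R : Type u} [CommRing R] {G : Type v} [Finite G]
    {n m : ℕ} (A B A' B' : G → Matrix (Fin n) (Fin n) R) (C : G → Matrix (Fin m) (Fin m) R)
    (hA : ∀ g, A g * A' g = 1) (hB : ∀ g, B g * B' g = 1) (hrel : Rel A B C) :
    ∃ (t : Finset (Inter A B)) (b : Inter A B → R), ∑ φ ∈ t, b φ * (φ.1.det * φ.1.det) = 1 := by
  classical
  obtain ⟨U, V, hUV, hVU, hU⟩ := hrel
  -- collect all entries
  let κ := (Fin 4 × G × Fin n × Fin n) ⊕ ((G × Fin m × Fin m) ⊕ ((RI n m × RI n m) ⊕ (RI n m × RI n m)))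
  let M4 : Fin 4 → G → Matrix (Fin n) (Fin n) R := ![A, B, A', B']
  let x : κ → R := Sum.elim (fun z => M4 z.1 z.2.1 z.2.2.1 z.2.2.2)
    (Sum.elim (fun z => C z.1 z.2.1 z.2.2) (Sum.elim (fun z => U z.1 z.2) (fun z => V z.1 z.2)))
  obtain ⟨R₀, _, _, f, hf, y, hy⟩ := exists_fg_subring x
  let N4 : Fin 4 → G → Matrix (Fin n) (Fin n) R₀ := fun i g =>
    Matrix.of fun a c => y (Sum.inl (i, g, a, c))
  let C₀ : G → Matrix (Fin m) (Fin m) R₀ := fun g =>
    Matrix.of fun a c => y (Sum.inr (Sum.inl (g, a, c)))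
  let U₀ : Matrix (RI n m) (RI n m) R₀ := Matrix.of fun a c => y (Sum.inr (Sum.inr (Sum.inl (a, c))))
  let V₀ : Matrix (RI n m) (RI n m) R₀ := Matrix.of fun a c => y (Sum.inr (Sum.inr (Sum.inr (a, c))))
  have hN : ∀ i g, (N4 i g).map f = M4 i g := by
    intro i g; ext a c; exact hy (Sum.inl (i, g, a, c))
  have hC : ∀ g, (C₀ g).map f = C g := by
    intro g; ext a c; exact hy (Sum.inr (Sum.inl (g, a, c)))
  have hU0 : U₀.map f = U := by
    ext a c; exact hy (Sum.inr (Sum.inr (Sum.inl (a, c))))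
  have hV0 : V₀.map f = V := by
    ext a c; exact hy (Sum.inr (Sum.inr (Sum.inr (a, c))))
  have hinj : ∀ {ι κ : Type} (P Q : Matrix ι κ R₀), P.map f = Q.map f → P = Q := by
    intro ι κ P Q h
    ext a c
    exact hf (congrFun (congrFun h a) c)
  have hone : ∀ {ι : Type} [Fintype ι] [DecidableEq ι], (1 : Matrix ι ι R₀).map f = 1 := by
    intro ι _ _
    exact Matrix.map_one f (map_zero f) (map_one f)
  have hA0 : ∀ g, N4 0 g * N4 2 g = 1 := by
    intro g
    apply hinj
    rw [Matrix.map_mul, hN, hN, hone]; exact hA g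
  have hB0 : ∀ g, N4 1 g * N4 3 g = 1 := by
    intro g
    apply hinj
    rw [Matrix.map_mul, hN, hN, hone]; exact hB g
  have hrel0 : Rel (N4 0) (N4 1) C₀ := by
    refine ⟨U₀, V₀, ?_, ?_, fun g => ?_⟩
    · apply hinj
      rw [Matrix.map_mul, hU0, hV0, hUV, hone]
    · apply hinj
      rw [Matrix.map_mul, hU0, hV0, hVU, hone]
    · apply hinj
      rw [Matrix.map_mul, Matrix.map_mul, hU0, lmat_map, rmat_map, hN, hN, hC]
      exact hU g
  obtain ⟨t, b, htb⟩ := global_sum (N4 0) (N4 1) (N4 2) (N4 3) C₀ hA0 hB0 hrel0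
  let F : Inter (N4 0) (N4 1) → Inter A B := fun φ => ⟨φ.1.map f, fun g => by
    have h1 := congrArg (fun P : Matrix (Fin n) (Fin n) R₀ => P.map f) (φ.2 g)
    simp only [Matrix.map_mul, hN] at h1
    exact h1⟩
  have hF : Function.Injective F := by
    intro φ φ' h
    apply Subtype.ext
    apply hinj
    exact congrArg Subtype.val h
  let t' : Finset (Inter A B) := t.map ⟨F, hF⟩
  let b' : Inter A B → R := fun ψ => if h : ∃ φ, F φ = ψ then f (b h.choose) else 0
  have hb' : ∀ φ, b' (F φ) = f (b φ) := by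
    intro φ
    have h : ∃ φ', F φ' = F φ := ⟨φ, rfl⟩
    show (if h : ∃ φ', F φ' = F φ then f (b h.choose) else 0) = f (b φ)
    rw [dif_pos h, hF h.choose_spec]
  refine ⟨t', b', ?_⟩
  rw [Finset.sum_map]
  have h1 := congrArg f htb
  rw [map_sum, map_one] at h1
  rw [← h1]
  refine Finset.sum_congr rfl fun φ _ => ?_
  show b' (F φ) * ((φ.1.map f).det * (φ.1.map f).det) = _
  have h2 : (φ.1.map f).det = f φ.1.det := (RingHom.map_det f φ.1).symm
  rw [hb', h2, map_mul, map_mul]

end Pool.Agent.Rep463
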