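import Mathlib
import Pool.Agent.Rep463.OpMod

/-!
# The representation ring `a(RG)`
-/

namespace Pool.Agent.Rep463

open scoped TensorProduct

universe u v

/-- `X` is an `R`-representation of the group `G` in the sense of the problem: the underlying
module is finitely generated and free over `R`, and `g ↦ X.op g` is a homomorphism
`G → End_R(X)` (hence into `GL_R(X)`), i.e. `X` is a left `RG`-module. -/
structure OpMod.IsRep {R : Type u} [CommRing R] {G : Type v} [Group G] (X : OpMod R G) : Prop where
  free : Module.Free R X
  finite : Module.Finite R X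
  map_one : X.op 1 = LinearMap.id
  map_mul : ∀ g h : G, X.op (g * h) = X.op g ∘ₗ X.op h

variable (R : Type u) [CommRing R] (G : Type v) [Group G]

/-- The commutative semiring of isomorphism classes of `R`-representations of `G` (direct sum and
tensor product over `R` with diagonal action). -/
noncomputable def repClass : Subsemiring (OpClass R G) where
  carrier := {x | ∃ X : OpMod R G, OpClass.mk X = x ∧ X.IsRep}
  mul_mem' := by
    rintro _ _ ⟨X, rfl, hX⟩ ⟨Y, rfl, hY⟩
    have := hX.free
    have := hX.finite
    have := hY.free
    have := hY.finite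
    refine ⟨X.tensor Y, rfl, ⟨?_, ?_, ?_, ?_⟩⟩
    · exact Module.Free.tensor
    · exact Module.Finite.tensorProduct R X Y
    · show TensorProduct.map (X.op 1) (Y.op 1) = LinearMap.id
      rw [hX.map_one, hY.map_one, TensorProduct.map_id]
    · intro g h
      show TensorProduct.map (X.op (g * h)) (Y.op (g * h)) =
        TensorProduct.map (X.op g) (Y.op g) ∘ₗ TensorProduct.map (X.op h) (Y.op h)
      rw [hX.map_mul, hY.map_mul, TensorProduct.map_comp]
  one_mem' := ⟨OpMod.unit R G, rfl, ⟨Module.Free.self R, Module.Finite.self R, rfl,
    fun _ _ => rfl⟩⟩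
  add_mem' := by
    rintro _ _ ⟨X, rfl, hX⟩ ⟨Y, rfl, hY⟩
    have := hX.free
    have := hX.finite
    have := hY.free
    have := hY.finite
    refine ⟨X.sum Y, rfl, ⟨?_, ?_, ?_, ?_⟩⟩
    · exact Module.Free.prod R X Y
    · exact Module.Finite.prod
    · show (X.op 1).prodMap (Y.op 1) = LinearMap.id
      rw [hX.map_one, hY.map_one, LinearMap.prodMap_id]
    · intro g h
      show (X.op (g * h)).prodMap (Y.op (g * h)) =
        (X.op g).prodMap (Y.op g) ∘ₗ (X.op h).prodMap (Y.op h)
      rw [hX.map_mul, hY.map_mul, LinearMap.prodMap_comp]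
  zero_mem' := ⟨OpMod.zero R G, rfl, ⟨by
    show Module.Free R PUnit.{u+1}
    infer_instance, by
    show Module.Finite R PUnit.{u+1}
    infer_instance, LinearMap.ext fun _ => rfl, fun _ _ => LinearMap.ext fun _ => rfl⟩⟩

/-- The representation ring `a(RG)`: the Grothendieck ring of the commutative semiring of
isomorphism classes of `R`-representations of `G`. -/
abbrev RepRing : Type (max v (u + 1)) := K0 (repClass R G)

end Pool.Agent.Rep463
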