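import Mathlib
import Pool.Agent.Rep463.Rep

/-! # Matrix factorisations -/

namespace Pool.Agent.Rep463

universe u' v'

/-- The class of a representation. -/
noncomputable def repCls {R : Type u'} [CommRing R] {G : Type v'} [Group G] (X : OpMod R G)
    (hX : X.IsRep) : RepRing R G := K0.of ⟨OpClass.mk X, X, rfl, hX⟩


section rawmf

open scoped TensorProduct

variable {R : Type*} [CommRing R] {E O M N : Type*} [AddCommGroup E] [Module R E]
  [AddCommGroup O] [Module R O] [AddCommGroup M] [Module R M] [AddCommGroup N] [Module R N]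

/-- first differential of the product factorisation -/
noncomputable def mfP (D : E →ₗ[R] O) (D' : O →ₗ[R] E) (φ : M →ₗ[R] N) (s : N →ₗ[R] M) (b : R) :
    (E ⊗[R] M) × (O ⊗[R] N) →ₗ[R] (E ⊗[R] N) × (O ⊗[R] M) :=
  ((TensorProduct.map (LinearMap.id : E →ₗ[R] E) φ).coprod
      (TensorProduct.map D' (LinearMap.id : N →ₗ[R] N))).prod
    ((TensorProduct.map D (LinearMap.id : M →ₗ[R] M)).coprod
      (-(b • TensorProduct.map (LinearMap.id : O →ₗ[R] O) s)))

/-- second differential of the product factorisation -/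
noncomputable def mfQ (D : E →ₗ[R] O) (D' : O →ₗ[R] E) (φ : M →ₗ[R] N) (s : N →ₗ[R] M) (b : R) :
    (E ⊗[R] N) × (O ⊗[R] M) →ₗ[R] (E ⊗[R] M) × (O ⊗[R] N) :=
  ((b • TensorProduct.map (LinearMap.id : E →ₗ[R] E) s).coprod
      (TensorProduct.map D' (LinearMap.id : M →ₗ[R] M))).prod
    ((TensorProduct.map D (LinearMap.id : N →ₗ[R] N)).coprod
      (-(TensorProduct.map (LinearMap.id : O →ₗ[R] O) φ)))

theorem mf_QP (D : E →ₗ[R] O) (D' : O →ₗ[R] E) (φ : M →ₗ[R] N) (s : N →ₗ[R] M) (b c c' : R)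
    (h1 : ∀ x, D' (D x) = c • x) (h2 : ∀ x, D (D' x) = c • x)
    (h3 : ∀ x, s (φ x) = c' • x) (h4 : ∀ x, φ (s x) = c' • x) (x : (E ⊗[R] M) × (O ⊗[R] N)) :
    mfQ D D' φ s b (mfP D D' φ s b x) = (c + b * c') • x := by
  have key : mfQ D D' φ s b ∘ₗ mfP D D' φ s b = (c + b * c') • LinearMap.id := by
    apply LinearMap.prod_ext
    · apply TensorProduct.ext'
      intro e m
      simp [mfP, mfQ, h1, h2, h3, h4, TensorProduct.smul_tmul', TensorProduct.tmul_smul, add_smul, smul_smul, add_comm]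
    · apply TensorProduct.ext'
      intro e m
      simp [mfP, mfQ, h1, h2, h3, h4, TensorProduct.smul_tmul', TensorProduct.tmul_smul, add_smul, smul_smul, add_comm]
      rw [mul_comm]
  exact DFunLike.congr_fun key x

theorem mf_PQ (D : E →ₗ[R] O) (D' : O →ₗ[R] E) (φ : M →ₗ[R] N) (s : N →ₗ[R] M) (b c c' : R)
    (h1 : ∀ x, D' (D x) = c • x) (h2 : ∀ x, D (D' x) = c • x)
    (h3 : ∀ x, s (φ x) = c' • x) (h4 : ∀ x, φ (s x) = c' • x) (x : (E ⊗[R] N) × (O ⊗[R] M)) :
    mfP D D' φ s b (mfQ D D' φ s b x) = (c + b * c') • x := by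
  have key : mfP D D' φ s b ∘ₗ mfQ D D' φ s b = (c + b * c') • LinearMap.id := by
    apply LinearMap.prod_ext
    · apply TensorProduct.ext'
      intro e m
      simp [mfP, mfQ, h1, h2, h3, h4, TensorProduct.smul_tmul', TensorProduct.tmul_smul, add_smul, smul_smul, add_comm]
      rw [mul_comm]
    · apply TensorProduct.ext'
      intro e m
      simp [mfP, mfQ, h1, h2, h3, h4, TensorProduct.smul_tmul', TensorProduct.tmul_smul, add_smul, smul_smul, add_comm]
  exact DFunLike.congr_fun key x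

theorem mfP_equiv (D : E →ₗ[R] O) (D' : O →ₗ[R] E) (φ : M →ₗ[R] N) (s : N →ₗ[R] M) (b : R)
    (gE : E →ₗ[R] E) (gO : O →ₗ[R] O) (gM : M →ₗ[R] M) (gN : N →ₗ[R] N)
    (h1 : ∀ x, D (gE x) = gO (D x)) (h2 : ∀ x, D' (gO x) = gE (D' x))
    (h3 : ∀ x, φ (gM x) = gN (φ x)) (h4 : ∀ x, s (gN x) = gM (s x))
    (x : (E ⊗[R] M) × (O ⊗[R] N)) :
    mfP D D' φ s b ((TensorProduct.map gE gM).prodMap (TensorProduct.map gO gN) x) =
      (TensorProduct.map gE gN).prodMap (TensorProduct.map gO gM) (mfP D D' φ s b x) := by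
  have key : mfP D D' φ s b ∘ₗ (TensorProduct.map gE gM).prodMap (TensorProduct.map gO gN) =
      (TensorProduct.map gE gN).prodMap (TensorProduct.map gO gM) ∘ₗ mfP D D' φ s b := by
    apply LinearMap.prod_ext
    · apply TensorProduct.ext'
      intro e m
      simp [mfP, h1, h2, h3, h4]
    · apply TensorProduct.ext'
      intro e m
      simp [mfP, h1, h2, h3, h4]
  exact DFunLike.congr_fun key x

theorem mfQ_equiv (D : E →ₗ[R] O) (D' : O →ₗ[R] E) (φ : M →ₗ[R] N) (s : N →ₗ[R] M) (b : R)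
    (gE : E →ₗ[R] E) (gO : O →ₗ[R] O) (gM : M →ₗ[R] M) (gN : N →ₗ[R] N)
    (h1 : ∀ x, D (gE x) = gO (D x)) (h2 : ∀ x, D' (gO x) = gE (D' x))
    (h3 : ∀ x, φ (gM x) = gN (φ x)) (h4 : ∀ x, s (gN x) = gM (s x))
    (x : (E ⊗[R] N) × (O ⊗[R] M)) :
    mfQ D D' φ s b ((TensorProduct.map gE gN).prodMap (TensorProduct.map gO gM) x) =
      (TensorProduct.map gE gM).prodMap (TensorProduct.map gO gN) (mfQ D D' φ s b x) := by
  have key : mfQ D D' φ s b ∘ₗ (TensorProduct.map gE gN).prodMap (TensorProduct.map gO gM) =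
      (TensorProduct.map gE gM).prodMap (TensorProduct.map gO gN) ∘ₗ mfQ D D' φ s b := by
    apply LinearMap.prod_ext
    · apply TensorProduct.ext'
      intro e m
      simp [mfQ, h1, h2, h3, h4]
    · apply TensorProduct.ext'
      intro e m
      simp [mfQ, h1, h2, h3, h4]
  exact DFunLike.congr_fun key x

end rawmf

theorem isRep_sum {R : Type u'} [CommRing R] {G : Type v'} [Group G] {X Y : OpMod R G}
    (hX : X.IsRep) (hY : Y.IsRep) : (X.sum Y).IsRep := by
  have := hX.free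
  have := hX.finite
  have := hY.free
  have := hY.finite
  refine ⟨?_, ?_, ?_, ?_⟩
  · exact Module.Free.prod R X Y
  · exact Module.Finite.prod
  · show (X.op 1).prodMap (Y.op 1) = LinearMap.id
    rw [hX.map_one, hY.map_one, LinearMap.prodMap_id]
  · intro g h
    show (X.op (g * h)).prodMap (Y.op (g * h)) =
      (X.op g).prodMap (Y.op g) ∘ₗ (X.op h).prodMap (Y.op h)
    rw [hX.map_mul, hY.map_mul, LinearMap.prodMap_comp]

theorem isRep_tensor {R : Type u'} [CommRing R] {G : Type v'} [Group G] {X Y : OpMod R G}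
    (hX : X.IsRep) (hY : Y.IsRep) : (X.tensor Y).IsRep := by
  have := hX.free
  have := hX.finite
  have := hY.free
  have := hY.finite
  refine ⟨?_, ?_, ?_, ?_⟩
  · exact Module.Free.tensor
  · exact Module.Finite.tensorProduct R X Y
  · show TensorProduct.map (X.op 1) (Y.op 1) = LinearMap.id
    rw [hX.map_one, hY.map_one, TensorProduct.map_id]
  · intro g h
    show TensorProduct.map (X.op (g * h)) (Y.op (g * h)) =
      TensorProduct.map (X.op g) (Y.op g) ∘ₗ TensorProduct.map (X.op h) (Y.op h)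
    rw [hX.map_mul, hY.map_mul, TensorProduct.map_comp]

theorem repCls_sum {R : Type u'} [CommRing R] {G : Type v'} [Group G] {X Y : OpMod R G}
    (hX : X.IsRep) (hY : Y.IsRep) :
    repCls (X.sum Y) (isRep_sum hX hY) = repCls X hX + repCls Y hY := by
  unfold repCls
  rw [← map_add]
  rfl

theorem repCls_tensor {R : Type u'} [CommRing R] {G : Type v'} [Group G] {X Y : OpMod R G}
    (hX : X.IsRep) (hY : Y.IsRep) :
    repCls (X.tensor Y) (isRep_tensor hX hY) = repCls X hX * repCls Y hY := by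
  unfold repCls
  rw [← K0.of_mul]
  rfl

theorem isRep_zero (R : Type u') [CommRing R] (G : Type v') [Group G] :
    (OpMod.zero R G).IsRep := ⟨by
    show Module.Free R PUnit.{u'+1}
    infer_instance, by
    show Module.Finite R PUnit.{u'+1}
    infer_instance, LinearMap.ext fun _ => rfl, fun _ _ => LinearMap.ext fun _ => rfl⟩

theorem isRep_unit (R : Type u') [CommRing R] (G : Type v') [Group G] :
    (OpMod.unit R G).IsRep := ⟨Module.Free.self R, Module.Finite.self R, rfl,
    fun _ _ => rfl⟩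

theorem repCls_zero (R : Type u') [CommRing R] (G : Type v') [Group G] :
    repCls (OpMod.zero R G) (isRep_zero R G) = 0 := by
  unfold repCls
  exact map_zero (K0.of (N := repClass R G))

theorem repCls_unit (R : Type u') [CommRing R] (G : Type v') [Group G] :
    repCls (OpMod.unit R G) (isRep_unit R G) = 1 := rfl

theorem repCls_congr {R : Type u'} [CommRing R] {G : Type v'} [Group G] {X Y : OpMod R G}
    (hX : X.IsRep) (hY : Y.IsRep) (h : OpMod.Iso X Y) : repCls X hX = repCls Y hY := by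
  unfold repCls
  congr 1
  exact Subtype.ext (OpClass.mk_eq_mk.2 h)

/-- existence of a matrix factorisation of `c` whose class is a power of `[M] - [N]` -/
def HasMF {R : Type u'} [CommRing R] {G : Type v'} [Group G] (a : RepRing R G) (c : R) : Prop :=
  ∃ (r : ℕ) (E O : OpMod R G) (hE : E.IsRep) (hO : O.IsRep) (D : E →ₗ[R] O) (D' : O →ₗ[R] E),
    repCls E hE - repCls O hO = a ^ r ∧ (∀ g x, D (E.op g x) = O.op g (D x)) ∧
    (∀ g x, D' (O.op g x) = E.op g (D' x)) ∧ (∀ x, D' (D x) = c • x) ∧ ∀ x, D (D' x) = c • x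

theorem hasMF_zero {R : Type u'} [CommRing R] {G : Type v'} [Group G] (a : RepRing R G) :
    HasMF a (0 : R) := by
  refine ⟨0, OpMod.unit R G, OpMod.zero R G, isRep_unit R G, isRep_zero R G, 0, 0, ?_, ?_, ?_,
    ?_, ?_⟩
  · rw [repCls_unit, repCls_zero, sub_zero, pow_zero]
  · intro g x; rfl
  · intro g x; rfl
  · intro x; simp
  · intro x; rfl

theorem hasMF_step {R : Type u'} [CommRing R] {G : Type v'} [Group G] (M N : OpMod R G)
    (hM : M.IsRep) (hN : N.IsRep) (φ : M →ₗ[R] N) (s : N →ₗ[R] M)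
    (hφ : ∀ g x, φ (M.op g x) = N.op g (φ x))
    (hs : ∀ g x, s (N.op g x) = M.op g (s x))
    (b c' : R) (hsφ : ∀ x, s (φ x) = c' • x) (hφs : ∀ x, φ (s x) = c' • x) (c : R)
    (h : HasMF (repCls M hM - repCls N hN) c) :
    HasMF (repCls M hM - repCls N hN) (c + b * c') := by
  obtain ⟨r, E, O, hE, hO, D, D', h0, h1, h2, h3, h4⟩ := h
  refine ⟨r + 1, (E.tensor M).sum (O.tensor N), (E.tensor N).sum (O.tensor M),
    isRep_sum (isRep_tensor hE hM) (isRep_tensor hO hN),
    isRep_sum (isRep_tensor hE hN) (isRep_tensor hO hM),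
    mfP D D' φ s b, mfQ D D' φ s b, ?_, ?_, ?_, ?_, ?_⟩
  · rw [repCls_sum (isRep_tensor hE hM) (isRep_tensor hO hN),
      repCls_sum (isRep_tensor hE hN) (isRep_tensor hO hM), repCls_tensor hE hM,
      repCls_tensor hO hN, repCls_tensor hE hN, repCls_tensor hO hM, pow_succ, ← h0]
    ring
  · intro g x
    exact mfP_equiv D D' φ s b (E.op g) (O.op g) (M.op g) (N.op g) (h1 g) (h2 g) (hφ g) (hs g) x
  · intro g x
    exact mfQ_equiv D D' φ s b (E.op g) (O.op g) (M.op g) (N.op g) (h1 g) (h2 g) (hφ g) (hs g) x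
  · exact mf_QP D D' φ s b c c' h3 h4 hsφ hφs
  · exact mf_PQ D D' φ s b c c' h3 h4 hsφ hφs

theorem exists_pow_eq_zero {R : Type u'} [CommRing R] {G : Type v'} [Group G] (M N : OpMod R G)
    (hM : M.IsRep) (hN : N.IsRep) {ι : Type*} (t : Finset ι)
    (φ : ι → M →ₗ[R] N) (s : ι → N →ₗ[R] M)
    (hφ : ∀ i g x, φ i (M.op g x) = N.op g (φ i x))
    (hs : ∀ i g x, s i (N.op g x) = M.op g (s i x))
    (b c : ι → R)
    (hsφ : ∀ i x, s i (φ i x) = c i • x) (hφs : ∀ i x, φ i (s i x) = c i • x)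
    (hsum : ∑ i ∈ t, b i * c i = 1) :
    ∃ r : ℕ, (repCls M hM - repCls N hN) ^ r = 0 := by
  classical
  have key : ∀ u : Finset ι, HasMF (repCls M hM - repCls N hN) (∑ i ∈ u, b i * c i) := by
    intro u
    induction u using Finset.induction_on with
    | empty => rw [Finset.sum_empty]; exact hasMF_zero _
    | insert i u hi ih =>
      rw [Finset.sum_insert hi, add_comm]
      exact hasMF_step M N hM hN (φ i) (s i) (hφ i) (hs i) (b i) (c i) (hsφ i) (hφs i) _ ih
  obtain ⟨r, E, O, hE, hO, D, D', h0, h1, h2, h3, h4⟩ := key t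
  rw [hsum] at h3 h4
  refine ⟨r, ?_⟩
  rw [← h0, sub_eq_zero]
  refine repCls_congr hE hO ⟨LinearEquiv.ofLinearMap D D' ?_ ?_, h1⟩
  · ext x; simpa using h4 x
  · ext x; simpa using h3 x

end Pool.Agent.Rep463
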