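import Mathlib
import Pool.Agent.Rep463.Global
import Pool.Agent.Rep463.MF

/-!
# Assembly
-/

namespace Pool.Agent.Rep463

open scoped TensorProduct Kronecker
open Finset

universe u v w

variable {R : Type u} [CommRing R] {G : Type v} [Group G]

theorem repCls_congrF {X Y : OpMod R G} (hX : X.IsRep) (hY : Y.IsRep) (h : X.Iso Y) :
    repCls X hX = repCls Y hY := by
  unfold repCls
  congr 2
  exact OpClass.mk_eq_mk.2 h

theorem OpMod.IsRep.sum {X Y : OpMod R G} (hX : X.IsRep) (hY : Y.IsRep) : (X.sum Y).IsRep := by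
  have := hX.free
  have := hX.finite
  have := hY.free
  have := hY.finite
  refine ⟨Module.Free.prod R X Y, Module.Finite.prod, ?_, ?_⟩
  · show (X.op 1).prodMap (Y.op 1) = LinearMap.id
    rw [hX.map_one, hY.map_one, LinearMap.prodMap_id]
  · intro g h
    show (X.op (g * h)).prodMap (Y.op (g * h)) =
      (X.op g).prodMap (Y.op g) ∘ₗ (X.op h).prodMap (Y.op h)
    rw [hX.map_mul, hY.map_mul, LinearMap.prodMap_comp]

theorem isRepF_unit : (OpMod.unit R G).IsRep :=
  ⟨Module.Free.self R, Module.Finite.self R, rfl, fun _ _ => rfl⟩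

theorem repClsF_sum {X Y : OpMod R G} (hX : X.IsRep) (hY : Y.IsRep) :
    repCls (X.sum Y) (hX.sum hY) = repCls X hX + repCls Y hY := by
  unfold repCls
  rw [← map_add]
  rfl

theorem repClsF_unit : repCls (OpMod.unit R G) isRepF_unit = 1 := rfl

theorem exists_repCls (x : RepRing R G) :
    ∃ (M N : OpMod R G) (hM : M.IsRep) (hN : N.IsRep), x = repCls M hM - repCls N hN := by
  obtain ⟨⟨_, M, rfl, hM⟩, ⟨_, N, rfl, hN⟩, rfl⟩ := K0.exists_of_sub x
  exact ⟨M, N, hM, hN, rfl⟩

theorem exists_rel (M N : OpMod R G) (hM : M.IsRep) (hN : N.IsRep)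
    (h : (repCls M hM - repCls N hN) * (repCls M hM - repCls N hN) =
      repCls M hM - repCls N hN) :
    ∃ P : OpMod R G, P.IsRep ∧
      ((M.tensor M).sum ((N.tensor N).sum (N.sum P))).Iso
        ((M.tensor N).sum ((M.tensor N).sum (M.sum P))) := by
  let x : repClass R G := ⟨OpClass.mk M, M, rfl, hM⟩
  let y : repClass R G := ⟨OpClass.mk N, N, rfl, hN⟩
  have h1 : (K0.of (x * x + (y * y + y)) : RepRing R G) = K0.of (x * y + (x * y + x)) := by
    have hx : repCls M hM = K0.of x := rfl
    have hy : repCls N hN = K0.of y := rfl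
    rw [hx, hy] at h
    simp only [map_add, K0.of_mul]
    linear_combination h
  obtain ⟨⟨_, P, rfl, hP⟩, hc⟩ := K0.of_eq_of_iff.1 h1
  refine ⟨P, hP, ?_⟩
  apply OpClass.mk_eq_mk.1
  have h2 := congrArg Subtype.val hc
  have h3 : OpClass.mk M * OpClass.mk M + (OpClass.mk N * OpClass.mk N + OpClass.mk N) +
      OpClass.mk P = OpClass.mk M * OpClass.mk N + (OpClass.mk M * OpClass.mk N + OpClass.mk M) +
      OpClass.mk P := h2
  have h4 : OpClass.mk M * OpClass.mk M + (OpClass.mk N * OpClass.mk N + (OpClass.mk N +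
      OpClass.mk P)) = OpClass.mk M * OpClass.mk N + (OpClass.mk M * OpClass.mk N +
      (OpClass.mk M + OpClass.mk P)) := by
    simpa only [add_assoc] using h3
  exact h4

theorem exists_matrices (X : OpMod R G) (hX : X.IsRep) {n : ℕ} [Nontrivial R]
    (hn : Module.finrank R X = n) :
    ∃ A : G → Matrix (Fin n) (Fin n) R, X.Iso (mobj A) ∧ A 1 = 1 ∧
      ∀ g h, A (g * h) = A g * A h := by
  subst hn
  have := hX.free
  have := hX.finite
  let b := Module.finBasis R X
  refine ⟨fun g => LinearMap.toMatrix b b (X.op g), ⟨b.equivFun, fun g x => ?_⟩, ?_, ?_⟩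
  · show _ = (LinearMap.toMatrix b b (X.op g)).mulVec (b.equivFun x)
    exact (LinearMap.toMatrix_mulVec_repr b b (X.op g) x).symm
  · show LinearMap.toMatrix b b (X.op 1) = 1
    rw [hX.map_one, LinearMap.toMatrix_id]
  · intro g h
    show LinearMap.toMatrix b b (X.op (g * h)) =
      LinearMap.toMatrix b b (X.op g) * LinearMap.toMatrix b b (X.op h)
    rw [hX.map_mul, LinearMap.toMatrix_comp b b b]

theorem isRep_mobj {n : ℕ} (A : G → Matrix (Fin n) (Fin n) R) (h1 : A 1 = 1)
    (hm : ∀ g h, A (g * h) = A g * A h) : (mobj A).IsRep := by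
  refine ⟨inferInstance, inferInstance, ?_, ?_⟩
  · show (A 1).mulVecLin = LinearMap.id
    rw [h1, Matrix.mulVecLin_one]
  · intro g h
    show (A (g * h)).mulVecLin = (A g).mulVecLin ∘ₗ (A h).mulVecLin
    rw [hm, Matrix.mulVecLin_mul]

theorem eq_of_finrank_eq [Finite G] [Nontrivial R] (M N : OpMod R G) (hM : M.IsRep) (hN : N.IsRep)
    (hrk : Module.finrank R M = Module.finrank R N)
    (h : (repCls M hM - repCls N hN) * (repCls M hM - repCls N hN) =
      repCls M hM - repCls N hN) : repCls M hM - repCls N hN = 0 := by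
  obtain ⟨P, hP, hiso⟩ := exists_rel M N hM hN h
  obtain ⟨A, hMA, hA1, hAm⟩ := exists_matrices M hM rfl
  obtain ⟨B, hNB, hB1, hBm⟩ := exists_matrices N hN hrk.symm
  obtain ⟨C, hPC, -, -⟩ := exists_matrices P hP rfl
  have hrel : Rel A B C := by
    rw [rel_iff]
    have h1 := OpMod.sum_congr (OpMod.tensor_congr hMA hMA)
      (OpMod.sum_congr (OpMod.tensor_congr hNB hNB) (OpMod.sum_congr hNB hPC))
    have h2 := OpMod.sum_congr (OpMod.tensor_congr hMA hNB)
      (OpMod.sum_congr (OpMod.tensor_congr hMA hNB) (OpMod.sum_congr hMA hPC))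
    exact h1.symm.trans (hiso.trans h2)
  obtain ⟨t, b, htb⟩ := arbitrary_sum A B (fun g => A g⁻¹) (fun g => B g⁻¹) C
    (fun g => by rw [← hAm, mul_inv_cancel, hA1]) (fun g => by rw [← hBm, mul_inv_cancel, hB1]) hrel
  have hadj : ∀ φ : Inter A B, ∀ g, (φ.1.det • φ.1.adjugate) * B g = A g * (φ.1.det • φ.1.adjugate) := by
    intro φ g
    have h1 := φ.2 g
    have h2 : φ.1.adjugate * (φ.1 * A g) * φ.1.adjugate =
        φ.1.adjugate * (B g * φ.1) * φ.1.adjugate := by rw [h1]
    have h3 : φ.1.adjugate * (φ.1 * A g) * φ.1.adjugate = A g * (φ.1.det • φ.1.adjugate) := by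
      rw [← mul_assoc, Matrix.adjugate_mul, Matrix.smul_mul, one_mul, Matrix.smul_mul,
        Matrix.mul_smul]
    have h4 : φ.1.adjugate * (B g * φ.1) * φ.1.adjugate = (φ.1.det • φ.1.adjugate) * B g := by
      rw [mul_assoc, mul_assoc, Matrix.mul_adjugate, Matrix.mul_smul, mul_one, Matrix.mul_smul,
        Matrix.smul_mul]
    rw [← h4, ← h2, h3]
  have hRA := isRep_mobj A hA1 hAm
  have hRB := isRep_mobj B hB1 hBm
  obtain ⟨r, hr⟩ := exists_pow_eq_zero (mobj A) (mobj B) hRA hRB t
    (fun φ => φ.1.mulVecLin) (fun φ => (φ.1.det • φ.1.adjugate).mulVecLin)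
    (fun φ g x => by
      show φ.1.mulVec ((A g).mulVec x) = (B g).mulVec (φ.1.mulVec x)
      rw [Matrix.mulVec_mulVec, Matrix.mulVec_mulVec, φ.2 g])
    (fun φ g x => by
      show (φ.1.det • φ.1.adjugate).mulVec ((B g).mulVec x) =
        (A g).mulVec ((φ.1.det • φ.1.adjugate).mulVec x)
      rw [Matrix.mulVec_mulVec, Matrix.mulVec_mulVec, hadj])
    b (fun φ => φ.1.det * φ.1.det)
    (fun φ x => by
      show (φ.1.det • φ.1.adjugate).mulVec (φ.1.mulVec x) = (φ.1.det * φ.1.det) • x
      rw [Matrix.mulVec_mulVec, Matrix.smul_mul, Matrix.adjugate_mul, smul_smul,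
        Matrix.smul_mulVec, Matrix.one_mulVec])
    (fun φ x => by
      show φ.1.mulVec ((φ.1.det • φ.1.adjugate).mulVec x) = (φ.1.det * φ.1.det) • x
      rw [Matrix.mulVec_mulVec, Matrix.mul_smul, Matrix.mul_adjugate, smul_smul,
        Matrix.smul_mulVec, Matrix.one_mulVec]) htb
  rw [repCls_congrF hM hRA hMA, repCls_congrF hN hRB hNB] at h ⊢
  have h5 : (repCls (mobj A) hRA - repCls (mobj B) hRB) ^ (r + 1) =
      repCls (mobj A) hRA - repCls (mobj B) hRB := IsIdempotentElem.pow_succ_eq r h
  rw [← h5, pow_succ, hr, zero_mul]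

theorem finrank_rel [Nontrivial R] (M N P : OpMod R G) (hM : M.IsRep) (hN : N.IsRep) (hP : P.IsRep)
    (h : ((M.tensor M).sum ((N.tensor N).sum (N.sum P))).Iso
        ((M.tensor N).sum ((M.tensor N).sum (M.sum P)))) :
    Module.finrank R M = Module.finrank R N ∨ Module.finrank R M = Module.finrank R N + 1 := by
  have := hM.free
  have := hM.finite
  have := hN.free
  have := hN.finite
  have := hP.free
  have := hP.finite
  obtain ⟨e, -⟩ := h
  have h1 := LinearEquiv.finrank_eq e
  rw [Module.finrank_prod, Module.finrank_prod, Module.finrank_prod, Module.finrank_prod,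
    Module.finrank_prod, Module.finrank_prod, Module.finrank_tensorProduct,
    Module.finrank_tensorProduct, Module.finrank_tensorProduct] at h1
  set a := Module.finrank R M
  set b := Module.finrank R N
  have h2 : ((a : ℤ) - b) * ((a : ℤ) - b) = (a : ℤ) - b := by
    have h3 : ((a * a + (b * b + (b + Module.finrank R P)) : ℕ) : ℤ) =
      ((a * b + (a * b + (a + Module.finrank R P)) : ℕ) : ℤ) := by exact_mod_cast h1
    push_cast at h3
    linear_combination h3
  have h4 : ((a : ℤ) - b) * ((a : ℤ) - b - 1) = 0 := by linear_combination h2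
  rcases mul_eq_zero.1 h4 with h5 | h5
  · left; omega
  · right; omega

theorem idempotents_trivial [Finite G] (e : RepRing R G) (he : e * e = e) : e = 0 ∨ e = 1 := by
  rcases subsingleton_or_nontrivial R with hR | hR
  · left
    obtain ⟨M, N, hM, hN, rfl⟩ := exists_repCls e
    have h1 : Subsingleton M := Module.subsingleton R M
    have h2 : Subsingleton N := Module.subsingleton R N
    rw [repCls_congrF hM hN ⟨
      { toFun := 0
        invFun := 0
        map_add' := by simp
        map_smul' := by simp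
        left_inv := fun _ => Subsingleton.elim _ _
        right_inv := fun _ => Subsingleton.elim _ _ }, fun _ _ => Subsingleton.elim _ _⟩, sub_self]
  · obtain ⟨M, N, hM, hN, rfl⟩ := exists_repCls e
    obtain ⟨P, hP, hiso⟩ := exists_rel M N hM hN he
    rcases finrank_rel M N P hM hN hP hiso with h | h
    · left
      exact eq_of_finrank_eq M N hM hN h he
    · right
      have h1 : Module.finrank R ((OpMod.unit R G).sum N) = Module.finrank R M := by
        have := hN.free
        have := hN.finite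
        have h2 : Module.finrank R ((OpMod.unit R G).sum N) = 1 + Module.finrank R N := by
          rw [← Module.finrank_self R]
          exact Module.finrank_prod
        rw [h2, h, add_comm]
      have h3 := eq_of_finrank_eq ((OpMod.unit R G).sum N) M (isRepF_unit.sum hN) hM h1 (by
        rw [repClsF_sum isRepF_unit hN, repClsF_unit]
        linear_combination he)
      rw [repClsF_sum isRepF_unit hN, repClsF_unit] at h3
      linear_combination -h3

end Pool.Agent.Rep463
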